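import Pool.Agent.LK.Defs
import Pool.Agent.V8.Bridge

/-!
# LK12a: the types of the cells, points at coordinate points
-/

set_option autoImplicit false

namespace Pool.Agent.LK

open Finset MvPolynomial Pool.Agent.H18.Fat Pool.Agent.H18.Ex Pool.Agent.H21.NX Pool.Agent.H18.Ta
  Pool.Agent.H51.TB Pool.Agent.H21.TC Pool.Agent.V7.ST

private theorem Lam_wr (d : ℕ) (c g h : ℕ × ℕ) (j : ℕ) (h1 : h.1 ≤ g.1) (h2 : h.2 ≤ g.2) :
    wr d c h j ≤ wr d c g j + (g.1 - h.1) + (g.2 - h.2) := by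
  unfold wr
  have hsub : ((range (d + 1)).filter fun i => h.2 ≤ i ∧ i + h.1 ≤ d ∧
      H18.Ta.rk (d + 1) c.1 c.2 i < H18.Ta.rk (d + 1) c.1 c.2 j) ⊆
      (((range (d + 1)).filter fun i => g.2 ≤ i ∧ i + g.1 ≤ d ∧
        H18.Ta.rk (d + 1) c.1 c.2 i < H18.Ta.rk (d + 1) c.1 c.2 j) ∪ Ico (d + 1 - g.1) (d + 1 - h.1)) ∪
        Ico h.2 g.2 := by
    intro i hi
    rw [mem_filter, mem_range] at hi
    obtain ⟨a1, a2, a3, a4⟩ := hi
    rw [mem_union, mem_union, mem_filter, mem_range, mem_Ico, mem_Ico]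
    by_cases b1 : g.2 ≤ i
    · left
      by_cases b2 : i + g.1 ≤ d
      · exact Or.inl ⟨a1, b1, b2, a4⟩
      · exact Or.inr ⟨by omega, by omega⟩
    · exact Or.inr ⟨a2, by omega⟩
  have h3 := card_le_card hsub
  have h4 := card_union_le (((range (d + 1)).filter fun i => g.2 ≤ i ∧ i + g.1 ≤ d ∧
        H18.Ta.rk (d + 1) c.1 c.2 i < H18.Ta.rk (d + 1) c.1 c.2 j) ∪ Ico (d + 1 - g.1) (d + 1 - h.1))
        (Ico h.2 g.2)
  have h5 := card_union_le ((range (d + 1)).filter fun i => g.2 ≤ i ∧ i + g.1 ≤ d ∧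
        H18.Ta.rk (d + 1) c.1 c.2 i < H18.Ta.rk (d + 1) c.1 c.2 j) (Ico (d + 1 - g.1) (d + 1 - h.1))
  rw [Nat.card_Ico] at h4 h5
  omega

theorem Lam_Dn (d m : ℕ) (c : ℕ × ℕ) (j : ℕ) : Dn (Lam d m c j) := by
  intro g hg h h1 h2
  have h3 := Lam_wr d c g h j h1 h2
  unfold Lam at hg ⊢
  rw [mem_filter, mem_product, mem_range, mem_range] at hg ⊢
  obtain ⟨⟨a1, a2⟩, a3, a4, a5⟩ := hg
  exact ⟨⟨by omega, by omega⟩, by omega, by omega, by omega⟩

theorem Lam_Wi (d m : ℕ) (c : ℕ × ℕ) (j : ℕ) : Wi d j (Lam d m c j) := by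
  intro g hg
  unfold Lam at hg
  rw [mem_filter] at hg
  exact ⟨hg.2.1, hg.2.2.1⟩

theorem GM_consA {ι : Type} [Fintype ι] [DecidableEq ι] (o : ι) (d M : ℕ) (A : Finset (ι → ℕ))
    (hA : A ⊆ Sx ι d) (S : Multiset (Kind ι)) (h : GM (A.filter fun α => α o + M ≤ d) S) :
    GM A (Kind.free M ::ₘ S) :=
  Pool.Agent.V8.GM_consA o d M A hA S h

theorem GM_J {K : ℕ} {ι : Type} [Fintype ι] [DecidableEq ι] (o : Fin K → ι) (d : ℕ)
    (e : Fin K → ℕ) (he : ∀ s, e s ≤ d) (S : Multiset ℕ)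
    (h : GM ((Sx ι d).filter fun α => ∀ s, α (o s) ≤ e s) (S.map Kind.free)) :
    GM (Sx ι d) (((univ : Finset (Fin K)).val.map (fun s => d - e s) + S).map Kind.free) := by
  rw [Multiset.map_add]
  refine Pool.Agent.V8.GM_consJ d K o (fun s => d - e s) (Sx ι d) (Subset.refl _) _ ?_
  have h1 : ((Sx ι d).filter fun α => ∀ i, α (o i) + (d - e i) ≤ d) =
      (Sx ι d).filter fun α => ∀ s, α (o s) ≤ e s := by
    refine filter_congr fun α _ => forall_congr' fun s => ?_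
    have := he s
    omega
  rw [h1]
  exact h

end Pool.Agent.LK
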