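import Pool.Agent.LK.Defs
import Pool.Agent.H21.TC.Bnd

/-!
# LK10: lower bounds for the masses, with a constant

As `Pool/Agent/H21/TC/Bnd.lean` (`massw`), with a constant factor `C` on the left hand sides.
-/

set_option autoImplicit false

namespace Pool.Agent.LK

open Finset MvPolynomial Pool.Agent.H18.Ex Pool.Agent.H21.NX Pool.Agent.H18.Ta Pool.Agent.H51.TB
  Pool.Agent.H21.TC Pool.Agent.V7.ST

theorem massC (d C : ℕ) (κ : ℝ) (hκ : 0 < κ) (W : ℕ → ℕ → ℕ × ℕ → ℕ) (hW : AsyW W) :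
    ∃ ε : ℝ, 0 < ε ∧ ∃ n₀ : ℕ, ∀ a b : ℕ, 2 ≤ a → 2 ≤ b →
    n₀ ≤ a + b → |(a : ℝ) - b| ≤ ε * (a + b : ℕ) → ∀ M μ : ℕ, 1 ≤ μ → μ ≤ M → μ + M ≤ d →
    ∀ c : ℕ × ℕ → ℕ,
    (∀ x ∈ KK d, x.2 ≤ μ →
      κ * (ell (a + b - 1) (d + 1) : ℝ) ≤ (c x : ℝ) * (ell (a + b - 1) μ : ℝ)) →
    (∀ j ≤ d, ∀ t, 1 ≤ t → t < μ → C * (ell (a + b) (t + 1) * ell (a + b) M) ≤
      ∑ x ∈ KK d, if cls d μ x j = t then c x * wtw d μ (W a b) x j else 0) ∧
    (∀ j ≤ d, C * (ell (a + b) (d + 1 - M) * ell (a + b) M) ≤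
      ∑ x ∈ KK d, if cls d μ x j = μ then c x * wtw d μ (W a b) x j else 0) := by
  obtain ⟨κ₀, hκ₀, ε, hε, n1, hE⟩ := W_ge d W hW
  obtain ⟨n2, h2⟩ := grow_three d ((κ * κ₀)⁻¹ * C)
  obtain ⟨n3, h3⟩ := grow_big d ((κ * κ₀)⁻¹ * C)
  refine ⟨ε, hε, max n1 (max n2 n3), ?_⟩
  intro a b ha hb hn hab M μ hμ hμM hMd c hc
  have hn1 : n1 ≤ a + b := (le_max_left _ _).trans hn
  have hn2 : n2 ≤ a + b := ((le_max_left _ _).trans (le_max_right _ _)).trans hn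
  have hn3 : n3 ≤ a + b := ((le_max_right _ _).trans (le_max_right _ _)).trans hn
  have hKK : 0 < κ * κ₀ := mul_pos hκ hκ₀
  have hkey : ∀ j ≤ d, ∀ t, 1 ≤ t → t ≤ μ → ∃ s : ℕ,
      s ≤ (∑ x ∈ KK d, if cls d μ x j = t then c x * wtw d μ (W a b) x j else 0) ∧
      κ * κ₀ * ((ell (a + b - 1) t : ℝ) * ell (a + b - 1) (d + 1)) ≤
        (s : ℝ) * (ell (a + b - 1) μ : ℝ) := by
    intro j hj t ht htμ
    obtain ⟨x, hx, hxμ, hxt⟩ := cell (d := d) (μ := μ) (j := j) (t := t) (by omega) hj ht htμ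
    obtain ⟨g, hg, hgt⟩ := cls_attained (d := d) (m := μ) (j := j) x (by omega)
    refine ⟨c x * wtw d μ (W a b) x j, ?_, ?_⟩
    · have h4 := Finset.single_le_sum
        (f := fun x => if cls d μ x j = t then c x * wtw d μ (W a b) x j else 0)
        (fun y _ => Nat.zero_le _) hx
      rw [if_pos hxt] at h4
      exact h4
    · have h4 : W a b g ≤ wtw d μ (W a b) x j :=
        Finset.single_le_sum (f := fun g => W a b g) (fun y _ => Nat.zero_le _) hg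
      have h5 := hE a b ha hb hn1 hab g (by omega)
      rw [hgt, hxt] at h5
      have h6 := hc x hx hxμ
      have h7 : (W a b g : ℝ) ≤ (wtw d μ (W a b) x j : ℝ) := by exact_mod_cast h4
      have h8 : κ₀ * (ell (a + b - 1) t : ℝ) ≤ (wtw d μ (W a b) x j : ℝ) := h5.trans h7
      have h9 : 0 ≤ κ₀ * (ell (a + b - 1) t : ℝ) := by positivity
      have h10 : (0 : ℝ) ≤ (c x : ℝ) * (ell (a + b - 1) μ : ℝ) := by positivity
      push_cast
      calc κ * κ₀ * ((ell (a + b - 1) t : ℝ) * ell (a + b - 1) (d + 1))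
          = (κ * (ell (a + b - 1) (d + 1) : ℝ)) * (κ₀ * (ell (a + b - 1) t : ℝ)) := by ring
        _ ≤ ((c x : ℝ) * (ell (a + b - 1) μ : ℝ)) * (κ₀ * (ell (a + b - 1) t : ℝ)) :=
            mul_le_mul_of_nonneg_right h6 h9
        _ ≤ ((c x : ℝ) * (ell (a + b - 1) μ : ℝ)) * (wtw d μ (W a b) x j : ℝ) :=
            mul_le_mul_of_nonneg_left h8 h10
        _ = (c x : ℝ) * (wtw d μ (W a b) x j : ℝ) * (ell (a + b - 1) μ : ℝ) := by ring
  have hμpos : (0 : ℝ) < (ell (a + b - 1) μ : ℝ) := by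
    have h4 : 0 < ell (a + b - 1) μ := by
      unfold ell
      exact Nat.choose_pos (by omega)
    exact_mod_cast h4
  constructor
  · intro j hj t ht htμ
    obtain ⟨s, hs1, hs2⟩ := hkey j hj t ht htμ.le
    refine le_trans ?_ hs1
    have h4 := h2 (a + b) hn2 t M μ ht (by omega) hμ (by omega) (by omega)
    rw [mul_assoc, inv_mul_le_iff₀ hKK] at h4
    have h5 := h4.trans hs2
    have h6 : (C : ℝ) * ((ell (a + b) (t + 1) : ℝ) * ell (a + b) M) ≤ s := by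
      refine le_of_mul_le_mul_right (le_trans (le_of_eq ?_) h5) hμpos
      ring
    exact_mod_cast h6
  · intro j hj
    obtain ⟨s, hs1, hs2⟩ := hkey j hj μ hμ le_rfl
    refine le_trans ?_ hs1
    have h4 := h3 (a + b) hn3 M (by omega) (by omega)
    rw [mul_assoc, inv_mul_le_iff₀ hKK] at h4
    have h5 : κ * κ₀ * (ell (a + b - 1) (d + 1) : ℝ) ≤ s := by
      have h6 : κ * κ₀ * (ell (a + b - 1) (d + 1) : ℝ) * (ell (a + b - 1) μ : ℝ) ≤
          s * (ell (a + b - 1) μ : ℝ) := by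
        calc κ * κ₀ * (ell (a + b - 1) (d + 1) : ℝ) * (ell (a + b - 1) μ : ℝ)
            = κ * κ₀ * ((ell (a + b - 1) μ : ℝ) * ell (a + b - 1) (d + 1)) := by ring
          _ ≤ _ := hs2
      exact le_of_mul_le_mul_right h6 hμpos
    have h6 := h4.trans h5
    exact_mod_cast h6

end Pool.Agent.LK
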