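import Pool.Agent.LK.Defs
import Pool.Agent.H51.TB.Grow
import Pool.Agent.H51.TB.Tot

/-!
# LK11: the share of the pieces `k ≠ 0`

With `n = b - 1 - K`, `i = |k|` one has `n^i wk k g ≤ [g.2]_i wk 0 g` and
`[n + j]_i nk k = [j]_i nk 0` (falling factorials).  The points of multiplicity `μ` in the cell `(j, 0)`
contain a bidegree `g` with `|g| = μ - 1` and `g.2 ≤ j - 1`, and there `j [g.2]_i ≤ (j - 1) [j]_i`.
-/

set_option autoImplicit false

namespace Pool.Agent.LK

open Finset Pool.Agent.H18.Ex Pool.Agent.H21.NX Pool.Agent.H18.Ta Pool.Agent.H51.TB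
  Pool.Agent.H21.TC

/-! ### Multichoose -/

private theorem Share_left (n k : ℕ) : Nat.multichoose n k ≤ Nat.multichoose (n + 1) k := by
  cases k with
  | zero => rw [Nat.multichoose_zero_right, Nat.multichoose_zero_right]
  | succ k =>
    rw [Nat.multichoose_succ_succ]
    exact Nat.le_add_right _ _

private theorem Share_left' {n n' : ℕ} (h : n ≤ n') (k : ℕ) :
    Nat.multichoose n k ≤ Nat.multichoose n' k := by
  induction n', h using Nat.le_induction with
  | base => exact le_refl _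
  | succ l _ ih => exact ih.trans (Share_left l k)

private theorem Share_right {n : ℕ} (hn : 1 ≤ n) {k l : ℕ} (h : k ≤ l) :
    Nat.multichoose n k ≤ Nat.multichoose n l := by
  obtain ⟨n, rfl⟩ : ∃ n', n = n' + 1 := ⟨n - 1, by omega⟩
  induction l, h using Nat.le_induction with
  | base => exact le_refl _
  | succ l _ ih =>
    refine ih.trans ?_
    rw [Nat.multichoose_succ_succ]
    exact Nat.le_add_left _ _

private theorem Share_mul (v w p q : ℕ) :
    Nat.multichoose v p * Nat.multichoose w q ≤ Nat.multichoose (v + w) (p + q) := by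
  rw [← sum_multichoose]
  exact Finset.single_le_sum (f := fun g : ℕ × ℕ => Nat.multichoose v g.1 * Nat.multichoose w g.2)
    (fun x _ => Nat.zero_le _) (mem_antidiagonal.2 (rfl : (p, q).1 + (p, q).2 = p + q))

private theorem Share_ell {n k : ℕ} (hk : 1 ≤ k) : ell n k = Nat.multichoose (n + 1) (k - 1) := by
  unfold ell
  rw [Nat.multichoose_eq]
  have h1 : k + n - 1 = n + (k - 1) := by omega
  have h2 : n + 1 + (k - 1) - 1 = n + (k - 1) := by omega
  rw [h1, h2]
  exact Nat.choose_symm_add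

private theorem Share_pow_le {N : ℕ} (hN : 1 ≤ N) (k : ℕ) :
    N ^ k ≤ k.factorial * Nat.multichoose N k := by
  obtain ⟨n, rfl⟩ : ∃ n, N = n + 1 := ⟨N - 1, by omega⟩
  rw [Nat.multichoose_eq, show n + 1 + k - 1 = n + k by omega,
    ← Nat.ascFactorial_eq_factorial_mul_choose]
  exact Nat.pow_succ_le_ascFactorial (n + 1) k

private theorem Share_le_pow {N : ℕ} (k : ℕ) (h : k ≤ N) :
    Nat.multichoose N k ≤ (2 * N) ^ k := by
  rw [Nat.multichoose_eq]
  exact (Nat.choose_le_pow (N + k - 1) k).trans (Nat.pow_le_pow_left (by omega) k)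

/-! ### Falling factorials -/

private theorem Share_fall {N i q : ℕ} (hN : 1 ≤ N) (h : i ≤ q) :
    (N + q - 1).descFactorial i * Nat.multichoose N (q - i) =
      q.descFactorial i * Nat.multichoose N q := by
  rw [Nat.descFactorial_eq_factorial_mul_choose, Nat.descFactorial_eq_factorial_mul_choose,
    Nat.multichoose_eq, Nat.multichoose_eq]
  have h1 := Nat.choose_mul (n := N + q - 1) (k := q) (s := i) h
  rw [show N + q - 1 - i = N + (q - i) - 1 by omega] at h1
  calc i.factorial * (N + q - 1).choose i * (N + (q - i) - 1).choose (q - i)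
      = i.factorial * ((N + q - 1).choose i * (N + (q - i) - 1).choose (q - i)) := by ring
    _ = i.factorial * ((N + q - 1).choose q * q.choose i) := by rw [h1]
    _ = _ := by ring

private theorem Share_low {n i q : ℕ} (hn : 1 ≤ n) (h : i ≤ q) :
    n ^ i * Nat.multichoose n (q - i) ≤ q.descFactorial i * Nat.multichoose n q := by
  rw [← Share_fall hn h]
  apply Nat.mul_le_mul_right
  calc n ^ i ≤ (n + q - 1 + 1 - i) ^ i := Nat.pow_le_pow_left (by omega) i
    _ ≤ _ := Nat.pow_sub_le_descFactorial _ _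

private theorem Share_step {i j : ℕ} (hi : 1 ≤ i) (hj : 1 ≤ j) :
    j * (j - 1).descFactorial i + j.descFactorial i ≤ j * j.descFactorial i := by
  obtain ⟨l, rfl⟩ : ∃ l, j = l + 1 := ⟨j - 1, by omega⟩
  rw [show l + 1 - 1 = l by omega, ← Nat.succ_descFactorial_succ, Nat.descFactorial_succ]
  rcases Nat.lt_or_ge (l + 1) i with h | h
  · rw [(Nat.descFactorial_eq_zero_iff_lt).2 h]
    omega
  · have h1 : l + 1 - i + 1 ≤ l + 1 := by omega
    calc (l + 1 - i) * (l + 1).descFactorial i + (l + 1).descFactorial i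
        = (l + 1 - i + 1) * (l + 1).descFactorial i := by ring
      _ ≤ _ := Nat.mul_le_mul_right _ h1

/-! ### The weights -/

private theorem Share_wk_zero {K a b : ℕ} (g : ℕ × ℕ) : wk a b (0 : Fin K → ℕ) g =
    Nat.multichoose (a - 1) g.1 * Nat.multichoose (b - 1 - K) g.2 := by
  unfold wk
  rw [tk_zero, if_pos (Nat.zero_le _), Nat.sub_zero]

private theorem Share_nk_zero' {K a b d j : ℕ} : nk a b d j (0 : Fin K → ℕ) =
    Nat.multichoose a (d - j) * Nat.multichoose (b - K) j := by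
  unfold nk
  rw [tk_zero, if_pos (Nat.zero_le _), Nat.sub_zero]

private theorem Share_wk {K a b : ℕ} (hb : K + 2 ≤ b) (k : Fin K → ℕ) (g : ℕ × ℕ) :
    (b - 1 - K) ^ tk k * wk a b k g ≤
      g.2.descFactorial (tk k) * wk a b (0 : Fin K → ℕ) g := by
  rw [Share_wk_zero]
  unfold wk
  split_ifs with h
  · have h1 := Share_low (n := b - 1 - K) (by omega) h
    calc (b - 1 - K) ^ tk k *
          (Nat.multichoose (a - 1) g.1 * Nat.multichoose (b - 1 - K) (g.2 - tk k))
        = Nat.multichoose (a - 1) g.1 *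
          ((b - 1 - K) ^ tk k * Nat.multichoose (b - 1 - K) (g.2 - tk k)) := by ring
      _ ≤ Nat.multichoose (a - 1) g.1 *
          (g.2.descFactorial (tk k) * Nat.multichoose (b - 1 - K) g.2) :=
          Nat.mul_le_mul_left _ h1
      _ = _ := by ring
  · rw [Nat.mul_zero]
    exact Nat.zero_le _

private theorem Share_nk {K a b d j : ℕ} (hb : K + 2 ≤ b) (k : Fin K → ℕ) (h : tk k ≤ j) :
    j.descFactorial (tk k) * nk a b d j (0 : Fin K → ℕ) ≤
      (b - 1 - K + j) ^ tk k * nk a b d j k := by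
  rw [Share_nk_zero']
  unfold nk
  rw [if_pos h]
  have h1 := Share_fall (N := b - K) (i := tk k) (q := j) (by omega) h
  calc j.descFactorial (tk k) * (Nat.multichoose a (d - j) * Nat.multichoose (b - K) j)
      = Nat.multichoose a (d - j) * (j.descFactorial (tk k) * Nat.multichoose (b - K) j) := by ring
    _ = Nat.multichoose a (d - j) * ((b - K + j - 1).descFactorial (tk k) *
        Nat.multichoose (b - K) (j - tk k)) := by rw [h1]
    _ ≤ Nat.multichoose a (d - j) * ((b - 1 - K + j) ^ tk k *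
        Nat.multichoose (b - K) (j - tk k)) := by
        apply Nat.mul_le_mul_left
        apply Nat.mul_le_mul_right
        rw [show b - K + j - 1 = b - 1 - K + j by omega]
        exact Nat.descFactorial_le_pow _ _
    _ = _ := by ring

private theorem Share_nk_zero {K a b d j : ℕ} (ha : 1 ≤ a) (hj : j ≤ d) :
    nk a b d j (0 : Fin K → ℕ) ≤ ell (a + b - 1) (d + 1) := by
  rw [Share_nk_zero', Share_ell (by omega), show a + b - 1 + 1 = a + b by omega, show d + 1 - 1 = d - j + j by omega]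
  exact (Nat.mul_le_mul_left _ (Share_left' (Nat.sub_le b K) j)).trans (Share_mul _ _ _ _)

private theorem Share_nk_pos {K a b d j : ℕ} (ha : 1 ≤ a) (hj : j ≤ d) (k : Fin K → ℕ)
    (h : 1 ≤ tk k) : nk a b d j k ≤ ell (a + b - 1) d := by
  unfold nk
  split_ifs with h1
  · rw [Share_ell (by omega), show a + b - 1 + 1 = a + b by omega]
    refine (Nat.mul_le_mul_left _ (Share_left' (Nat.sub_le b K) (j - tk k))).trans ?_
    exact (Share_mul _ _ _ _).trans (Share_right (by omega) (by omega))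
  · exact Nat.zero_le _

private theorem Share_card_Box {K d : ℕ} {e : Fin K → ℕ} (he : ∀ s, e s ≤ d) :
    (Box e).card ≤ (d + 1) ^ K := by
  unfold Box
  rw [Fintype.card_piFinset]
  calc ∏ s : Fin K, (range (e s + 1)).card ≤ ∏ _s : Fin K, (d + 1) := by
        apply Finset.prod_le_prod'
        intro s _
        rw [card_range]
        have := he s
        omega
    _ = (d + 1) ^ K := by
        rw [Finset.prod_const, card_univ, Fintype.card_fin]

private theorem Share_BK {K a b d j : ℕ} (ha : 1 ≤ a) (hb : K + 2 ≤ b) (hj : j ≤ d)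
    {e : Fin K → ℕ} (he : ∀ s, e s ≤ d) :
    BK e d a b j ≤ nk a b d j (0 : Fin K → ℕ) + (d + 1) ^ K * ell (a + b - 1) d := by
  unfold BK ND
  rw [if_pos hb]
  have h0 : (0 : Fin K → ℕ) ∈ Box e := by
    rw [mem_Box]
    exact fun s => Nat.zero_le _
  rw [← Finset.add_sum_erase _ _ h0]
  apply Nat.add_le_add_left
  calc ∑ k ∈ (Box e).erase 0, nk a b d j k ≤ ∑ _k ∈ (Box e).erase 0, ell (a + b - 1) d := by
        apply Finset.sum_le_sum
        intro k hk
        apply Share_nk_pos ha hj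
        rw [mem_erase] at hk
        by_contra h
        apply hk.1
        have h2 : tk k = 0 := by omega
        unfold tk at h2
        rw [Finset.sum_eq_zero_iff] at h2
        funext s
        exact h2 s (mem_univ s)
    _ = ((Box e).erase 0).card * ell (a + b - 1) d := by
        rw [Finset.sum_const, smul_eq_mul]
    _ ≤ _ := Nat.mul_le_mul_right _ ((card_le_card (erase_subset _ _)).trans (Share_card_Box he))

private theorem Share_W {K a b : ℕ} (hb : K + 2 ≤ b) (e : Fin K → ℕ) (g : ℕ × ℕ) :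
    wk a b (0 : Fin K → ℕ) g ≤ WK e a b g := by
  unfold WK WD
  rw [if_pos hb]
  have h0 : (0 : Fin K → ℕ) ∈ Box e := by
    rw [mem_Box]
    exact fun s => Nat.zero_le _
  exact Finset.single_le_sum (f := fun k => wk a b k g) (fun _ _ => Nat.zero_le _) h0

private theorem Share_top {K a b d M j : ℕ} (ha : 2 ≤ a) (hM : 1 ≤ M) (hMd : M ≤ d + 1) :
    ∑ g ∈ top d M j, wk a b (0 : Fin K → ℕ) g ≤ (d + 1) ^ 2 * ell (a + b) M := by
  calc ∑ g ∈ top d M j, wk a b (0 : Fin K → ℕ) g ≤ ∑ _g ∈ top d M j, ell (a + b) M := by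
        apply Finset.sum_le_sum
        intro g hg
        unfold top at hg
        rw [mem_filter] at hg
        obtain ⟨_, _, _, hg⟩ := hg
        rw [Share_wk_zero, Share_ell hM]
        refine (Share_mul _ _ _ _).trans ((Share_left' (n' := a + b + 1) (by omega) _).trans ?_)
        exact Share_right (by omega) (by omega)
    _ = (top d M j).card * ell (a + b) M := by rw [Finset.sum_const, smul_eq_mul]
    _ ≤ _ := by
        apply Nat.mul_le_mul_right
        unfold top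
        refine (card_le_card (filter_subset _ _)).trans ?_
        rw [card_product, card_range, pow_two]
        exact Nat.mul_le_mul hMd hMd

/-! ### The special bidegree -/

private theorem Share_star {d μ j : ℕ} (hj1 : 1 ≤ j) (hj : j ≤ d) (hμ : 1 ≤ μ) (hμd : μ ≤ d) :
    ∃ g : ℕ × ℕ, g ∈ Lam d μ (j, 0) j ∧ g.1 + g.2 + 1 = μ ∧ g.2 ≤ j - 1 := by
  refine ⟨(min (μ - 1) (d - j), μ - 1 - min (μ - 1) (d - j)), ?_, ?_, ?_⟩
  · unfold Lam
    rw [mem_filter, mem_product, mem_range, mem_range]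
    have hwr : ∀ g : ℕ × ℕ, wr d (j, 0) g j = 0 := by
      intro g
      unfold wr
      rw [card_eq_zero, filter_eq_empty_iff]
      intro i _ h
      have h2 : rk (d + 1) j 0 j = 0 := by
        unfold rk
        rw [if_neg (lt_irrefl j), if_pos rfl]
      have h3 := h.2.2
      simp only at h3
      rw [h2] at h3
      exact Nat.not_lt_zero _ h3
    rw [hwr]
    simp only
    omega
  · simp only
    omega
  · simp only
    omega

/-- The comparison of the pieces `k` and `0`. -/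
private theorem Share_cmp {K a b d μ j : ℕ} (hb : K + 2 ≤ b) (c : ℕ → ℕ × ℕ → ℕ)
    (k : Fin K → ℕ) (hk : 1 ≤ tk k) (hj1 : 1 ≤ j) (hj : j ≤ d) (hμd : μ ≤ d)
    {g : ℕ × ℕ} (hg : g ∈ Lam d μ (j, 0) j) (hgj : g.2 ≤ j - 1) :
    j * ((b - 1 - K) ^ tk k *
        ∑ m ∈ range (d + 1), ∑ x ∈ KK d, c m x * wtw d m (wk a b k) x j) +
      j.descFactorial (tk k) * (c μ (j, 0) * wk a b (0 : Fin K → ℕ) g) ≤
    j * (j.descFactorial (tk k) *
      ∑ m ∈ range (d + 1), ∑ x ∈ KK d, c m x * wtw d m (wk a b (0 : Fin K → ℕ)) x j) := by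
  have hpt : ∀ (m : ℕ) (x : ℕ × ℕ), j * ((b - 1 - K) ^ tk k * (c m x * wtw d m (wk a b k) x j)) +
      (if m = μ ∧ x = (j, 0) then
        j.descFactorial (tk k) * (c μ (j, 0) * wk a b (0 : Fin K → ℕ) g) else 0) ≤
      j * (j.descFactorial (tk k) * (c m x * wtw d m (wk a b (0 : Fin K → ℕ)) x j)) := by
    intro m x
    have h1 : ∀ h ∈ Lam d m x j, (b - 1 - K) ^ tk k * wk a b k h ≤
        h.2.descFactorial (tk k) * wk a b (0 : Fin K → ℕ) h := fun h _ => Share_wk hb k h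
    have h2 : ∀ h ∈ Lam d m x j, h.2.descFactorial (tk k) * wk a b (0 : Fin K → ℕ) h ≤
        j.descFactorial (tk k) * wk a b (0 : Fin K → ℕ) h := by
      intro h hh
      apply Nat.mul_le_mul_right
      apply Nat.descFactorial_le
      unfold Lam at hh
      rw [mem_filter] at hh
      exact hh.2.1
    split_ifs with hc
    · obtain ⟨rfl, rfl⟩ := hc
      have h3 : ∀ h ∈ Lam d m (j, 0) j, j * ((b - 1 - K) ^ tk k * wk a b k h) +
          (if h = g then j.descFactorial (tk k) * wk a b (0 : Fin K → ℕ) g else 0) ≤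
          j * (j.descFactorial (tk k) * wk a b (0 : Fin K → ℕ) h) := by
        intro h hh
        split_ifs with he
        · subst he
          calc j * ((b - 1 - K) ^ tk k * wk a b k h) +
                j.descFactorial (tk k) * wk a b (0 : Fin K → ℕ) h
              ≤ j * ((j - 1).descFactorial (tk k) * wk a b (0 : Fin K → ℕ) h) +
                j.descFactorial (tk k) * wk a b (0 : Fin K → ℕ) h := by
                apply Nat.add_le_add_right
                apply Nat.mul_le_mul_left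
                refine (h1 h hh).trans ?_
                apply Nat.mul_le_mul_right
                exact Nat.descFactorial_le _ hgj
            _ = (j * (j - 1).descFactorial (tk k) + j.descFactorial (tk k)) *
                wk a b (0 : Fin K → ℕ) h := by ring
            _ ≤ (j * j.descFactorial (tk k)) * wk a b (0 : Fin K → ℕ) h :=
                Nat.mul_le_mul_right _ (Share_step hk hj1)
            _ = _ := by ring
        · rw [Nat.add_zero]
          exact Nat.mul_le_mul_left _ ((h1 h hh).trans (h2 h hh))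
      have h4 := Finset.sum_le_sum h3
      rw [Finset.sum_add_distrib, Finset.sum_ite_eq' (Lam d m (j, 0) j) g, if_pos hg,
        ← Finset.mul_sum, ← Finset.mul_sum, ← Finset.mul_sum, ← Finset.mul_sum] at h4
      have h5 := Nat.mul_le_mul_left (c m (j, 0)) h4
      unfold wtw
      calc _ = c m (j, 0) * (j * ((b - 1 - K) ^ tk k * ∑ g ∈ Lam d m (j, 0) j, wk a b k g) +
            j.descFactorial (tk k) * wk a b (0 : Fin K → ℕ) g) := by ring
        _ ≤ _ := h5
        _ = _ := by ring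
    · rw [Nat.add_zero]
      apply Nat.mul_le_mul_left
      unfold wtw
      calc (b - 1 - K) ^ tk k * (c m x * ∑ g ∈ Lam d m x j, wk a b k g)
          = c m x * ∑ g ∈ Lam d m x j, (b - 1 - K) ^ tk k * wk a b k g := by
            rw [← Finset.mul_sum]
            ring
        _ ≤ c m x * ∑ g ∈ Lam d m x j, j.descFactorial (tk k) * wk a b (0 : Fin K → ℕ) g := by
            apply Nat.mul_le_mul_left
            exact Finset.sum_le_sum fun h hh => (h1 h hh).trans (h2 h hh)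
        _ = _ := by
            rw [← Finset.mul_sum]
            ring
  have hsum := Finset.sum_le_sum (s := range (d + 1)) fun m _ =>
    Finset.sum_le_sum (s := KK d) fun x _ => hpt m x
  have hone : j.descFactorial (tk k) * (c μ (j, 0) * wk a b (0 : Fin K → ℕ) g) ≤
      ∑ m ∈ range (d + 1), ∑ x ∈ KK d, (if m = μ ∧ x = (j, 0) then
        j.descFactorial (tk k) * (c μ (j, 0) * wk a b (0 : Fin K → ℕ) g) else 0) := by
    have h1 := Finset.single_le_sum (s := KK d) (f := fun x => if μ = μ ∧ x = (j, 0) then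
        j.descFactorial (tk k) * (c μ (j, 0) * wk a b (0 : Fin K → ℕ) g) else 0)
      (fun x _ => Nat.zero_le _) (mem_KK.2 (by simpa using hj) : ((j, 0) : ℕ × ℕ) ∈ KK d)
    rw [if_pos ⟨rfl, rfl⟩] at h1
    refine h1.trans ?_
    exact Finset.single_le_sum (s := range (d + 1)) (f := fun m => ∑ x ∈ KK d,
      if m = μ ∧ x = (j, 0) then
        j.descFactorial (tk k) * (c μ (j, 0) * wk a b (0 : Fin K → ℕ) g) else 0)
      (fun x _ => Nat.zero_le _) (mem_range.2 (by omega))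
  simp only [Finset.sum_add_distrib, ← Finset.mul_sum] at hsum
  exact (Nat.add_le_add_left hone _).trans hsum

/-- The lower bound of the weight. -/
private theorem Share_low_w {K a b d μ : ℕ} {g : ℕ × ℕ} (hμd : μ ≤ d) (hg : g.1 + g.2 + 1 = μ)
    (hd : d ≤ a + b) (ha : 1 ≤ a - 1) (hb : 1 ≤ b - 1 - K) (ha8 : ((a + b : ℕ) : ℝ) / 8 ≤ ((a - 1 : ℕ) : ℝ))
    (hb8 : ((a + b : ℕ) : ℝ) / 8 ≤ ((b - 1 - K : ℕ) : ℝ)) :
    1 / ((d.factorial : ℝ) ^ 2 * 16 ^ d) * (ell (a + b - 1) μ : ℝ) ≤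
      (wk a b (0 : Fin K → ℕ) g : ℝ) := by
  have hx0 : (0 : ℝ) ≤ ((a + b : ℕ) : ℝ) / 8 := by positivity
  have h1 : (((a + b : ℕ) : ℝ) / 8) ^ g.1 ≤
      (g.1.factorial : ℝ) * (Nat.multichoose (a - 1) g.1 : ℝ) := by
    refine (pow_le_pow_left₀ hx0 ha8 _).trans ?_
    exact_mod_cast Share_pow_le ha g.1
  have h2 : (((a + b : ℕ) : ℝ) / 8) ^ g.2 ≤
      (g.2.factorial : ℝ) * (Nat.multichoose (b - 1 - K) g.2 : ℝ) := by
    refine (pow_le_pow_left₀ hx0 hb8 _).trans ?_
    exact_mod_cast Share_pow_le hb g.2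
  have h3 : (ell (a + b - 1) μ : ℝ) ≤ (2 * ((a + b : ℕ) : ℝ)) ^ (g.1 + g.2) := by
    rw [Share_ell (by omega), show a + b - 1 + 1 = a + b by omega,
      show μ - 1 = g.1 + g.2 by omega]
    have := Share_le_pow (N := a + b) (g.1 + g.2) (by omega)
    exact_mod_cast this
  have h4 : (2 * ((a + b : ℕ) : ℝ)) ^ (g.1 + g.2) =
      16 ^ (g.1 + g.2) * ((((a + b : ℕ) : ℝ) / 8) ^ g.1 * (((a + b : ℕ) : ℝ) / 8) ^ g.2) := by
    rw [← pow_add, ← mul_pow]
    congr 1
    ring
  have h5 : (g.1.factorial : ℝ) ≤ (d.factorial : ℝ) := by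
    exact_mod_cast Nat.factorial_le (by omega : g.1 ≤ d)
  have h6 : (g.2.factorial : ℝ) ≤ (d.factorial : ℝ) := by
    exact_mod_cast Nat.factorial_le (by omega : g.2 ≤ d)
  have h7 : (16 : ℝ) ^ (g.1 + g.2) ≤ 16 ^ d := pow_le_pow_right₀ (by norm_num) (by omega)
  have hw : (wk a b (0 : Fin K → ℕ) g : ℝ) =
      (Nat.multichoose (a - 1) g.1 : ℝ) * (Nat.multichoose (b - 1 - K) g.2 : ℝ) := by
    rw [Share_wk_zero]
    push_cast
    ring
  have hf : (0 : ℝ) < (d.factorial : ℝ) ^ 2 * 16 ^ d := by positivity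
  rw [one_div, inv_mul_le_iff₀ hf, hw]
  have hA : (0 : ℝ) ≤ (Nat.multichoose (a - 1) g.1 : ℝ) := Nat.cast_nonneg _
  have hB : (0 : ℝ) ≤ (Nat.multichoose (b - 1 - K) g.2 : ℝ) := Nat.cast_nonneg _
  calc (ell (a + b - 1) μ : ℝ) ≤ (2 * ((a + b : ℕ) : ℝ)) ^ (g.1 + g.2) := h3
    _ = 16 ^ (g.1 + g.2) * ((((a + b : ℕ) : ℝ) / 8) ^ g.1 * (((a + b : ℕ) : ℝ) / 8) ^ g.2) := h4
    _ ≤ 16 ^ d * (((d.factorial : ℝ) * (Nat.multichoose (a - 1) g.1 : ℝ)) *
        ((d.factorial : ℝ) * (Nat.multichoose (b - 1 - K) g.2 : ℝ))) := by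
        apply mul_le_mul h7 _ (by positivity) (by positivity)
        apply mul_le_mul (h1.trans (mul_le_mul_of_nonneg_right h5 hA))
          (h2.trans (mul_le_mul_of_nonneg_right h6 hB)) (by positivity) (by positivity)
    _ = _ := by ring

/-- The ratio of the powers. -/
private theorem Share_ratio {n j i d : ℕ} {δ : ℝ} (hn : 1 ≤ n) (hi : i ≤ d) (hj : j ≤ d)
    (h : (d : ℝ) ^ 2 ≤ δ * n) : (1 - δ) * ((n + j : ℕ) : ℝ) ^ i ≤ (n : ℝ) ^ i := by
  have hn0 : (0 : ℝ) < (n : ℝ) := by exact_mod_cast hn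
  have hx : (0 : ℝ) < ((n + j : ℕ) : ℝ) := by exact_mod_cast (by omega : 0 < n + j)
  have h1 : (n : ℝ) = ((n + j : ℕ) : ℝ) * (1 + -((j : ℝ) / ((n + j : ℕ) : ℝ))) := by
    field_simp
    push_cast
    ring
  have hq0 : 0 ≤ (j : ℝ) / ((n + j : ℕ) : ℝ) := by positivity
  have hq1 : (j : ℝ) / ((n + j : ℕ) : ℝ) ≤ 1 := by
    rw [div_le_one hx]
    exact_mod_cast (by omega : j ≤ n + j)
  have h2 : 1 + (i : ℝ) * (-((j : ℝ) / ((n + j : ℕ) : ℝ))) ≤
      (1 + -((j : ℝ) / ((n + j : ℕ) : ℝ))) ^ i := one_add_mul_le_pow (by linarith) i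
  have h3 : (i : ℝ) * ((j : ℝ) / ((n + j : ℕ) : ℝ)) ≤ δ := by
    have h4 : (j : ℝ) / ((n + j : ℕ) : ℝ) ≤ (j : ℝ) / (n : ℝ) := by
      apply div_le_div_of_nonneg_left (Nat.cast_nonneg _) hn0
      exact_mod_cast Nat.le_add_right n j
    calc (i : ℝ) * ((j : ℝ) / ((n + j : ℕ) : ℝ)) ≤ (i : ℝ) * ((j : ℝ) / (n : ℝ)) :=
          mul_le_mul_of_nonneg_left h4 (Nat.cast_nonneg _)
      _ = ((i : ℝ) * (j : ℝ)) / (n : ℝ) := by ring
      _ ≤ (d : ℝ) ^ 2 / (n : ℝ) := by
          apply div_le_div_of_nonneg_right _ hn0.le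
          rw [pow_two]
          have e1 : (i : ℝ) ≤ (d : ℝ) := by exact_mod_cast hi
          have e2 : (j : ℝ) ≤ (d : ℝ) := by exact_mod_cast hj
          exact mul_le_mul e1 e2 (Nat.cast_nonneg _) (Nat.cast_nonneg _)
      _ ≤ δ := by
          rw [div_le_iff₀ hn0]
          exact h
  calc (1 - δ) * ((n + j : ℕ) : ℝ) ^ i
      ≤ (1 + -((j : ℝ) / ((n + j : ℕ) : ℝ))) ^ i * ((n + j : ℕ) : ℝ) ^ i := by
        apply mul_le_mul_of_nonneg_right _ (by positivity)
        linarith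
    _ = (((n + j : ℕ) : ℝ) * (1 + -((j : ℝ) / ((n + j : ℕ) : ℝ)))) ^ i := by
        rw [mul_pow, mul_comm]
    _ = (n : ℝ) ^ i := by rw [← h1]

/-- The final inequality. -/
private theorem Share_real {X Y F J d' S S0 T T0 N n0 nkk P p w R δ : ℝ} (hX : 0 < X)
    (hF : 0 < F) (hJ : 0 < J) (hJd : J ≤ d') (hδ : 0 ≤ δ) (hN : 0 < N)
    (hδP : 3 * d' * δ * N < P)
    (hn0N : n0 ≤ N) (hδ1 : δ ≤ 1)
    (h1 : J * (X * S) + F * p ≤ J * (F * S0)) (hp : P ≤ p)
    (h2 : X * T ≤ F * T0) (hR : 0 ≤ R) (hw : 0 ≤ w)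
    (h3 : R * w * T0 ≤ δ * N) (h4 : S0 ≤ n0 + δ * N)
    (h5 : F * n0 ≤ Y * nkk) (hnk : 0 ≤ nkk) (h6 : (1 - δ) * Y ≤ X) :
    S + R * w * T < nkk := by
  have hJX : 0 < J * X := mul_pos hJ hX
  apply lt_of_mul_lt_mul_left _ hJX.le
  have a1 : J * X * (R * w * T) ≤ J * F * (δ * N) := by
    calc J * X * (R * w * T) = J * (R * w) * (X * T) := by ring
      _ ≤ J * (R * w) * (F * T0) :=
          mul_le_mul_of_nonneg_left h2 (mul_nonneg hJ.le (mul_nonneg hR hw))
      _ = J * F * (R * w * T0) := by ring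
      _ ≤ _ := mul_le_mul_of_nonneg_left h3 (mul_nonneg hJ.le hF.le)
  have a2 : J * X * S ≤ J * F * (n0 + δ * N) - F * P := by
    have b1 : J * (F * S0) ≤ J * F * (n0 + δ * N) := by
      calc J * (F * S0) = J * F * S0 := by ring
        _ ≤ _ := mul_le_mul_of_nonneg_left h4 (mul_nonneg hJ.le hF.le)
    have b2 : F * P ≤ F * p := mul_le_mul_of_nonneg_left hp hF.le
    nlinarith
  have a3 : J * F * (n0 - δ * N) ≤ J * X * nkk := by
    have b1 : F * (n0 - δ * N) ≤ X * nkk := by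
      calc F * (n0 - δ * N) ≤ F * ((1 - δ) * n0) := by
            apply mul_le_mul_of_nonneg_left _ hF.le
            have : δ * n0 ≤ δ * N := mul_le_mul_of_nonneg_left hn0N hδ
            linarith
        _ = (1 - δ) * (F * n0) := by ring
        _ ≤ (1 - δ) * (Y * nkk) := mul_le_mul_of_nonneg_left h5 (by linarith)
        _ = ((1 - δ) * Y) * nkk := by ring
        _ ≤ X * nkk := mul_le_mul_of_nonneg_right h6 hnk
    calc J * F * (n0 - δ * N) = J * (F * (n0 - δ * N)) := by ring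
      _ ≤ J * (X * nkk) := mul_le_mul_of_nonneg_left b1 hJ.le
      _ = _ := by ring
  have a4 : J * F * (3 * (δ * N)) < F * P := by
    have b1 : J * (3 * (δ * N)) ≤ d' * (3 * (δ * N)) :=
      mul_le_mul_of_nonneg_right hJd (by positivity)
    have b2 : J * (3 * (δ * N)) < P := by
      refine lt_of_le_of_lt b1 ?_
      calc d' * (3 * (δ * N)) = 3 * d' * δ * N := by ring
        _ < P := hδP
    calc J * F * (3 * (δ * N)) = F * (J * (3 * (δ * N))) := by ring
      _ < F * P := mul_lt_mul_of_pos_left b2 hF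
  calc J * X * (S + R * w * T) = J * X * S + J * X * (R * w * T) := by ring
    _ ≤ (J * F * (n0 + δ * N) - F * P) + J * F * (δ * N) := add_le_add a2 a1
    _ = J * F * (n0 - δ * N) + (J * F * (3 * (δ * N)) - F * P) := by ring
    _ < J * F * (n0 - δ * N) := by linarith
    _ ≤ _ := a3

theorem share (K d R : ℕ) (κ : ℝ) (hκ : 0 < κ) : ∃ ε : ℝ, 0 < ε ∧ ∃ n₀ : ℕ, ∀ a b : ℕ,
    2 ≤ a → 2 ≤ b → n₀ ≤ a + b → |(a : ℝ) - b| ≤ ε * (a + b : ℕ) → K + 2 ≤ b ∧
    ∀ (e : Fin K → ℕ) (μ : ℕ) (c : ℕ → ℕ × ℕ → ℕ), (∀ s, e s ≤ d) → 1 ≤ μ →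
    μ + (d + 1) / 2 ≤ d →
    (∀ j ≤ d, ∑ m ∈ range (d + 1), ∑ x ∈ KK d, c m x * wtw d m (WK e a b) x j ≤
      BK e d a b j + ell (a + b - 1) d) →
    (∀ x ∈ KK d, x.2 ≤ μ →
      κ * (ell (a + b - 1) (d + 1) : ℝ) ≤ (c μ x : ℝ) * (ell (a + b - 1) μ : ℝ)) →
    ∀ j ≤ d, ∀ k ∈ Bj e j, k ≠ 0 →
      ∑ m ∈ range (d + 1), ∑ x ∈ KK d, c m x * wtw d m (wk a b k) x j +
        R * ell (a + b) ((d + 1) / 2) * ∑ g ∈ top d ((d + 1) / 2) j, wk a b k g <
      nk a b d j k := by
  obtain ⟨κ₀, hκ₀def⟩ : ∃ κ₀ : ℝ, κ₀ = 1 / ((d.factorial : ℝ) ^ 2 * 16 ^ d) := ⟨_, rfl⟩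
  have hκ₀ : 0 < κ₀ := by
    rw [hκ₀def]
    positivity
  obtain ⟨δ, hδdef⟩ : ∃ δ : ℝ, δ = min 1 (κ * κ₀ / (4 * (d + 1))) := ⟨_, rfl⟩
  have hd1 : (0 : ℝ) < (d : ℝ) + 1 := by positivity
  have hδ : 0 < δ := by
    rw [hδdef]
    apply lt_min one_pos
    positivity
  have hδ1 : δ ≤ 1 := by
    rw [hδdef]
    exact min_le_left _ _
  have hδ2 : δ * (4 * (d + 1)) ≤ κ * κ₀ := by
    have : δ ≤ κ * κ₀ / (4 * (d + 1)) := by
      rw [hδdef]
      exact min_le_right _ _
    rwa [le_div_iff₀ (by positivity)] at this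
  obtain ⟨n1, h1⟩ := grow_one d ((((d + 1) ^ K + 1 : ℕ) : ℝ) / δ)
  obtain ⟨n2, h2⟩ := grow_big d (((R * (d + 1) ^ 2 : ℕ) : ℝ) / δ)
  obtain ⟨n3, h3⟩ := exists_nat_ge (8 * (d : ℝ) ^ 2 / δ)
  refine ⟨1 / 2, by norm_num, max (max n1 n2) (max n3 (8 * (K + d + 2))), ?_⟩
  intro a b ha hb hn hab
  have hn1 : n1 ≤ a + b := ((le_max_left _ _).trans (le_max_left _ _)).trans hn
  have hn2 : n2 ≤ a + b := ((le_max_right _ _).trans (le_max_left _ _)).trans hn
  have hn3 : n3 ≤ a + b := ((le_max_left _ _).trans (le_max_right _ _)).trans hn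
  have hn4 : 8 * (K + d + 2) ≤ a + b := ((le_max_right _ _).trans (le_max_right _ _)).trans hn
  have hab1 : a + b ≤ 4 * b ∧ a + b ≤ 4 * a := by
    have h := abs_le.1 hab
    have e1 := h.1
    have e2 := h.2
    push_cast at e1 e2
    constructor
    · have : ((a : ℝ) + b) ≤ 4 * b := by linarith
      exact_mod_cast this
    · have : ((a : ℝ) + b) ≤ 4 * a := by linarith
      exact_mod_cast this
  have hbK : K + 2 ≤ b := by omega
  refine ⟨hbK, ?_⟩
  intro e μ c he hμ hμd hS hc j hj k hk hk0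
  rw [mem_Bj] at hk
  have hi : 1 ≤ tk k := by
    by_contra h
    apply hk0
    have h2 : tk k = 0 := by omega
    unfold tk at h2
    rw [Finset.sum_eq_zero_iff] at h2
    funext s
    exact h2 s (mem_univ s)
  have hij : tk k ≤ j := hk.2
  have hj1 : 1 ≤ j := hi.trans hij
  have hμd' : μ ≤ d := by omega
  obtain ⟨g, hg, hgμ, hgj⟩ := Share_star hj1 hj hμ hμd'
  have hcmp := Share_cmp (a := a) hbK c k hi hj1 hj hμd' hg hgj
  -- the numbers
  have hM1 : 1 ≤ (d + 1) / 2 := by omega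
  have hM2 : (d + 1) / 2 ≤ d := by omega
  have hnn : 1 ≤ b - 1 - K := by omega
  have hN : (0 : ℝ) < (ell (a + b - 1) (d + 1) : ℝ) := by
    exact_mod_cast ell_pos (a + b - 1) (by omega : 1 ≤ d + 1)
  have hF : (0 : ℝ) < (j.descFactorial (tk k) : ℝ) := by
    have : 0 < j.descFactorial (tk k) := by
      rw [Nat.pos_iff_ne_zero, Ne, Nat.descFactorial_eq_zero_iff_lt]
      omega
    exact_mod_cast this
  have hX : (0 : ℝ) < ((b - 1 - K : ℕ) : ℝ) ^ tk k := by
    have : (0 : ℝ) < ((b - 1 - K : ℕ) : ℝ) := by exact_mod_cast hnn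
    positivity
  have ha8 : ((a + b : ℕ) : ℝ) / 8 ≤ ((a - 1 : ℕ) : ℝ) := by
    rw [div_le_iff₀ (by norm_num)]
    have : a + b ≤ (a - 1) * 8 := by omega
    exact_mod_cast this
  have hb8 : ((a + b : ℕ) : ℝ) / 8 ≤ ((b - 1 - K : ℕ) : ℝ) := by
    rw [div_le_iff₀ (by norm_num)]
    have : a + b ≤ (b - 1 - K) * 8 := by omega
    exact_mod_cast this
  have hlow := Share_low_w (K := K) (a := a) (b := b) hμd' hgμ (by omega) (by omega) hnn ha8 hb8
  rw [← hκ₀def] at hlow
  have hP : κ * κ₀ * (ell (a + b - 1) (d + 1) : ℝ) ≤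
      ((c μ (j, 0) * wk a b (0 : Fin K → ℕ) g : ℕ) : ℝ) := by
    have e1 := hc (j, 0) (mem_KK.2 (by simpa using hj)) (Nat.zero_le _)
    push_cast
    calc κ * κ₀ * (ell (a + b - 1) (d + 1) : ℝ)
        = κ₀ * (κ * (ell (a + b - 1) (d + 1) : ℝ)) := by ring
      _ ≤ κ₀ * ((c μ (j, 0) : ℝ) * (ell (a + b - 1) μ : ℝ)) :=
          mul_le_mul_of_nonneg_left e1 hκ₀.le
      _ = (c μ (j, 0) : ℝ) * (κ₀ * (ell (a + b - 1) μ : ℝ)) := by ring
      _ ≤ _ := mul_le_mul_of_nonneg_left hlow (Nat.cast_nonneg _)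
  have hS0 : ∑ m ∈ range (d + 1), ∑ x ∈ KK d, c m x * wtw d m (wk a b (0 : Fin K → ℕ)) x j ≤
      nk a b d j (0 : Fin K → ℕ) + ((d + 1) ^ K + 1) * ell (a + b - 1) d := by
    calc ∑ m ∈ range (d + 1), ∑ x ∈ KK d, c m x * wtw d m (wk a b (0 : Fin K → ℕ)) x j
        ≤ ∑ m ∈ range (d + 1), ∑ x ∈ KK d, c m x * wtw d m (WK e a b) x j := by
          refine Finset.sum_le_sum fun m _ => Finset.sum_le_sum fun x _ => ?_
          apply Nat.mul_le_mul_left
          unfold wtw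
          exact Finset.sum_le_sum fun g _ => Share_W hbK e g
      _ ≤ BK e d a b j + ell (a + b - 1) d := hS j hj
      _ ≤ (nk a b d j (0 : Fin K → ℕ) + (d + 1) ^ K * ell (a + b - 1) d) +
          ell (a + b - 1) d := Nat.add_le_add_right (Share_BK (by omega) hbK hj he) _
      _ = _ := by ring
  have hsm : ((((d + 1) ^ K + 1) * ell (a + b - 1) d : ℕ) : ℝ) ≤
      δ * (ell (a + b - 1) (d + 1) : ℝ) := by
    have e1 := h1 (a + b) hn1 d le_rfl
    have e2 : (ell (a + b - 1) d : ℝ) ≤ (ell (a + b) d : ℝ) := by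
      have hd : 1 ≤ d := by omega
      rw [Share_ell hd, Share_ell hd]
      exact_mod_cast Share_left' (by omega) _
    rw [div_mul_eq_mul_div, div_le_iff₀ hδ] at e1
    push_cast at e1 ⊢
    calc (((d : ℝ) + 1) ^ K + 1) * (ell (a + b - 1) d : ℝ)
        ≤ (((d : ℝ) + 1) ^ K + 1) * (ell (a + b) d : ℝ) :=
          mul_le_mul_of_nonneg_left e2 (by positivity)
      _ ≤ _ := by linarith
  have hww : (R : ℝ) * (ell (a + b) ((d + 1) / 2) : ℝ) *
      ((∑ g ∈ top d ((d + 1) / 2) j, wk a b (0 : Fin K → ℕ) g : ℕ) : ℝ) ≤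
      δ * (ell (a + b - 1) (d + 1) : ℝ) := by
    have e1 := h2 (a + b) hn2 ((d + 1) / 2) hM1 hM2
    rw [div_mul_eq_mul_div, div_le_iff₀ hδ] at e1
    have e2 : ((∑ g ∈ top d ((d + 1) / 2) j, wk a b (0 : Fin K → ℕ) g : ℕ) : ℝ) ≤
        (((d + 1) ^ 2 * ell (a + b) ((d + 1) / 2) : ℕ) : ℝ) := by
      exact_mod_cast Share_top ha hM1 (by omega)
    have e3 : (ell (a + b) ((d + 1) / 2) : ℝ) ≤ (ell (a + b) (d + 1 - (d + 1) / 2) : ℝ) := by
      exact_mod_cast ell_mono (a + b) (by omega : (d + 1) / 2 ≤ d + 1 - (d + 1) / 2)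
    have e4 : (0 : ℝ) ≤ (ell (a + b) ((d + 1) / 2) : ℝ) := Nat.cast_nonneg _
    calc (R : ℝ) * (ell (a + b) ((d + 1) / 2) : ℝ) *
          ((∑ g ∈ top d ((d + 1) / 2) j, wk a b (0 : Fin K → ℕ) g : ℕ) : ℝ)
        ≤ (R : ℝ) * (ell (a + b) ((d + 1) / 2) : ℝ) *
          (((d + 1) ^ 2 * ell (a + b) ((d + 1) / 2) : ℕ) : ℝ) :=
          mul_le_mul_of_nonneg_left e2 (by positivity)
      _ = ((R * (d + 1) ^ 2 : ℕ) : ℝ) *
          ((ell (a + b) ((d + 1) / 2) : ℝ) * (ell (a + b) ((d + 1) / 2) : ℝ)) := by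
          push_cast
          ring
      _ ≤ ((R * (d + 1) ^ 2 : ℕ) : ℝ) *
          ((ell (a + b) (d + 1 - (d + 1) / 2) : ℝ) * (ell (a + b) ((d + 1) / 2) : ℝ)) := by
          apply mul_le_mul_of_nonneg_left _ (Nat.cast_nonneg _)
          exact mul_le_mul_of_nonneg_right e3 e4
      _ ≤ _ := by linarith
  have hratio : (1 - δ) * ((b - 1 - K + j : ℕ) : ℝ) ^ tk k ≤ ((b - 1 - K : ℕ) : ℝ) ^ tk k := by
    apply Share_ratio (d := d) hnn (hij.trans hj) hj
    have e1 : 8 * (d : ℝ) ^ 2 / δ ≤ ((a + b : ℕ) : ℝ) := h3.trans (by exact_mod_cast hn3)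
    rw [div_le_iff₀ hδ] at e1
    nlinarith
  have htop : ((b - 1 - K : ℕ) : ℝ) ^ tk k *
      ((∑ g ∈ top d ((d + 1) / 2) j, wk a b k g : ℕ) : ℝ) ≤
      (j.descFactorial (tk k) : ℝ) *
        ((∑ g ∈ top d ((d + 1) / 2) j, wk a b (0 : Fin K → ℕ) g : ℕ) : ℝ) := by
    have e1 : (b - 1 - K) ^ tk k * ∑ g ∈ top d ((d + 1) / 2) j, wk a b k g ≤
        j.descFactorial (tk k) *
          ∑ g ∈ top d ((d + 1) / 2) j, wk a b (0 : Fin K → ℕ) g := by
      rw [Finset.mul_sum, Finset.mul_sum]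
      apply Finset.sum_le_sum
      intro g hg
      refine (Share_wk hbK k g).trans ?_
      apply Nat.mul_le_mul_right
      apply Nat.descFactorial_le
      unfold top at hg
      rw [mem_filter] at hg
      exact hg.2.1
    exact_mod_cast e1
  have hfin := Share_real (X := ((b - 1 - K : ℕ) : ℝ) ^ tk k)
    (Y := ((b - 1 - K + j : ℕ) : ℝ) ^ tk k) (F := (j.descFactorial (tk k) : ℝ)) (J := (j : ℝ))
    (d' := (d : ℝ) + 1)
    (S := ((∑ m ∈ range (d + 1), ∑ x ∈ KK d, c m x * wtw d m (wk a b k) x j : ℕ) : ℝ))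
    (S0 := ((∑ m ∈ range (d + 1), ∑ x ∈ KK d,
      c m x * wtw d m (wk a b (0 : Fin K → ℕ)) x j : ℕ) : ℝ))
    (T := ((∑ g ∈ top d ((d + 1) / 2) j, wk a b k g : ℕ) : ℝ))
    (T0 := ((∑ g ∈ top d ((d + 1) / 2) j, wk a b (0 : Fin K → ℕ) g : ℕ) : ℝ))
    (N := (ell (a + b - 1) (d + 1) : ℝ)) (n0 := (nk a b d j (0 : Fin K → ℕ) : ℝ))
    (nkk := (nk a b d j k : ℝ)) (P := κ * κ₀ * (ell (a + b - 1) (d + 1) : ℝ))
    (p := ((c μ (j, 0) * wk a b (0 : Fin K → ℕ) g : ℕ) : ℝ))
    (w := (ell (a + b) ((d + 1) / 2) : ℝ)) (R := (R : ℝ)) (δ := δ)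
    hX hF (by exact_mod_cast hj1)
    (by
      have : (j : ℝ) ≤ (d : ℝ) := by exact_mod_cast hj
      linarith) hδ.le hN
    (by
      have e1 : 3 * ((d : ℝ) + 1) * δ < κ * κ₀ := by
        have : 3 * ((d : ℝ) + 1) * δ < δ * (4 * (d + 1)) := by nlinarith [mul_pos hδ hd1]
        linarith
      exact mul_lt_mul_of_pos_right e1 hN)
    (by exact_mod_cast Share_nk_zero (by omega) hj) hδ1
    (by exact_mod_cast hcmp) hP htop (Nat.cast_nonneg _) (Nat.cast_nonneg _) hww
    (by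
      have e1 : ((∑ m ∈ range (d + 1), ∑ x ∈ KK d,
          c m x * wtw d m (wk a b (0 : Fin K → ℕ)) x j : ℕ) : ℝ) ≤
          (nk a b d j (0 : Fin K → ℕ) : ℝ) + ((((d + 1) ^ K + 1) * ell (a + b - 1) d : ℕ) : ℝ) := by
        exact_mod_cast hS0
      linarith)
    (by exact_mod_cast Share_nk hbK k hij) (Nat.cast_nonneg _) hratio
  exact_mod_cast hfin

end Pool.Agent.LK
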