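import Pool.Agent.LK.Defs
import Pool.Agent.H21.TC.Mcr
import Pool.Agent.H51.TB.Asy

/-!
# LK8: the weights of the problem

The sums over the pieces `k ≤ e` are computed by induction on `K` (`Wts_succ`).  The weights lie between those of the
piece `0` and `Eg`, and the difference is of lower order.
-/

set_option autoImplicit false

namespace Pool.Agent.LK

open Finset MvPolynomial Pool.Agent.H18.Ex Pool.Agent.H21.NX Pool.Agent.H18.Ta Pool.Agent.H51.TB
  Pool.Agent.H21.TC Pool.Agent.V7.ST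

/-! ### Sums over boxes -/

private theorem Wts_box {K : ℕ} (e : Fin (K + 1) → ℕ) (f : (Fin (K + 1) → ℕ) → ℕ) :
    ∑ k ∈ Box e, f k = ∑ i ∈ range (e 0 + 1), ∑ k ∈ Box (Fin.tail e), f (Fin.cons i k) := by
  rw [← Finset.sum_product']
  refine Finset.sum_nbij' (fun k => (k 0, Fin.tail k)) (fun x => Fin.cons x.1 x.2) ?_ ?_ ?_ ?_ ?_
  · intro k hk
    rw [mem_Box] at hk
    rw [mem_product, mem_range, mem_Box]
    exact ⟨Nat.lt_succ_of_le (hk 0), fun s => hk s.succ⟩
  · intro x hx
    rw [mem_product, mem_range, mem_Box] at hx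
    rw [mem_Box]
    intro s
    refine Fin.cases ?_ (fun s => ?_) s
    · rw [Fin.cons_zero]
      exact Nat.le_of_lt_succ hx.1
    · rw [Fin.cons_succ]
      exact hx.2 s
  · intro k _
    exact Fin.cons_self_tail k
  · intro x _
    simp
  · intro k _
    rw [Fin.cons_self_tail k]

private theorem Wts_tk {K : ℕ} (i : ℕ) (k : Fin K → ℕ) :
    tk (Fin.cons i k : Fin (K + 1) → ℕ) = i + tk k := by
  unfold tk
  rw [Fin.sum_univ_succ, Fin.cons_zero]
  simp only [Fin.cons_succ]

/-- the sum of `f (v - |k|)` over the pieces `k ≤ e` -/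
private def WtsS {K : ℕ} (e : Fin K → ℕ) (f : ℕ → ℕ) (v : ℕ) : ℕ :=
  ∑ k ∈ Box e, if tk k ≤ v then f (v - tk k) else 0

private theorem Wts_succ {K : ℕ} (e : Fin (K + 1) → ℕ) (f : ℕ → ℕ) (v : ℕ) :
    WtsS e f v = ∑ i ∈ range (e 0 + 1), if i ≤ v then WtsS (Fin.tail e) f (v - i) else 0 := by
  unfold WtsS
  rw [Wts_box]
  refine Finset.sum_congr rfl fun i _ => ?_
  by_cases hi : i ≤ v
  · rw [if_pos hi]
    refine Finset.sum_congr rfl fun k _ => ?_
    rw [Wts_tk]
    by_cases hk : tk k ≤ v - i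
    · rw [if_pos hk, if_pos (by omega), Nat.sub_sub]
    · rw [if_neg hk, if_neg (by omega)]
  · rw [if_neg hi]
    refine Finset.sum_eq_zero fun k _ => ?_
    rw [Wts_tk, if_neg (by omega)]

private theorem Wts_nil (e : Fin 0 → ℕ) (f : ℕ → ℕ) (v : ℕ) : WtsS e f v = f v := by
  unfold WtsS
  have h1 : Box e = {0} := by
    ext k
    rw [mem_Box, mem_singleton]
    exact ⟨fun _ => Subsingleton.elim _ _, fun _ s => s.elim0⟩
  rw [h1, Finset.sum_singleton, tk_zero, if_pos (Nat.zero_le _), Nat.sub_zero]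

private theorem Wts_ge {K : ℕ} (e : Fin K → ℕ) (f : ℕ → ℕ) (v : ℕ) : f v ≤ WtsS e f v := by
  unfold WtsS
  have h1 : (0 : Fin K → ℕ) ∈ Box e := mem_Box.2 fun s => Nat.zero_le _
  have h2 := Finset.single_le_sum (f := fun k : Fin K → ℕ => if tk k ≤ v then f (v - tk k) else 0)
    (fun _ _ => Nat.zero_le _) h1
  simpa [tk_zero] using h2

private theorem Wts_sum1 (v : ℕ) : ∀ m : ℕ, ∑ k ∈ range (m + 1), Nat.multichoose v (m - k) =
    Nat.multichoose (v + 1) m := by
  intro m
  have h1 := Finset.sum_range_reflect (fun i => Nat.multichoose v i) (m + 1)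
  have h2 : ∀ m : ℕ, ∑ k ∈ range (m + 1), Nat.multichoose v k = Nat.multichoose (v + 1) m := by
    intro m
    induction m with
    | zero => rw [Finset.sum_range_one, Nat.multichoose_zero_right, Nat.multichoose_zero_right]
    | succ m ih =>
      rw [Finset.sum_range_succ, ih, Nat.multichoose_succ_succ, Nat.add_comm]
  rw [← h2, ← h1]
  refine Finset.sum_congr rfl fun i _ => ?_
  rw [Nat.add_sub_cancel]

private theorem Wts_le (n : ℕ) : ∀ {K : ℕ} (e : Fin K → ℕ) (v : ℕ),
    WtsS e (Nat.multichoose n) v ≤ Nat.multichoose (n + K) v := by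
  intro K
  induction K with
  | zero => exact fun e v => (Wts_nil e _ v).le
  | succ K ih =>
    intro e v
    rw [Wts_succ, ← Finset.sum_filter]
    calc ∑ i ∈ (range (e 0 + 1)).filter (fun i => i ≤ v),
          WtsS (Fin.tail e) (Nat.multichoose n) (v - i)
        ≤ ∑ i ∈ (range (e 0 + 1)).filter (fun i => i ≤ v), Nat.multichoose (n + K) (v - i) :=
          Finset.sum_le_sum fun i _ => ih _ _
      _ ≤ ∑ i ∈ range (v + 1), Nat.multichoose (n + K) (v - i) := by
          refine Finset.sum_le_sum_of_subset fun i hi => ?_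
          rw [mem_filter] at hi
          rw [mem_range]
          omega
      _ = Nat.multichoose (n + (K + 1)) v := by rw [Wts_sum1, Nat.add_assoc]

private theorem Wts_at0 (f : ℕ → ℕ) : ∀ {K : ℕ} (e : Fin K → ℕ), WtsS e f 0 = f 0 := by
  intro K
  induction K with
  | zero => exact fun e => Wts_nil e f 0
  | succ K ih =>
    intro e
    rw [Wts_succ, Finset.sum_range_succ', Finset.sum_eq_zero, if_pos (Nat.zero_le _), Nat.sub_zero,
      ih, Nat.zero_add]
    intro i _
    rw [if_neg (by omega)]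

private theorem Wts_at1 (f : ℕ → ℕ) : ∀ {K : ℕ} (e : Fin K → ℕ), (∀ s, 1 ≤ e s) →
    WtsS e f 1 = f 1 + K * f 0 := by
  intro K
  induction K with
  | zero =>
    intro e _
    rw [Wts_nil, Nat.zero_mul, Nat.add_zero]
  | succ K ih =>
    intro e he
    obtain ⟨m, hm⟩ : ∃ m, e 0 = m + 1 := ⟨e 0 - 1, by have := he 0; omega⟩
    rw [Wts_succ, hm, Finset.sum_range_succ', Finset.sum_range_succ', Finset.sum_eq_zero]
    · rw [if_pos (by omega), if_pos (by omega), Nat.sub_zero, Nat.zero_add, Nat.zero_add,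
        Nat.sub_self, Wts_at0, ih (Fin.tail e) fun s => he s.succ]
      ring
    · intro i _
      rw [if_neg (by omega)]

/-! ### The weights in terms of the sums -/

private theorem Wts_WD {K : ℕ} (a b : ℕ) (e : Fin K → ℕ) (g : ℕ × ℕ) : WD a b (Box e) g =
    Nat.multichoose (a - 1) g.1 * WtsS e (Nat.multichoose (b - 1 - K)) g.2 := by
  unfold WD WtsS
  rw [Finset.mul_sum]
  refine Finset.sum_congr rfl fun k _ => ?_
  unfold wk
  by_cases hk : tk k ≤ g.2
  · rw [if_pos hk, if_pos hk]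
  · rw [if_neg hk, if_neg hk, Nat.mul_zero]

private theorem Wts_ND {K : ℕ} (a b d j : ℕ) (e : Fin K → ℕ) : ND a b d j (Box e) =
    Nat.multichoose a (d - j) * WtsS e (Nat.multichoose (b - K)) j := by
  unfold ND WtsS
  rw [Finset.mul_sum]
  refine Finset.sum_congr rfl fun k _ => ?_
  unfold nk
  by_cases hk : tk k ≤ j
  · rw [if_pos hk, if_pos hk]
  · rw [if_neg hk, if_neg hk, Nat.mul_zero]

private theorem Wts_w0 {K : ℕ} (a b : ℕ) (g : ℕ × ℕ) : wk a b (0 : Fin K → ℕ) g =
    Nat.multichoose (a - 1) g.1 * Nat.multichoose (b - 1 - K) g.2 := by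
  unfold wk
  rw [tk_zero, if_pos (Nat.zero_le _), Nat.sub_zero]

theorem isWt_WK {K a b : ℕ} (ha : 2 ≤ a) (hb : 2 ≤ b) {e : Fin K → ℕ} (he : ∀ s, 1 ≤ e s) :
    IsWt a b (WK e a b) := by
  by_cases hKb : K + 2 ≤ b
  · have hW : ∀ g, WK e a b g =
        Nat.multichoose (a - 1) g.1 * WtsS e (Nat.multichoose (b - 1 - K)) g.2 := by
      intro g
      unfold WK
      rw [if_pos hKb, Wts_WD]
    refine ⟨fun g => ?_, fun t => ?_, ?_⟩
    · rw [hW]
      unfold Eg
      refine Nat.mul_le_mul_left _ ((Wts_le (b - 1 - K) e g.2).trans (le_of_eq ?_))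
      rw [show b - 1 - K + K = b - 1 by omega]
    · rw [hW, Wts_at0, Nat.multichoose_zero_right, Nat.mul_one]
    · rw [hW, Wts_at1 _ e he, Nat.multichoose_zero_right, Nat.multichoose_zero_right,
        Nat.multichoose_one_right]
      omega
  · have hW : ∀ g, WK e a b g = Eg a b g := by
      intro g
      unfold WK
      rw [if_neg hKb]
    refine ⟨fun g => (hW g).le, fun t => ?_, ?_⟩
    · rw [hW]
      unfold Eg
      rw [Nat.multichoose_zero_right, Nat.mul_one]
    · rw [hW]
      unfold Eg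
      rw [Nat.multichoose_zero_right, Nat.multichoose_one_right, Nat.one_mul]

/-! ### Asymptotics -/

private theorem Wts_mcl (n k : ℕ) : Nat.multichoose n k ≤ Nat.multichoose (n + 1) k := by
  rcases k with _ | k
  · simp
  · rw [Nat.multichoose_succ_succ]
    exact Nat.le_add_right _ _

private theorem Wts_mcr (n k : ℕ) :
    Nat.multichoose (n + 1) k ≤ Nat.multichoose (n + 1) (k + 1) := by
  rw [Nat.multichoose_succ_succ]
  exact Nat.le_add_left _ _

private theorem Wts_mono {v w n s t k : ℕ} (hn : v + w ≤ n + 1) (hk : s + t ≤ k) :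
    Nat.multichoose v s * Nat.multichoose w t ≤ Nat.multichoose (n + 1) k := by
  have h1 : Nat.multichoose v s * Nat.multichoose w t ≤ Nat.multichoose (v + w) (s + t) := by
    rw [← sum_multichoose]
    exact Finset.single_le_sum (f := fun g : ℕ × ℕ => Nat.multichoose v g.1 * Nat.multichoose w g.2)
      (fun _ _ => Nat.zero_le _) (mem_antidiagonal.2 rfl : (s, t) ∈ antidiagonal (s + t))
  have h2 : Monotone fun m => Nat.multichoose m (s + t) :=
    monotone_nat_of_le_succ fun m => Wts_mcl m _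
  have h3 : Monotone fun j => Nat.multichoose (n + 1) j :=
    monotone_nat_of_le_succ fun j => Wts_mcr n j
  exact h1.trans ((h2 hn).trans (h3 hk))

private theorem Wts_ell (n k : ℕ) : ell n (k + 1) = Nat.multichoose (n + 1) k := by
  rw [Nat.multichoose_eq]
  unfold ell
  rw [show k + 1 + n - 1 = n + k by omega, show n + 1 + k - 1 = n + k by omega,
    Nat.choose_symm_add]

private theorem Wts_ratio {n c : ℕ} (hc : 1 ≤ c) : ell n c * (c + n) = ell n (c + 1) * c := by
  unfold ell
  have := Nat.choose_mul_succ_eq (c + n - 1) n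
  rw [show c + n - 1 + 1 = c + n by omega, show c + n - n = c by omega] at this
  rw [this, show c + 1 + n - 1 = c + n by omega]

/-- the terms of smaller degree are small -/
private theorem Wts_small (k : ℕ) (δ : ℝ) (hδ : 0 < δ) : ∃ n₁ : ℕ, ∀ n : ℕ, n₁ ≤ n →
    ∀ v w s t : ℕ, v + w ≤ n + 1 → s + t < k →
      ((Nat.multichoose v s * Nat.multichoose w t : ℕ) : ℝ) ≤ δ * (ell n (k + 1) : ℝ) := by
  obtain ⟨n₁, hn₁⟩ := exists_nat_ge ((k : ℝ) / δ)
  refine ⟨n₁, fun n hn v w s t hv hs => ?_⟩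
  have hk : 1 ≤ k := by omega
  have h1 := Wts_mono (n := n) (k := k - 1) hv (show s + t ≤ k - 1 by omega)
  rw [← Wts_ell, show k - 1 + 1 = k by omega] at h1
  have h2 := Wts_ratio (n := n) hk
  have h3 : ((Nat.multichoose v s * Nat.multichoose w t : ℕ) : ℝ) ≤ (ell n k : ℝ) := by
    exact_mod_cast h1
  have h4 : (ell n k : ℝ) * ((k : ℝ) + n) = (ell n (k + 1) : ℝ) * k := by exact_mod_cast h2
  have h5 : (0 : ℝ) < k := by exact_mod_cast hk
  have h6 : (k : ℝ) ≤ δ * ((k : ℝ) + n) := by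
    rw [div_le_iff₀ hδ] at hn₁
    have h7 : (n₁ : ℝ) ≤ n := by exact_mod_cast hn
    have h8 : (n₁ : ℝ) * δ ≤ n * δ := mul_le_mul_of_nonneg_right h7 hδ.le
    nlinarith
  have h7 : (0 : ℝ) < (k : ℝ) + n := by positivity
  have h8 : (0 : ℝ) ≤ (ell n (k + 1) : ℝ) := Nat.cast_nonneg _
  refine h3.trans (le_of_mul_le_mul_right ?_ h7)
  rw [h4]
  calc (ell n (k + 1) : ℝ) * k ≤ (ell n (k + 1) : ℝ) * (δ * ((k : ℝ) + n)) :=
        mul_le_mul_of_nonneg_left h6 h8
    _ = δ * (ell n (k + 1) : ℝ) * ((k : ℝ) + n) := by ring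

/-- adding `K` variables changes `multichoose` by lower order terms -/
private theorem Wts_add (n v : ℕ) : ∀ K : ℕ, Nat.multichoose (n + K) v ≤
    Nat.multichoose n v + if 1 ≤ v then K * Nat.multichoose (n + K) (v - 1) else 0 := by
  intro K
  induction K with
  | zero => simp
  | succ K ih =>
    rcases v with _ | v
    · simp
    · rw [if_pos (by omega), Nat.add_sub_cancel] at ih ⊢
      rw [← Nat.add_assoc, Nat.multichoose_succ_succ]
      have h1 : K * Nat.multichoose (n + K) v ≤ K * Nat.multichoose (n + K + 1) v :=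
        Nat.mul_le_mul_left _ (Wts_mcl _ _)
      have h2 : (K + 1) * Nat.multichoose (n + K + 1) v =
          K * Nat.multichoose (n + K + 1) v + Nat.multichoose (n + K + 1) v := by ring
      omega

/-- The comparison: `x` between the products `A * multichoose n q` and `A * multichoose (n + K) q`. -/
private theorem Wts_cmp (K k : ℕ) (δ : ℝ) (hδ : 0 < δ) : ∃ n₁ : ℕ, ∀ N : ℕ, n₁ ≤ N →
    ∀ v n p q x : ℕ, v + (n + K) ≤ N + 1 → p + q = k →
      Nat.multichoose v p * Nat.multichoose n q ≤ x →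
      x ≤ Nat.multichoose v p * Nat.multichoose (n + K) q →
      |((Nat.multichoose v p * Nat.multichoose (n + K) q : ℕ) : ℝ) - (x : ℝ)| ≤
        δ * (ell N (k + 1) : ℝ) := by
  obtain ⟨n₁, h⟩ := Wts_small k (δ / (K + 1)) (by positivity)
  refine ⟨n₁, fun N hN v n p q x hv hk h1 h2 => ?_⟩
  have h1' : ((Nat.multichoose v p * Nat.multichoose n q : ℕ) : ℝ) ≤ (x : ℝ) := by exact_mod_cast h1
  have h2' : (x : ℝ) ≤ ((Nat.multichoose v p * Nat.multichoose (n + K) q : ℕ) : ℝ) := by
    exact_mod_cast h2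
  have hE : (0 : ℝ) ≤ (ell N (k + 1) : ℝ) := Nat.cast_nonneg _
  rw [abs_of_nonneg (by linarith)]
  have h3 := Wts_add n q K
  rcases Nat.eq_zero_or_pos q with hq | hq
  · rw [if_neg (by omega), Nat.add_zero] at h3
    have h4 : ((Nat.multichoose v p * Nat.multichoose (n + K) q : ℕ) : ℝ) ≤
        ((Nat.multichoose v p * Nat.multichoose n q : ℕ) : ℝ) := by
      exact_mod_cast Nat.mul_le_mul_left _ h3
    have h5 : 0 ≤ δ * (ell N (k + 1) : ℝ) := by positivity
    linarith
  · have hq1 : 1 ≤ q := hq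
    rw [if_pos hq1] at h3
    have h4 := h N hN v (n + K) p (q - 1) hv (by omega)
    have h5 : ((Nat.multichoose v p * Nat.multichoose (n + K) q : ℕ) : ℝ) ≤
        ((Nat.multichoose v p * Nat.multichoose n q : ℕ) : ℝ) +
          K * ((Nat.multichoose v p * Nat.multichoose (n + K) (q - 1) : ℕ) : ℝ) := by
      have h6 := Nat.mul_le_mul_left (Nat.multichoose v p) h3
      have h7 : Nat.multichoose v p * (Nat.multichoose n q + K * Nat.multichoose (n + K) (q - 1)) =
          Nat.multichoose v p * Nat.multichoose n q +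
            K * (Nat.multichoose v p * Nat.multichoose (n + K) (q - 1)) := by ring
      rw [h7] at h6
      exact_mod_cast h6
    have h8 : (K : ℝ) * ((Nat.multichoose v p * Nat.multichoose (n + K) (q - 1) : ℕ) : ℝ) ≤
        K * (δ / (K + 1) * (ell N (k + 1) : ℝ)) := mul_le_mul_of_nonneg_left h4 (Nat.cast_nonneg _)
    have h9 : (K : ℝ) * (δ / (K + 1) * (ell N (k + 1) : ℝ)) ≤ δ * (ell N (k + 1) : ℝ) := by
      have h10 : (K : ℝ) * (δ / (K + 1)) ≤ δ := by
        rw [← mul_div_assoc, div_le_iff₀ (by positivity)]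
        nlinarith [(Nat.cast_nonneg K : (0 : ℝ) ≤ K)]
      calc (K : ℝ) * (δ / (K + 1) * (ell N (k + 1) : ℝ))
          = (K * (δ / (K + 1))) * (ell N (k + 1) : ℝ) := by ring
        _ ≤ δ * (ell N (k + 1) : ℝ) := mul_le_mul_of_nonneg_right h10 hE
    linarith

private theorem Wts_asy (K : ℕ) (W : ℕ → ℕ → ℕ × ℕ → ℕ)
    (h1 : ∀ a b g, K + 2 ≤ b → Nat.multichoose (a - 1) g.1 * Nat.multichoose (b - 1 - K) g.2 ≤
      W a b g)
    (h2 : ∀ a b g, K + 2 ≤ b → W a b g ≤ Nat.multichoose (a - 1) g.1 * Nat.multichoose (b - 1) g.2)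
    (h3 : ∀ a b g, ¬ K + 2 ≤ b → W a b g = Eg a b g) : AsyW W := by
  intro p q δ hδ
  obtain ⟨ε, hε, n₀, h⟩ := asy p q (δ / 2) (by linarith)
  obtain ⟨n₁, hc⟩ := Wts_cmp K (p + q) (δ / 2) (by linarith)
  refine ⟨ε, hε, max n₀ (n₁ + 1), fun a b ha hb hn hab => ?_⟩
  have hn0 : n₀ ≤ a + b := (le_max_left _ _).trans hn
  have hn1 : n₁ + 1 ≤ a + b := (le_max_right _ _).trans hn
  have h4 := h a b (by omega) (by omega) hn0 hab
  have hE : (0 : ℝ) ≤ (ell (a + b - 1) (p + q + 1) : ℝ) := Nat.cast_nonneg _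
  by_cases hKb : K + 2 ≤ b
  · have h5 := hc (a + b - 1) (by omega) (a - 1) (b - 1 - K) p q (W a b (p, q)) (by omega) rfl
      (h1 a b (p, q) hKb) (by
        rw [show b - 1 - K + K = b - 1 by omega]
        exact h2 a b (p, q) hKb)
    rw [show b - 1 - K + K = b - 1 by omega] at h5
    rw [abs_le] at h4 h5 ⊢
    constructor <;> linarith [h4.1, h4.2, h5.1, h5.2]
  · rw [h3 a b (p, q) hKb]
    refine h4.trans (mul_le_mul_of_nonneg_right (by linarith) hE)

theorem asy_WK {K : ℕ} (e : Fin K → ℕ) : AsyW fun a b => WK e a b := by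
  refine Wts_asy K _ (fun a b g hb => ?_) (fun a b g hb => ?_) (fun a b g hb => ?_)
  · show _ ≤ WK e a b g
    unfold WK
    rw [if_pos hb, Wts_WD]
    exact Nat.mul_le_mul_left _ (Wts_ge _ _ _)
  · show WK e a b g ≤ _
    unfold WK
    rw [if_pos hb, Wts_WD]
    refine Nat.mul_le_mul_left _ ((Wts_le (b - 1 - K) e g.2).trans (le_of_eq ?_))
    rw [show b - 1 - K + K = b - 1 by omega]
  · show WK e a b g = _
    unfold WK
    rw [if_neg hb]

theorem asy_W0 (K : ℕ) : AsyW fun a b => W0 K a b := by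
  refine Wts_asy K _ (fun a b g hb => ?_) (fun a b g hb => ?_) (fun a b g hb => ?_)
  · show _ ≤ W0 K a b g
    unfold W0
    rw [if_pos hb, Wts_w0]
  · show W0 K a b g ≤ _
    unfold W0
    rw [if_pos hb, Wts_w0]
    refine Nat.mul_le_mul_left _ ?_
    have h2 : Monotone fun m => Nat.multichoose m g.2 :=
      monotone_nat_of_le_succ fun m => Wts_mcl m _
    exact h2 (Nat.sub_le _ _)
  · show W0 K a b g = _
    unfold W0
    rw [if_neg hb]

theorem asy_BK {K : ℕ} (e : Fin K → ℕ) (d : ℕ) : AsyB d fun a b => BK e d a b := by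
  intro q hqd δ hδ
  obtain ⟨ε, hε, n₀, h⟩ := asy' (d - q) q (δ / 2) (by linarith)
  obtain ⟨n₁, hc⟩ := Wts_cmp K d (δ / 2) (by linarith)
  refine ⟨ε, hε, max n₀ (n₁ + 1), fun a b ha hb hn hab => ?_⟩
  have hn0 : n₀ ≤ a + b := (le_max_left _ _).trans hn
  have hn1 : n₁ + 1 ≤ a + b := (le_max_right _ _).trans hn
  have h4 := h a b (by omega) (by omega) hn0 hab
  rw [Nat.sub_add_cancel hqd] at h4
  have hE : (0 : ℝ) ≤ (ell (a + b - 1) (d + 1) : ℝ) := Nat.cast_nonneg _
  show |(BK e d a b q : ℝ) - _| ≤ _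
  by_cases hKb : K + 2 ≤ b
  · have hB : BK e d a b q = Nat.multichoose a (d - q) * WtsS e (Nat.multichoose (b - K)) q := by
      unfold BK
      rw [if_pos hKb, Wts_ND]
    have h5 := hc (a + b - 1) (by omega) a (b - K) (d - q) q (BK e d a b q) (by omega) (by omega)
      (by
        rw [hB]
        exact Nat.mul_le_mul_left _ (Wts_ge _ _ _)) (by
        rw [hB]
        exact Nat.mul_le_mul_left _ (Wts_le _ _ _))
    rw [show b - K + K = b by omega] at h5
    rw [abs_le] at h4 h5 ⊢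
    constructor <;> linarith [h4.1, h4.2, h5.1, h5.2]
  · have hB : BK e d a b q = Nat.multichoose a (d - q) * Nat.multichoose b q := by
      unfold BK
      rw [if_neg hKb]
      rfl
    rw [hB]
    refine h4.trans (mul_le_mul_of_nonneg_right (by linarith) hE)

/-! ### Totals -/

private theorem Wts_lamw_Eg {a b m : ℕ} (ha : 1 ≤ a) (hb : 1 ≤ b) :
    lamw m (Eg a b) = ell (a + b - 1) m := by
  have h1 := sum_wtw (d := m) (m := m) (by omega) (c := (0, 0)) (Nat.zero_le m) (Eg a b)
  have h2 := sum_wt (d := m) (m := m) ha hb (by omega) (c := (0, 0)) (Nat.zero_le m)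
  rw [← h1, ← h2]
  rfl

private theorem Wts_prod (m : ℕ) (w : ℕ × ℕ → ℕ) : lamw m w =
    ∑ g1 ∈ range m, ∑ h ∈ range m, (m - (g1 + h)) * w (g1, h) := by
  unfold lamw
  rw [Finset.sum_product]

private theorem Wts_lamw_wk {K a b m : ℕ} (hb : K + 2 ≤ b) (k : Fin K → ℕ) :
    lamw m (wk a b k) = lamw (m - tk k) (Eg a (b - K)) := by
  rw [Wts_prod, Wts_prod]
  rcases Nat.lt_or_ge (tk k) m with ht | ht
  · obtain ⟨M, rfl⟩ : ∃ M, m = tk k + M := ⟨m - tk k, by omega⟩
    rw [Nat.add_sub_cancel_left]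
    have h1 : ∀ g1, ∑ h ∈ range (tk k + M), (tk k + M - (g1 + h)) * wk a b k (g1, h) =
        ∑ h ∈ range M, (M - (g1 + h)) * Eg a (b - K) (g1, h) := by
      intro g1
      rw [Finset.sum_range_add, Finset.sum_eq_zero, Nat.zero_add]
      · refine Finset.sum_congr rfl fun h _ => ?_
        unfold wk Eg
        simp only
        rw [if_pos (by omega), Nat.add_sub_cancel_left, show tk k + M - (g1 + (tk k + h)) =
          M - (g1 + h) by omega, show b - 1 - K = b - K - 1 by omega]
      · intro h hh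
        rw [mem_range] at hh
        unfold wk
        simp only
        rw [if_neg (by omega), Nat.mul_zero]
    simp only [h1]
    symm
    refine Finset.sum_subset (range_subset_range.2 (by omega)) fun g1 _ hg => ?_
    rw [mem_range, Nat.not_lt] at hg
    refine Finset.sum_eq_zero fun h _ => ?_
    rw [show M - (g1 + h) = 0 by omega, Nat.zero_mul]
  · rw [show m - tk k = 0 by omega, Finset.sum_range_zero]
    refine Finset.sum_eq_zero fun g1 _ => Finset.sum_eq_zero fun h hh => ?_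
    rw [mem_range] at hh
    unfold wk
    simp only
    rw [if_neg (by omega), Nat.mul_zero]

theorem lamw_WK {K a b m : ℕ} (ha : 1 ≤ a) (hb : K + 2 ≤ b) (e : Fin K → ℕ) :
    lamw m (WK e a b) = cnk (a + b - 1) K e m := by
  have h1 : lamw m (WK e a b) = ∑ k ∈ Box e, lamw m (wk a b k) := by
    unfold lamw
    rw [Finset.sum_comm]
    refine Finset.sum_congr rfl fun g _ => ?_
    unfold WK
    rw [if_pos hb]
    unfold WD
    rw [Finset.mul_sum]
  rw [h1]
  unfold cnk
  refine Finset.sum_congr rfl fun k _ => ?_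
  rw [Wts_lamw_wk hb, Wts_lamw_Eg ha (by omega), show a + (b - K) - 1 = a + b - 1 - K by omega]

theorem sum_BK {K a b d : ℕ} (ha : 1 ≤ a) (hb : K + 2 ≤ b) (e : Fin K → ℕ) :
    ∑ j ∈ range (d + 1), BK e d a b j = cnk (a + b - 1) K e (d + 1) := by
  have h1 : ∑ j ∈ range (d + 1), BK e d a b j =
      ∑ k ∈ Box e, ∑ j ∈ range (d + 1), nk a b d j k := by
    rw [Finset.sum_comm]
    refine Finset.sum_congr rfl fun j _ => ?_
    unfold BK
    rw [if_pos hb]
    rfl
  rw [h1]
  unfold cnk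
  refine Finset.sum_congr rfl fun k _ => ?_
  rcases Nat.lt_or_ge d (tk k) with ht | ht
  · rw [show d + 1 - tk k = 0 by omega, ell_zero (by omega)]
    refine Finset.sum_eq_zero fun j hj => ?_
    rw [mem_range] at hj
    unfold nk
    rw [if_neg (by omega)]
  · obtain ⟨D, rfl⟩ : ∃ D, d = tk k + D := ⟨d - tk k, by omega⟩
    rw [show tk k + D + 1 - tk k = D + 1 by omega, show tk k + D + 1 = tk k + (D + 1) by omega,
      Finset.sum_range_add, Finset.sum_eq_zero, Nat.zero_add,
      show a + b - 1 - K = a + (b - K) - 1 by omega, ← sum_bet ha (by omega) D]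
    · refine Finset.sum_congr rfl fun j _ => ?_
      unfold nk bet
      rw [if_pos (by omega), Nat.add_sub_cancel_left, show tk k + D - (tk k + j) = D - j by omega]
    · intro j hj
      rw [mem_range] at hj
      unfold nk
      rw [if_neg (by omega)]

end Pool.Agent.LK
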