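import Pool.Agent.LK.Num
import Pool.Agent.LK.Mass
import Pool.Agent.LK.Wts
import Pool.Agent.LK.Share
import Pool.Agent.LK.Cnt
import Pool.Agent.H51.TB.Sub
import Pool.Agent.H51.TB.Ridx

/-!
# LK13: the core theorem, all `e s ≥ 1`
-/

set_option autoImplicit false

namespace Pool.Agent.LK

open Finset MvPolynomial Pool.Agent.H18.Ex Pool.Agent.H21.NX Pool.Agent.H18.Ta Pool.Agent.H51.TB
  Pool.Agent.H21.TC Pool.Agent.V7.ST

private theorem Core_ell_up (r c : ℕ) (hr : 1 ≤ r) : ell (r - 1) (c + 1) ≤ ell r (c + 1) := by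
  obtain ⟨k, rfl⟩ : ∃ k, r = k + 1 := ⟨r - 1, by omega⟩
  rw [Nat.add_sub_cancel, ell_succ k c]
  exact Nat.le_add_left _ _

private theorem Core_sum_replicate (d : ℕ) (T : Multiset ℕ) (hT : ∀ m ∈ T, m ≤ d) :
    ∑ m ∈ range (d + 1), Multiset.replicate (T.count m) m = T := by
  ext x
  rw [Multiset.count_sum']
  simp only [Multiset.count_replicate]
  by_cases hx : x ∈ T
  · have h1 : x ∈ range (d + 1) := mem_range.2 (Nat.lt_succ_of_le (hT x hx))
    rw [Finset.sum_ite_eq' (range (d + 1)) x (fun m => T.count m), if_pos h1]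
  · rw [Multiset.count_eq_zero_of_notMem hx]
    apply Finset.sum_eq_zero
    intro m _
    split_ifs with h
    · rw [h]
      exact Multiset.count_eq_zero_of_notMem hx
    · rfl

private theorem Core_sum_tot (w : ℕ → ℕ) (d : ℕ) (T : Multiset ℕ) (hT : ∀ m ∈ T, m ≤ d) :
    ∑ m ∈ range (d + 1), T.count m * w m = (T.map w).sum := by
  rw [Finset.sum_multiset_map_count]
  symm
  have h1 : T.toFinset ⊆ range (d + 1) := by
    intro x hx
    exact mem_range.2 (Nat.lt_succ_of_le (hT x (Multiset.mem_toFinset.1 hx)))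
  refine (Finset.sum_subset h1 ?_).trans ?_
  · intro x _ hx
    rw [Multiset.mem_toFinset] at hx
    rw [Multiset.count_eq_zero_of_notMem hx, zero_smul]
  · exact Finset.sum_congr rfl fun m _ => smul_eq_mul _ _

/-- The conditions of a point are not more than without `J`. -/
theorem cnk_le {a b K : ℕ} (ha : 2 ≤ a) (hb : K + 2 ≤ b) (e : Fin K → ℕ) (he : ∀ s, 1 ≤ e s)
    (v : ℕ) : cnk (a + b - 1) K e v ≤ ell (a + b - 1) v := by
  rw [← lamw_WK (by omega) hb]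
  exact lamw_le (by omega) (by omega) (isWt_WK ha (by omega) he).le

/-- One dimension less. -/
theorem ell_pred (n d : ℕ) (hn : 1 ≤ n) : ell n (d + 1) * n = (d + n) * ell (n - 1) (d + 1) := by
  obtain ⟨k, rfl⟩ : ∃ k, n = k + 1 := ⟨n - 1, by omega⟩
  unfold ell
  have h1 : d + 1 + (k + 1) - 1 = (d + k) + 1 := by omega
  have h2 : d + 1 + (k + 1 - 1) - 1 = d + k := by omega
  rw [h1, h2, Nat.add_sub_cancel]
  have h3 := Nat.add_one_mul_choose_eq (d + k) k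
  rw [← h3, show d + (k + 1) = d + k + 1 by omega]

/-- Boundedly many dimensions less. -/
theorem ell_ratio (d K : ℕ) : ∀ δ : ℝ, 0 < δ → ∃ r₀ : ℕ, ∀ r : ℕ, r₀ ≤ r → K + 1 ≤ r ∧
    (ell r (d + 1) : ℝ) ≤ (1 + δ) * (ell (r - K) (d + 1) : ℝ) := by
  induction K with
  | zero =>
    intro δ hδ
    refine ⟨1, fun r hr => ⟨by omega, ?_⟩⟩
    have : (0 : ℝ) ≤ (ell r (d + 1) : ℝ) := Nat.cast_nonneg _
    rw [Nat.sub_zero]
    nlinarith
  | succ K ih =>
    intro δ hδ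
    obtain ⟨r₁, h₁⟩ := ih (min (δ / 3) 1) (lt_min (by linarith) one_pos)
    obtain ⟨N, hN⟩ := exists_nat_ge ((d : ℝ) / min (δ / 3) 1)
    set e := min (δ / 3) 1 with he
    have he0 : 0 < e := lt_min (by linarith) one_pos
    have he1 : e ≤ 1 := min_le_right _ _
    have he2 : e ≤ δ / 3 := min_le_left _ _
    refine ⟨r₁ + N + K + 2, fun r hr => ⟨by omega, ?_⟩⟩
    have h2 := (h₁ r (by omega)).2
    have h3 := ell_pred (r - K) d (by omega)
    have h4 : r - K - 1 = r - (K + 1) := by omega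
    rw [h4] at h3
    have h5 : (ell (r - K) (d + 1) : ℝ) * ((r - K : ℕ) : ℝ) =
        ((d : ℝ) + ((r - K : ℕ) : ℝ)) * (ell (r - (K + 1)) (d + 1) : ℝ) := by
      exact_mod_cast h3
    have h6 : (N : ℝ) ≤ ((r - K : ℕ) : ℝ) := by exact_mod_cast (by omega : N ≤ r - K)
    have h7 : (0 : ℝ) < ((r - K : ℕ) : ℝ) := by exact_mod_cast (by omega : 0 < r - K)
    have h8 : (d : ℝ) ≤ e * ((r - K : ℕ) : ℝ) := by
      have h9 : (d : ℝ) / e ≤ ((r - K : ℕ) : ℝ) := hN.trans h6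
      rwa [div_le_iff₀ he0, mul_comm] at h9
    have h10 : (0 : ℝ) ≤ (ell (r - (K + 1)) (d + 1) : ℝ) := Nat.cast_nonneg _
    have h11 : (ell (r - K) (d + 1) : ℝ) ≤ (1 + e) * (ell (r - (K + 1)) (d + 1) : ℝ) := by
      have h12 : (ell (r - K) (d + 1) : ℝ) * ((r - K : ℕ) : ℝ) ≤
          ((1 + e) * (ell (r - (K + 1)) (d + 1) : ℝ)) * ((r - K : ℕ) : ℝ) := by
        rw [h5]
        have h13 : (d : ℝ) + ((r - K : ℕ) : ℝ) ≤ (1 + e) * ((r - K : ℕ) : ℝ) := by linarith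
        calc ((d : ℝ) + ((r - K : ℕ) : ℝ)) * (ell (r - (K + 1)) (d + 1) : ℝ)
            ≤ ((1 + e) * ((r - K : ℕ) : ℝ)) * (ell (r - (K + 1)) (d + 1) : ℝ) :=
              mul_le_mul_of_nonneg_right h13 h10
          _ = ((1 + e) * (ell (r - (K + 1)) (d + 1) : ℝ)) * ((r - K : ℕ) : ℝ) := by ring
      exact le_of_mul_le_mul_right h12 h7
    calc (ell r (d + 1) : ℝ) ≤ (1 + e) * (ell (r - K) (d + 1) : ℝ) := h2
      _ ≤ (1 + e) * ((1 + e) * (ell (r - (K + 1)) (d + 1) : ℝ)) :=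
          mul_le_mul_of_nonneg_left h11 (by linarith)
      _ = ((1 + e) * (1 + e)) * (ell (r - (K + 1)) (d + 1) : ℝ) := by ring
      _ ≤ (1 + δ) * (ell (r - (K + 1)) (d + 1) : ℝ) := by
          apply mul_le_mul_of_nonneg_right _ h10
          nlinarith

theorem ell_sub_le_cnk (r K d : ℕ) (e : Fin K → ℕ) : ell (r - K) (d + 1) ≤ cnk r K e (d + 1) := by
  have h3 := single_le_sum (f := fun k : Fin K → ℕ => ell (r - K) (d + 1 - tk k))
    (s := Box e) (fun _ _ => Nat.zero_le _)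
    (mem_Box.2 fun s => Nat.zero_le _ : (0 : Fin K → ℕ) ∈ Box e)
  rw [tk_zero, Nat.sub_zero] at h3
  exact h3

/-- The number of pieces. -/
theorem card_Box_le {K d : ℕ} (e : Fin K → ℕ) (he : ∀ s, e s ≤ d) :
    (Box e).card ≤ (d + 1) ^ K := by
  unfold Box
  rw [Fintype.card_piFinset]
  calc ∏ s, (range (e s + 1)).card ≤ ∏ _s : Fin K, (d + 1) := by
        refine Finset.prod_le_prod' fun s _ => ?_
        rw [card_range]
        have := he s
        omega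
    _ = (d + 1) ^ K := by
        rw [prod_const, card_univ, Fintype.card_fin]

/-- The weights for `K + 2 ≤ b`. -/
private theorem Core_WK {K a b : ℕ} (hb : K + 2 ≤ b) (e : Fin K → ℕ) :
    WK e a b = WD a b (Box e) := by
  funext g
  unfold WK
  rw [if_pos hb]

private theorem Core_W0 {K a b : ℕ} (hb : K + 2 ≤ b) :
    W0 K a b = wk a b (0 : Fin K → ℕ) := by
  funext g
  unfold W0
  rw [if_pos hb]

private theorem Core_BK {K a b d j : ℕ} (hb : K + 2 ≤ b) (e : Fin K → ℕ) :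
    BK e d a b j = ND a b d j (Box e) := by
  unfold BK
  rw [if_pos hb]

/-- The core theorem for one `e`. -/
private theorem Core_one (K d : ℕ) (η : ℝ) (hη : 0 < η) (e : Fin K → ℕ)
    (he : ∀ s, 1 ≤ e s ∧ e s ≤ d) : ∃ r₀ : ℕ, ∀ r : ℕ, r₀ ≤ r →
    ∀ (μ : ℕ) (S : Multiset ℕ), 1 ≤ μ →
    μ + (d + 1) / 2 ≤ d → (∀ m ∈ S, 1 ≤ m ∧ m ≤ (d + 1) / 2) →
    cnk r K e (d + 1) ≤ (S.map (cnk r K e)).sum →
    η * (ell r (d + 1) : ℝ) ≤ ((S.count μ * ell r μ : ℕ) : ℝ) →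
    GM (Sx (Fin (r + 1)) d) (((univ : Finset (Fin K)).val.map (fun s => d - e s) + S).map
      Kind.free) := by
  obtain ⟨M, hM⟩ : ∃ M, M = (d + 1) / 2 := ⟨_, rfl⟩
  obtain ⟨R, hR⟩ : ∃ R, R = (d + 1) ^ K := ⟨_, rfl⟩
  obtain ⟨κ, hκ, hnum⟩ := numC d (min η (1 / 8)) (lt_min hη (by norm_num)) (fun a b => WK e a b)
    (fun a b ha hb => isWt_WK ha hb fun s => (he s).1) (asy_WK e) (fun a b => BK e d a b) (asy_BK e d)
  obtain ⟨ε₁, hε₁, n₁, hmass⟩ := massC d (2 * R) κ hκ (fun a b => W0 K a b) (asy_W0 K)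
  obtain ⟨ε₂, hε₂, n₂, hsh⟩ := share K d R κ hκ
  obtain ⟨n₃, hnum⟩ := hnum (min ε₁ ε₂) (lt_min hε₁ hε₂)
  obtain ⟨n₄, hone⟩ := ell_ratio d K 1 one_pos
  refine ⟨n₁ + n₂ + n₃ + n₄ + d + 2, fun r hr μ S hμ hμd hS hN hη' => ?_⟩
  obtain ⟨a, b, ha, hb, hab, hclose, hnum⟩ := hnum (r + 1) (by omega)
  have habr : a + b - 1 = r := by omega
  have hcl1 : |(a : ℝ) - b| ≤ ε₁ * (a + b : ℕ) :=
    hclose.trans (mul_le_mul_of_nonneg_right (min_le_left _ _) (Nat.cast_nonneg _))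
  have hcl2 : |(a : ℝ) - b| ≤ ε₂ * (a + b : ℕ) :=
    hclose.trans (mul_le_mul_of_nonneg_right (min_le_right _ _) (Nat.cast_nonneg _))
  obtain ⟨hbK, hsh⟩ := hsh a b ha hb (by omega) hcl2
  have hM1 : μ ≤ M := by omega
  have hμM : μ + M ≤ d := by omega
  have he1 : ∀ s, 1 ≤ e s := fun s => (he s).1
  have hcnk : ∀ v, cnk r K e v ≤ ell r v := fun v => by
    have := cnk_le ha hbK e he1 v
    rwa [habr] at this
  -- the part `T` of `S`
  have hNlow : ell r (d + 1) ≤ 2 * cnk r K e (d + 1) := by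
    have h1 := (hone r (by omega)).2
    have h2 := ell_sub_le_cnk r K d e
    have h3 : (ell r (d + 1) : ℝ) ≤ 2 * (ell (r - K) (d + 1) : ℝ) := by
      refine h1.trans (le_of_eq ?_)
      norm_num
    have h4 : ell r (d + 1) ≤ 2 * ell (r - K) (d + 1) := by exact_mod_cast h3
    omega
  obtain ⟨T, hTS, hT1, hT2, hT3⟩ := choose_part (cnk r K e) (ell r d) (cnk r K e (d + 1)) 0 μ S
    (fun m hm => (hcnk m).trans (ell_mono r (by have := hS m hm; omega))) (by omega)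
    (by rw [Nat.zero_add]; exact hN)
  rw [Nat.zero_add] at hT1 hT2
  have hTm : ∀ m ∈ T, 1 ≤ m ∧ m ≤ M := fun m hm => by
    have := hS m (Multiset.mem_of_le hTS hm)
    omega
  have hTd : ∀ m ∈ T, m ≤ d := fun m hm => by have := hTm m hm; omega
  have hlw : ∀ m, lamw m (WK e a b) = cnk r K e m := fun m => by
    rw [lamw_WK (by omega) hbK, habr]
  have hB : ∑ i ∈ range (d + 1), BK e d a b i = cnk r K e (d + 1) := by
    rw [sum_BK (by omega) hbK, habr]
  have hsum' : ∑ m ∈ range (d + 1), T.count m * lamw m (WK e a b) =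
      (T.map (cnk r K e)).sum := by
    rw [← Core_sum_tot (cnk r K e) d T hTd]
    exact Finset.sum_congr rfl fun m _ => by rw [hlw]
  have hdom : min η (1 / 8) * (ell r (d + 1) : ℝ) ≤ ((T.count μ * ell r μ : ℕ) : ℝ) := by
    have h0 : (0 : ℝ) ≤ (ell r (d + 1) : ℝ) := Nat.cast_nonneg _
    rcases hT3 with h | h
    · rw [h]
      exact (mul_le_mul_of_nonneg_right (min_le_left _ _) h0).trans hη'
    · have h5 : ell r (d + 1) ≤ 8 * (T.count μ * ell r μ) := by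
        have h7 : T.count μ * cnk r K e μ ≤ T.count μ * ell r μ :=
          Nat.mul_le_mul_left _ (hcnk μ)
        omega
      have h5' : (ell r (d + 1) : ℝ) ≤ 8 * ((T.count μ * ell r μ : ℕ) : ℝ) := by exact_mod_cast h5
      have h6 := mul_le_mul_of_nonneg_right (min_le_right η (1 / 8)) h0
      linarith
  have hA : ∀ m, T.count m ≠ 0 → 1 ≤ m ∧ m ≤ M ∧ m + M ≤ d + 1 := fun m hm => by
    have := hTm m (Multiset.count_ne_zero.1 hm)
    omega
  obtain ⟨c, hc, k1, k2, k3⟩ := hnum M μ (fun m => T.count m) hμ hM1 hμM hA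
    (by rw [hsum', hB]; exact hT1) (by rw [hsum', hB, habr]; exact hT2)
    (by rw [habr]; exact hdom)
  -- the masses
  obtain ⟨m1, m2⟩ := hmass a b ha hb (by omega) hcl1 M μ hμ hM1 hμM (c μ) k3
  have hμr : μ ∈ range (d + 1) := mem_range.2 (by omega)
  have hsh' := hsh e μ c (fun s => (he s).2) hμ (by omega) k2 k3
  rw [← hM] at hsh'
  have hell : ell (a + b) M ≤ ell (a + b) (d + 1 - M) := ell_mono _ (by omega)
  have hGM := GM_of_counts_K (e := e) ha hbK (M := M) (μ := μ) (by omega) hμ hM1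
    (fun s => (he s).2) R (hR ▸ card_Box_le e fun s => (he s).2) (fun m => T.count m)
    (fun m hm => ⟨(hA m hm).1, (hA m hm).2.1⟩) c hc ?_ ?_ ?_ ?_
  · rw [Core_sum_replicate d T hTd] at hGM
    have hGM2 := GM_equiv (finSumFinEquiv.trans (finCongr hab)) d _ hGM
    exact GM.mono (Multiset.map_le_map (add_le_add_right hTS _)) hGM2
  · intro j hj
    have h5 := k1 j hj
    rw [Core_BK hbK, Core_WK hbK] at h5
    exact h5
  · intro j hj t ht1 ht2
    have h5 := m1 j hj t ht1 ht2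
    rw [Core_W0 hbK] at h5
    have h6 : R * (ell (a + b) (t + 1) * ell (a + b) M) ≤
        2 * R * (ell (a + b) (t + 1) * ell (a + b) M) := Nat.mul_le_mul_right _ (by omega)
    refine (h6.trans h5).trans ?_
    exact single_le_sum (f := fun m => ∑ x ∈ KK d, if cls d m x j = t then
      c m x * wtw d m (wk a b (0 : Fin K → ℕ)) x j else 0) (fun _ _ => Nat.zero_le _) hμr
  · intro j hj
    have h5 := m2 j hj
    rw [Core_W0 hbK] at h5
    have h6 : R * (2 * (ell (a + b) M * ell (a + b) M)) ≤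
        2 * R * (ell (a + b) (d + 1 - M) * ell (a + b) M) := by
      calc R * (2 * (ell (a + b) M * ell (a + b) M)) =
          2 * R * (ell (a + b) M * ell (a + b) M) := by ring
        _ ≤ _ := Nat.mul_le_mul_left _ (Nat.mul_le_mul_right _ hell)
    refine (h6.trans h5).trans ?_
    exact single_le_sum (f := fun m => ∑ x ∈ KK d, if cls d m x j = μ then
      c m x * wtw d m (wk a b (0 : Fin K → ℕ)) x j else 0) (fun _ _ => Nat.zero_le _) hμr
  · exact hsh'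

theorem core_K (K d : ℕ) (η : ℝ) (hη : 0 < η) : ∃ r₀ : ℕ, ∀ r : ℕ, r₀ ≤ r →
    ∀ (e : Fin K → ℕ) (μ : ℕ) (S : Multiset ℕ), (∀ s, 1 ≤ e s ∧ e s ≤ d) → 1 ≤ μ →
    μ + (d + 1) / 2 ≤ d → (∀ m ∈ S, 1 ≤ m ∧ m ≤ (d + 1) / 2) →
    cnk r K e (d + 1) ≤ (S.map (cnk r K e)).sum →
    η * (ell r (d + 1) : ℝ) ≤ ((S.count μ * ell r μ : ℕ) : ℝ) →
    GM (Sx (Fin (r + 1)) d) (((univ : Finset (Fin K)).val.map (fun s => d - e s) + S).map
      Kind.free) := by
  classical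
  have h : ∀ e : Fin K → ℕ, ∃ r₀ : ℕ, (∀ s, 1 ≤ e s ∧ e s ≤ d) → ∀ r : ℕ, r₀ ≤ r →
      ∀ (μ : ℕ) (S : Multiset ℕ), 1 ≤ μ →
      μ + (d + 1) / 2 ≤ d → (∀ m ∈ S, 1 ≤ m ∧ m ≤ (d + 1) / 2) →
      cnk r K e (d + 1) ≤ (S.map (cnk r K e)).sum →
      η * (ell r (d + 1) : ℝ) ≤ ((S.count μ * ell r μ : ℕ) : ℝ) →
      GM (Sx (Fin (r + 1)) d) (((univ : Finset (Fin K)).val.map (fun s => d - e s) + S).map
        Kind.free) := by
    intro e
    by_cases he : ∀ s, 1 ≤ e s ∧ e s ≤ d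
    · obtain ⟨r₀, h⟩ := Core_one K d η hη e he
      exact ⟨r₀, fun _ => h⟩
    · exact ⟨0, fun h => absurd h he⟩
  choose f hf using h
  refine ⟨(Box fun _ : Fin K => d).sup f, fun r hr e μ S he => ?_⟩
  refine hf e he r ((Finset.le_sup (mem_Box.2 fun s => (he s).2)).trans hr) μ S

end Pool.Agent.LK
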