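import Pool.Agent.V8.Bridge
import Pool.Agent.LK.Core
import Pool.Agent.H21.TC.All

/-!
# LK14: the non-critical half
-/

set_option autoImplicit false

namespace Pool.Agent.LK

open Finset MvPolynomial Pool.Agent.H18.Ex Pool.Agent.H21.NX Pool.Agent.H18.Ta Pool.Agent.H51.TB
  Pool.Agent.H21.TC Pool.Agent.V7.ST Pool.Agent.V8

/-- A point with `e s = 0` is removed. -/
private theorem Kill_cnk {r K : ℕ} (e : Fin (K + 1) → ℕ) (s₀ : Fin (K + 1)) (h0 : e s₀ = 0)
    (v : ℕ) : cnk (r + 1) (K + 1) e v = cnk r K (fun s => e (s₀.succAbove s)) v := by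
  unfold cnk
  rw [Nat.add_sub_add_right]
  refine sum_nbij' (fun k s => k (s₀.succAbove s)) (fun k => s₀.insertNth 0 k) ?_ ?_ ?_ ?_ ?_
  · intro k hk
    rw [mem_Box] at hk ⊢
    exact fun s => hk _
  · intro k hk
    rw [mem_Box] at hk ⊢
    intro s
    refine Fin.succAboveCases s₀ ?_ (fun i => ?_) s
    · rw [Fin.insertNth_apply_same]
      exact Nat.zero_le _
    · rw [Fin.insertNth_apply_succAbove]
      exact hk i
  · intro k hk
    rw [mem_Box] at hk
    funext s
    refine Fin.succAboveCases s₀ ?_ (fun i => ?_) s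
    · have := hk s₀
      show s₀.insertNth (α := fun _ => ℕ) 0 (fun s => k (s₀.succAbove s)) s₀ = k s₀
      rw [Fin.insertNth_apply_same]
      omega
    · show s₀.insertNth (α := fun _ => ℕ) 0 (fun s => k (s₀.succAbove s)) (s₀.succAbove i) =
        k (s₀.succAbove i)
      rw [Fin.insertNth_apply_succAbove]
  · intro k _
    funext s
    show s₀.insertNth (α := fun _ => ℕ) 0 k (s₀.succAbove s) = k s
    rw [Fin.insertNth_apply_succAbove]
  · intro k hk
    rw [mem_Box] at hk
    have h1 : tk k = tk fun s => k (s₀.succAbove s) := by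
      unfold tk
      rw [Fin.sum_univ_succAbove k s₀]
      have h2 := hk s₀
      have h3 : k s₀ = 0 := by omega
      rw [h3, Nat.zero_add]
    rw [h1]

private theorem Kill_univ {K : ℕ} (f : Fin (K + 1) → ℕ) (s₀ : Fin (K + 1)) :
    (univ : Finset (Fin (K + 1))).val.map f =
      f s₀ ::ₘ (univ : Finset (Fin K)).val.map fun s => f (s₀.succAbove s) := by
  rw [Fin.univ_succAbove K s₀, cons_val, Multiset.map_cons, map_val, Multiset.map_map]
  rfl

/-- `(c + s) * ell s c = (s + 1) * ell (s + 1) c` -/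
private theorem Kill_mul (s c : ℕ) (hs : 1 ≤ s) : (c + s) * ell s c = (s + 1) * ell (s + 1) c := by
  rcases Nat.eq_zero_or_pos c with h | h
  · subst h
    rw [ell_zero hs, ell_zero (by omega), mul_zero, mul_zero]
  unfold ell
  have := Nat.add_one_mul_choose_eq (c + s - 1) s
  rw [show c + s - 1 + 1 = c + s by omega] at this
  rw [show c + (s + 1) - 1 = c + s by omega, this, mul_comm]

/-- The core theorem for arbitrary `e`. -/
theorem core_Z (d K : ℕ) : ∀ η : ℝ, 0 < η → ∃ r₀ : ℕ, ∀ r : ℕ, r₀ ≤ r →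
    ∀ (e : Fin K → ℕ) (μ : ℕ) (S : Multiset ℕ), (∀ s, e s ≤ d) → 1 ≤ μ →
    μ + (d + 1) / 2 ≤ d → (∀ m ∈ S, 1 ≤ m ∧ m ≤ (d + 1) / 2) →
    cnk r K e (d + 1) ≤ (S.map (cnk r K e)).sum →
    η * (ell r (d + 1) : ℝ) ≤ ((S.count μ * ell r μ : ℕ) : ℝ) →
    GM (Sx (Fin (r + 1)) d) (((univ : Finset (Fin K)).val.map (fun s => d - e s) + S).map
      Kind.free) := by
  induction K with
  | zero =>
    intro η hη
    obtain ⟨r₀, h⟩ := core_K 0 d η hη
    exact ⟨r₀, fun r hr e μ S _ => h r hr e μ S fun s => s.elim0⟩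
  | succ K ih =>
    intro η hη
    obtain ⟨r₁, h₁⟩ := core_K (K + 1) d η hη
    obtain ⟨r₂, h₂⟩ := ih (η / 2) (by linarith)
    refine ⟨r₁ + r₂ + d + 2, fun r hr e μ S he hμ hμd hS hN hη' => ?_⟩
    by_cases h : ∀ s, 1 ≤ e s
    · exact h₁ r (by omega) e μ S (fun s => ⟨h s, he s⟩) hμ hμd hS hN hη'
    · push Not at h
      obtain ⟨s₀, hs₀⟩ := h
      have hs0 : e s₀ = 0 := by omega
      obtain ⟨s, rfl⟩ : ∃ s, r = s + 1 := ⟨r - 1, by omega⟩
      have h3 : (univ : Finset (Fin (K + 1))).val.map (fun s => d - e s) =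
          d ::ₘ (univ : Finset (Fin K)).val.map fun s => d - e (s₀.succAbove s) := by
        rw [Kill_univ (fun s => d - e s) s₀, hs0, Nat.sub_zero]
      rw [h3, Multiset.cons_add, Multiset.map_cons]
      refine GM_cons (Fin.last (s + 1)) d d _ (GM_face _ ?_)
      refine h₂ s (by omega) (fun s => e (s₀.succAbove s)) μ S (fun _ => he _) hμ hμd hS ?_ ?_
      · rw [Kill_cnk e s₀ hs0, Multiset.map_congr rfl fun m _ => Kill_cnk e s₀ hs0 m] at hN
        exact hN
      · have e1 := Kill_mul s μ (by omega)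
        have e2 : ell (s + 1) μ ≤ 2 * ell s μ := by
          have e3 : (s + 1) * ell (s + 1) μ ≤ (s + 1) * (2 * ell s μ) := by
            rw [← e1]
            calc (μ + s) * ell s μ ≤ (2 * (s + 1)) * ell s μ := Nat.mul_le_mul_right _ (by omega)
              _ = (s + 1) * (2 * ell s μ) := by ring
          exact Nat.le_of_mul_le_mul_left e3 (Nat.succ_pos s)
        have e4 : ell s (d + 1) ≤ ell (s + 1) (d + 1) := by
          rw [ell_succ]
          exact Nat.le_add_left _ _
        have e5 : ((S.count μ * ell (s + 1) μ : ℕ) : ℝ) ≤ 2 * ((S.count μ * ell s μ : ℕ) : ℝ) := by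
          have e6 : S.count μ * ell (s + 1) μ ≤ 2 * (S.count μ * ell s μ) := by
            calc S.count μ * ell (s + 1) μ ≤ S.count μ * (2 * ell s μ) := Nat.mul_le_mul_left _ e2
              _ = 2 * (S.count μ * ell s μ) := by ring
          exact_mod_cast e6
        have e7 : η * (ell s (d + 1) : ℝ) ≤ η * (ell (s + 1) (d + 1) : ℝ) := by
          have e8 : (ell s (d + 1) : ℝ) ≤ (ell (s + 1) (d + 1) : ℝ) := by exact_mod_cast e4
          exact mul_le_mul_of_nonneg_left e8 hη.le
        linarith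

private theorem Kill_sum_tot (r d : ℕ) (T : Multiset ℕ) (hT : ∀ m ∈ T, m ≤ d) :
    ∑ m ∈ range (d + 1), T.count m * ell r m = (T.map (ell r)).sum := by
  rw [Finset.sum_multiset_map_count]
  symm
  have h1 : T.toFinset ⊆ range (d + 1) := by
    intro x hx
    exact mem_range.2 (Nat.lt_succ_of_le (hT x (Multiset.mem_toFinset.1 hx)))
  refine (Finset.sum_subset h1 ?_).trans ?_
  · intro x _ hx
    rw [Multiset.mem_toFinset] at hx
    rw [Multiset.count_eq_zero_of_notMem hx, zero_smul]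
  · exact Finset.sum_congr rfl fun m _ => smul_eq_mul _ _

private theorem Kill_pigeon (r d : ℕ) (B : Multiset ℕ) (hB : ∀ m ∈ B, m ≤ d) (c : ℝ)
    (hc : c ≤ (((B.map (ell r)).sum : ℕ) : ℝ)) :
    ∃ μ, c ≤ ((d : ℝ) + 1) * ((B.count μ * ell r μ : ℕ) : ℝ) := by
  by_contra hcon
  push Not at hcon
  have h1 := Kill_sum_tot r d B hB
  have h2 : ∑ m ∈ range (d + 1), ((d : ℝ) + 1) * ((B.count m * ell r m : ℕ) : ℝ) <
      ∑ _m ∈ range (d + 1), c :=
    Finset.sum_lt_sum_of_nonempty ⟨0, by simp⟩ fun m _ => hcon m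
  rw [← Finset.mul_sum, ← Nat.cast_sum, h1, Finset.sum_const, card_range, nsmul_eq_mul] at h2
  push_cast at h2
  have h3 : (0 : ℝ) < (d : ℝ) + 1 := by positivity
  have h4 := lt_of_mul_lt_mul_left h2 h3.le
  push_cast at hc
  linarith

/-- The first variable of `J`. -/
private theorem Kill_first {r K : ℕ} (e : Fin (K + 1) → ℕ) (v : ℕ) :
    cnk (r + 1) (K + 1) e v = ∑ i ∈ range (e 0 + 1), cnk r K (fun s => e s.succ) (v - i) := by
  unfold cnk
  rw [Nat.add_sub_add_right, ← sum_product']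
  refine sum_nbij' (fun k => (k 0, fun s => k s.succ)) (fun x => Fin.cons x.1 x.2) ?_ ?_ ?_ ?_ ?_
  · intro k hk
    rw [mem_Box] at hk
    rw [mem_product, mem_range, mem_Box]
    exact ⟨Nat.lt_succ_of_le (hk 0), fun s => hk _⟩
  · intro x hx
    rw [mem_product, mem_range, mem_Box] at hx
    rw [mem_Box]
    intro s
    refine Fin.cases ?_ (fun i => ?_) s
    · rw [Fin.cons_zero]
      omega
    · rw [Fin.cons_succ]
      exact hx.2 i
  · intro k _
    funext s
    refine Fin.cases ?_ (fun i => ?_) s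
    · rfl
    · rfl
  · intro x _
    rfl
  · intro k _
    have h1 : tk k = k 0 + tk fun s => k s.succ := by
      unfold tk
      rw [Fin.sum_univ_succ]
    rw [h1, Nat.sub_add_eq]

private theorem Kill_tele (n v c : ℕ) (hn : 1 ≤ n) :
    ∑ i ∈ range c, ell n (v - i) + ell (n + 1) (v - c) ≤ ell (n + 1) v := by
  induction c with
  | zero => simp
  | succ c ih =>
    rw [sum_range_succ]
    have h1 : ell n (v - c) + ell (n + 1) (v - (c + 1)) ≤ ell (n + 1) (v - c) := by
      rcases Nat.eq_zero_or_pos (v - c) with h | h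
      · have h2 : v - (c + 1) = 0 := by omega
        rw [h2, h, ell_zero hn, ell_zero (by omega)]
      · obtain ⟨w, hw⟩ : ∃ w, v - c = w + 1 := ⟨v - c - 1, by omega⟩
        have h2 : v - (c + 1) = w := by omega
        rw [h2, hw, ell_succ, Nat.add_comm]
    omega

/-- The conditions of a point are not more than without `J`. -/
theorem cnk_le_ell {r K : ℕ} (hK : K + 1 ≤ r) (e : Fin K → ℕ) (v : ℕ) :
    cnk r K e v ≤ ell r v := by
  induction K generalizing r v with
  | zero =>
    unfold cnk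
    have h1 : Box e = {0} := by
      ext k
      rw [mem_Box, mem_singleton]
      exact ⟨fun _ => funext fun s => s.elim0, fun _ s => s.elim0⟩
    rw [h1, sum_singleton, tk_zero]
    exact le_rfl
  | succ K ih =>
    obtain ⟨n, rfl⟩ : ∃ n, r = n + 1 := ⟨r - 1, by omega⟩
    rw [Kill_first]
    calc ∑ i ∈ range (e 0 + 1), cnk n K (fun s => e s.succ) (v - i)
        ≤ ∑ i ∈ range (e 0 + 1), ell n (v - i) := sum_le_sum fun i _ => ih (by omega) _ _
      _ ≤ ell (n + 1) v := (Nat.le_add_right _ _).trans (Kill_tele n v (e 0 + 1) (by omega))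

/-- The numbers of helper57. -/
theorem NJ_eq {d K : ℕ} {J : Fin K → ℕ} (hJ : ∀ i, J i ≤ d) {r : ℕ} (hr : K + 1 ≤ r) (v : ℕ) :
    NJ d J (r + 1) v = cnk r K (fun s => d - J s) (v + 1) := by
  unfold NJ cnk
  have h1 : BxJ d J = Box fun s => d - J s := by
    ext b
    rw [mem_BxJ hJ, mem_Box]
    refine forall_congr' fun i => ?_
    have := hJ i
    omega
  rw [h1, sum_filter]
  refine sum_congr rfl fun k _ => ?_
  have h2 : ∑ i, k i = tk k := rfl
  rw [h2]
  split_ifs with h
  · rw [Nat.multichoose_eq]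
    unfold ell
    rw [← Nat.choose_symm (show r - K ≤ v + 1 - tk k + (r - K) - 1 by omega)]
    congr 1
    · omega
    · omega
  · have h3 : v + 1 - tk k = 0 := by omega
    rw [h3, ell_zero (by omega)]

/-- The non-critical half. -/
theorem noncrit (d K : ℕ) (J : Fin K → ℕ) (hJ : ∀ i, J i ≤ d) (η : ℝ) (hη : 0 < η) :
    ∃ r₀ : ℕ, ∀ r : ℕ, r₀ ≤ r → ∀ S : Multiset ℕ, (∀ m ∈ S, 1 ≤ m ∧ 2 * m ≤ d + 1) →
    (∀ M, 2 * M = d + 1 →
      ((S.count M * ell r M : ℕ) : ℝ) ≤ (1 - η) * (ell r (d + 1) : ℝ)) →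
    NJ d J (r + 1) d ≤ (S.map fun m => NJ d J (r + 1) (m - 1)).sum →
    GM (Sx (Fin (r + 1)) d) (((univ : Finset (Fin K)).val.map J).map Kind.free +
      S.map Kind.free) := by
  classical
  obtain ⟨δ, hδ⟩ : ∃ δ, δ = min η 1 := ⟨_, rfl⟩
  have hδ0 : 0 < δ := by
    rw [hδ]
    exact lt_min hη one_pos
  have hδ1 : δ ≤ 1 := hδ ▸ min_le_right _ _
  have hδη : δ ≤ η := hδ ▸ min_le_left _ _
  obtain ⟨r₁, h₁⟩ := core_Z d K (δ / (2 * (d + 1))) (by positivity)
  obtain ⟨r₂, h₂⟩ := ell_ratio d K (δ / 2) (by linarith)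
  refine ⟨r₁ + r₂, fun r hr S hS hcrit hN => ?_⟩
  obtain ⟨hKr, hratio⟩ := h₂ r (by omega)
  rw [← Multiset.map_add]
  have hJe : (univ : Finset (Fin K)).val.map J =
      (univ : Finset (Fin K)).val.map (fun s => d - (d - J s)) :=
    Multiset.map_congr rfl fun s _ => by
      have := hJ s
      omega
  rw [hJe]
  set e : Fin K → ℕ := fun s => d - J s with he
  have hN' : cnk r K e (d + 1) ≤ (S.map (cnk r K e)).sum := by
    rw [NJ_eq hJ hKr] at hN
    have h3 : (S.map fun m => NJ d J (r + 1) (m - 1)) = S.map (cnk r K e) :=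
      Multiset.map_congr rfl fun m hm => by
        have := (hS m hm).1
        rw [NJ_eq hJ hKr]
        congr 1
        omega
    rw [h3] at hN
    exact hN
  obtain ⟨M, hM⟩ : ∃ M, M = (d + 1) / 2 := ⟨_, rfl⟩
  -- the points which are not critical
  set B := S.filter fun m => m + M ≤ d with hB
  have hBS : B ≤ S := Multiset.filter_le _ _
  have hsplit : (S.map (cnk r K e)).sum ≤ (B.map (ell r)).sum +
      if 2 * M = d + 1 then S.count M * ell r M else 0 := by
    have h3 : S = B + S.filter (fun m => ¬ m + M ≤ d) := (Multiset.filter_add_not _ S).symm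
    have h4 : S.filter (fun m => ¬ m + M ≤ d) = if 2 * M = d + 1 then
        Multiset.replicate (S.count M) M else 0 := by
      split_ifs with h5
      · rw [← Multiset.filter_eq']
        refine Multiset.filter_congr fun m hm => ?_
        have := hS m hm
        omega
      · rw [Multiset.filter_eq_nil]
        intro m hm
        have := hS m hm
        omega
    have h5 : (B.map (cnk r K e)).sum ≤ (B.map (ell r)).sum :=
      Multiset.sum_map_le_sum_map _ _ fun m _ => cnk_le_ell hKr e m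
    have h6 : (S.map (cnk r K e)).sum = (B.map (cnk r K e)).sum +
        ((S.filter fun m => ¬ m + M ≤ d).map (cnk r K e)).sum := by
      conv_lhs => rw [h3]
      rw [Multiset.map_add, Multiset.sum_add]
    rw [h6, h4]
    refine Nat.add_le_add h5 ?_
    split_ifs with h7
    · rw [Multiset.map_replicate, Multiset.sum_replicate, smul_eq_mul]
      exact Nat.mul_le_mul_left _ (cnk_le_ell hKr e M)
    · simp
  have hlow : (1 - δ / 2) * (ell r (d + 1) : ℝ) ≤ (cnk r K e (d + 1) : ℝ) := by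
    have h3 : (ell (r - K) (d + 1) : ℝ) ≤ (cnk r K e (d + 1) : ℝ) := by
      exact_mod_cast ell_sub_le_cnk r K d e
    have h4 : (0 : ℝ) ≤ (ell (r - K) (d + 1) : ℝ) := Nat.cast_nonneg _
    have h5 : (1 - δ / 2) * (ell r (d + 1) : ℝ) ≤
        (1 - δ / 2) * ((1 + δ / 2) * (ell (r - K) (d + 1) : ℝ)) :=
      mul_le_mul_of_nonneg_left hratio (by linarith)
    have h6 : (1 - δ / 2) * ((1 + δ / 2) * (ell (r - K) (d + 1) : ℝ)) =
        (ell (r - K) (d + 1) : ℝ) - δ ^ 2 / 4 * (ell (r - K) (d + 1) : ℝ) := by ring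
    have h7 : 0 ≤ δ ^ 2 / 4 * (ell (r - K) (d + 1) : ℝ) := by positivity
    linarith
  have hB1 : δ / 2 * (ell r (d + 1) : ℝ) ≤ (((B.map (ell r)).sum : ℕ) : ℝ) := by
    have h3 : (cnk r K e (d + 1) : ℝ) ≤ (((B.map (ell r)).sum : ℕ) : ℝ) +
        ((if 2 * M = d + 1 then S.count M * ell r M else 0 : ℕ) : ℝ) := by
      exact_mod_cast hN'.trans hsplit
    have h4 : ((if 2 * M = d + 1 then S.count M * ell r M else 0 : ℕ) : ℝ) ≤
        (1 - δ) * (ell r (d + 1) : ℝ) := by
      have h0 : (0 : ℝ) ≤ (ell r (d + 1) : ℝ) := Nat.cast_nonneg _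
      split_ifs with h5
      · refine (hcrit M h5).trans ?_
        exact mul_le_mul_of_nonneg_right (by linarith) h0
      · rw [Nat.cast_zero]
        exact mul_nonneg (by linarith) h0
    linarith
  obtain ⟨μ, hμ⟩ := Kill_pigeon r d B (fun m hm => by
    have := hS m (Multiset.mem_of_le hBS hm)
    omega) _ hB1
  have hell : (0 : ℝ) < (ell r (d + 1) : ℝ) := by
    exact_mod_cast ell_pos r (by omega)
  have hμ' : δ / (2 * (d + 1)) * (ell r (d + 1) : ℝ) ≤ ((B.count μ * ell r μ : ℕ) : ℝ) := by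
    have h3 : (0 : ℝ) < (d : ℝ) + 1 := by positivity
    rw [div_mul_eq_mul_div, div_le_iff₀ (by positivity)]
    linarith
  have hμB : μ ∈ B := by
    rw [← Multiset.count_pos]
    by_contra hcon
    have h3 : B.count μ = 0 := by omega
    rw [h3, Nat.zero_mul, Nat.cast_zero] at hμ'
    have h4 : 0 < δ / (2 * (d + 1)) * (ell r (d + 1) : ℝ) := by positivity
    linarith
  have hμS := hS μ (Multiset.mem_of_le hBS hμB)
  have hμM : μ + M ≤ d := by
    rw [hB, Multiset.mem_filter] at hμB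
    exact hμB.2
  refine h₁ r (by omega) e μ S (fun s => Nat.sub_le _ _) hμS.1 (by omega)
    (fun m hm => ⟨(hS m hm).1, by have := (hS m hm).2; omega⟩) hN' (hμ'.trans ?_)
  have h3 : B.count μ ≤ S.count μ := Multiset.count_le_of_le μ hBS
  exact_mod_cast Nat.mul_le_mul_right _ h3

end Pool.Agent.LK
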