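import Pool.Agent.LK.Defs

/-!
# LK1: the number of exponents of a level with piece in `D`
-/

set_option autoImplicit false

namespace Pool.Agent.LK

open Finset MvPolynomial Pool.Agent.H18.Fat Pool.Agent.H18.Ex Pool.Agent.H21.NX Pool.Agent.H18.Ta
  Pool.Agent.H51.TB Pool.Agent.H21.TC Pool.Agent.V7.ST

private theorem Card_Sx {ι : Type} [Fintype ι] [DecidableEq ι] (n : ℕ) :
    (Sx ι n).card = Nat.multichoose (Fintype.card ι) n := by
  rw [← card_univ, ← card_finsuppAntidiag_nat_eq_multichoose]
  symm
  apply card_bij (fun (α : ι →₀ ℕ) _ => (⇑α : ι → ℕ))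
  · intro α hα
    rw [mem_finsuppAntidiag] at hα
    exact mem_Sx.2 hα.1
  · intro α _ β _ h
    exact DFunLike.coe_injective h
  · intro f hf
    refine ⟨Finsupp.equivFunOnFinite.symm f, ?_, rfl⟩
    rw [mem_finsuppAntidiag]
    exact ⟨mem_Sx.1 hf, subset_univ _⟩

/-- A sum over the `Y`-variables: the variables `o s` and the others. -/
private theorem Card_split {K b : ℕ} {o : Fin K → Fin b} (ho : Function.Injective o)
    (F : Fin b → ℕ) :
    ∑ c, F c = ∑ s, F (o s) + ∑ c : {c : Fin b // c ∉ Set.range o}, F c.1 := by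
  have h1 := Fintype.sum_subtype_add_sum_subtype (fun c : Fin b => c ∈ Set.range o) F
  have h2 : ∑ s, F (o s) = ∑ c : {c : Fin b // c ∈ Set.range o}, F c.1 :=
    Fintype.sum_equiv (Equiv.ofInjective o ho) _ _ fun s => rfl
  rw [h2]
  refine h1.symm.trans ?_
  exact congrArg₂ (· + ·) (Finset.sum_congr (Finset.ext fun x => by simp) fun _ _ => rfl)
    (Finset.sum_congr (Finset.ext fun x => by simp) fun _ _ => rfl)

private theorem Card_off {K b : ℕ} {o : Fin K → Fin b} (ho : Function.Injective o) :
    Fintype.card {c : Fin b // c ∉ Set.range o} = b - K := by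
  have h := Card_split ho fun _ => 1
  simp only [sum_const, smul_eq_mul, mul_one, card_univ, Fintype.card_fin] at h
  omega

/-- The exponents of one piece. -/
private theorem Card_piece {K a b d j : ℕ} {o : Fin K → Fin b} (ho : Function.Injective o)
    (hj : j ≤ d) (k : Fin K → ℕ) :
    ((Bx a b d j).filter fun α => jp o α = k).card = nk a b d j k := by
  classical
  unfold nk
  have hyd : ∀ α : Z a b → ℕ, jp o α = k →
      yd α = tk k + ∑ c : {c : Fin b // c ∉ Set.range o}, α (Sum.inr c.1) := by
    intro α hα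
    have h := Card_split ho fun c => α (Sum.inr c)
    unfold yd tk
    rw [h, ← hα]
    rfl
  split_ifs with hk
  · have h1 := Card_Sx (ι := Fin a) (d - j)
    have h2 := Card_Sx (ι := {c : Fin b // c ∉ Set.range o}) (j - tk k)
    rw [Fintype.card_fin] at h1
    rw [Card_off ho] at h2
    rw [← h1, ← h2, ← card_product]
    apply card_bij (fun (α : Z a b → ℕ) _ => ((fun i => α (Sum.inl i),
      fun c => α (Sum.inr c.1)) : (Fin a → ℕ) × ({c : Fin b // c ∉ Set.range o} → ℕ)))
    · intro α hα
      rw [mem_filter, mem_Bx] at hα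
      have h3 := hyd α hα.2
      rw [mem_product, mem_Sx, mem_Sx]
      constructor
      · change xd α = d - j
        omega
      · change ∑ c : {c : Fin b // c ∉ Set.range o}, α (Sum.inr c.1) = j - tk k
        omega
    · intro α hα β hβ h
      rw [mem_filter] at hα hβ
      rw [Prod.mk.injEq] at h
      funext z
      rcases z with i | i
      · exact congrFun h.1 i
      · by_cases hi : i ∈ Set.range o
        · obtain ⟨s, rfl⟩ := hi
          have h3 := congrFun (hα.2.trans hβ.2.symm) s
          exact h3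
        · exact congrFun h.2 ⟨i, hi⟩
    · intro f hf
      rw [mem_product, mem_Sx, mem_Sx] at hf
      let g : Fin b → ℕ := fun c => if h : c ∈ Set.range o then k h.choose else f.2 ⟨c, h⟩
      have hg1 : ∀ s, g (o s) = k s := by
        intro s
        have h : o s ∈ Set.range o := ⟨s, rfl⟩
        simp only [g]
        rw [dif_pos h]
        exact congrArg k (ho h.choose_spec)
      have hg2 : ∀ c : {c : Fin b // c ∉ Set.range o}, g c.1 = f.2 c := by
        intro c
        simp only [g]
        rw [dif_neg c.2]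
      have h3 : jp o (Sum.elim f.1 g : Z a b → ℕ) = k := funext hg1
      have h4 := hyd (Sum.elim f.1 g) h3
      have h5 : xd (Sum.elim f.1 g : Z a b → ℕ) = ∑ i, f.1 i := rfl
      have h6 : ∑ c : {c : Fin b // c ∉ Set.range o}, (Sum.elim f.1 g : Z a b → ℕ) (Sum.inr c.1) =
          ∑ c, f.2 c := sum_congr rfl fun c _ => hg2 c
      refine ⟨Sum.elim f.1 g, ?_, ?_⟩
      · rw [mem_filter, mem_Bx]
        refine ⟨?_, h3⟩
        rw [h6] at h4
        omega
      · rw [Prod.ext_iff]
        exact ⟨rfl, funext hg2⟩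
  · rw [card_eq_zero, filter_eq_empty_iff]
    intro α hα h
    rw [mem_Bx] at hα
    have h3 := hyd α h
    omega

theorem card_Bd {K a b d j : ℕ} (hb : K ≤ b) {o : Fin K → Fin b} (ho : Function.Injective o)
    (hj : j ≤ d) (D : Finset (Fin K → ℕ)) : (Bd a b d j o D).card = ND a b d j D := by
  unfold ND
  rw [card_eq_sum_card_fiberwise (f := jp o) (t := D) fun α hα =>
    (mem_Bd.1 (Finset.mem_coe.1 hα)).2]
  refine sum_congr rfl fun k hk => ?_
  rw [← Card_piece ho hj k]
  congr 1
  ext α
  rw [mem_filter, mem_filter, mem_Bd]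
  constructor
  · exact fun h => ⟨h.1.1, h.2⟩
  · exact fun h => ⟨⟨h.1, h.2 ▸ hk⟩, h.2⟩

end Pool.Agent.LK
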