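import Pool.Agent.H51.TB.UDefs
import Pool.Agent.H21.TC.Defs
import Pool.Agent.V7.ST.Ms

/-!
# Project LK: boundedly many large points, non-critical half

`K` points of multiplicities `d - e s` (`s : Fin K`) are put at the coordinate points of the
`Y`-variables `o s` (`o : Fin K → Fin b` injective): the forms are those with exponents `α` with
`α_{o s} ≤ e s`.  The exponents of the level `j` are divided into the *pieces* `k : Fin K → ℕ` of the
exponents `α` with `α_{o s} = k s` for all `s`.  `D` is a set of pieces closed downwards; `Bd a b d j o D` are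
the exponents of the level `j` whose piece belongs to `D`.
-/

set_option autoImplicit false

namespace Pool.Agent.LK

open Finset MvPolynomial Pool.Agent.H18.Ex Pool.Agent.H21.NX Pool.Agent.H18.Ta Pool.Agent.H51.TB
  Pool.Agent.H21.TC Pool.Agent.V7.ST

/-! ### Systems: the span property at one configuration -/

section

variable {E ν T : Type} [Fintype E] (S : Sys E ν T)

/-- The spaces of solutions for the configuration `m` at general positions are not contained in a
fixed proper subspace, unless they vanish. -/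
def SpanAt {κ : Type} (m : κ → T) : Prop :=
  ∀ φ : (E → ℂ) →ₗ[ℂ] ℂ, φ ≠ 0 → Gn κ ν (fun p => S.V m p ≤ LinearMap.ker φ) → S.gd m = 0

/-- The same for a multiset of types. -/
def SpanM (s : Multiset T) : Prop :=
  ∀ (κ : Type) [Fintype κ] (m : κ → T), (univ : Finset κ).val.map m = s → SpanAt S m

/-- The virtual dimension for the cardinality `n` and the sizes `sz`. -/
def vir {T : Type} (n : ℕ) (sz : T → ℕ) (s : Multiset T) : ℤ := (n : ℤ) - ((s.map sz).sum : ℕ)

end

/-! ### Sets of pieces -/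

/-- Closed downwards. -/
def Lo {K : ℕ} (D : Finset (Fin K → ℕ)) : Prop :=
  ∀ k ∈ D, ∀ l : Fin K → ℕ, (∀ s, l s ≤ k s) → l ∈ D

/-- The degree of a piece. -/
def tk {K : ℕ} (k : Fin K → ℕ) : ℕ := ∑ s, k s

/-- The pieces `k ≤ e`. -/
def Box {K : ℕ} (e : Fin K → ℕ) : Finset (Fin K → ℕ) := Fintype.piFinset fun s => range (e s + 1)

/-- The pieces `k ≤ e` of degree at most `j`. -/
def Bj {K : ℕ} (e : Fin K → ℕ) (j : ℕ) : Finset (Fin K → ℕ) := (Box e).filter fun k => tk k ≤ j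

theorem mem_Box {K : ℕ} {e k : Fin K → ℕ} : k ∈ Box e ↔ ∀ s, k s ≤ e s := by
  unfold Box
  rw [Fintype.mem_piFinset]
  exact forall_congr' fun s => by rw [mem_range]; omega

theorem mem_Bj {K : ℕ} {e k : Fin K → ℕ} {j : ℕ} : k ∈ Bj e j ↔ (∀ s, k s ≤ e s) ∧ tk k ≤ j := by
  unfold Bj
  rw [mem_filter, mem_Box]

theorem tk_zero {K : ℕ} : tk (0 : Fin K → ℕ) = 0 := by
  unfold tk
  simp

theorem tk_mono {K : ℕ} {k l : Fin K → ℕ} (h : ∀ s, l s ≤ k s) : tk l ≤ tk k :=
  sum_le_sum fun s _ => h s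

theorem Lo_Bj {K : ℕ} (e : Fin K → ℕ) (j : ℕ) : Lo (Bj e j) := by
  intro k hk l hl
  rw [mem_Bj] at hk ⊢
  exact ⟨fun s => (hl s).trans (hk.1 s), (tk_mono hl).trans hk.2⟩

theorem zero_mem_Bj {K : ℕ} (e : Fin K → ℕ) (j : ℕ) : (0 : Fin K → ℕ) ∈ Bj e j := by
  rw [mem_Bj, tk_zero]
  exact ⟨fun s => Nat.zero_le _, Nat.zero_le _⟩

/-! ### Exponents -/

/-- The piece of an exponent. -/
def jp {K a b : ℕ} (o : Fin K → Fin b) (α : Z a b → ℕ) : Fin K → ℕ := fun s => α (Sum.inr (o s))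

/-- The exponents of the level `j` whose piece belongs to `D`. -/
def Bd {K : ℕ} (a b d j : ℕ) (o : Fin K → Fin b) (D : Finset (Fin K → ℕ)) :
    Finset (Z a b → ℕ) := (Bx a b d j).filter fun α => jp o α ∈ D

theorem mem_Bd {K a b d j : ℕ} {o : Fin K → Fin b} {D : Finset (Fin K → ℕ)} {α : Z a b → ℕ} :
    α ∈ Bd a b d j o D ↔ α ∈ Bx a b d j ∧ jp o α ∈ D := by
  unfold Bd
  rw [mem_filter]

/-! ### Types -/

/-- A type closed downwards. -/
def Dn (Λ : Finset (ℕ × ℕ)) : Prop :=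
  ∀ g ∈ Λ, ∀ h : ℕ × ℕ, h.1 ≤ g.1 → h.2 ≤ g.2 → h ∈ Λ

/-- The bidegrees of `Λ` occur on the level `j`. -/
def Wi (d j : ℕ) (Λ : Finset (ℕ × ℕ)) : Prop := ∀ g ∈ Λ, g.2 ≤ j ∧ j + g.1 ≤ d

/-- The class of a type. -/
def cl (Λ : Finset (ℕ × ℕ)) : ℕ := Λ.sup fun g => g.1 + g.2 + 1

/-- The dominating type on the level `j`. -/
def top (d M j : ℕ) : Finset (ℕ × ℕ) :=
  (range M ×ˢ range M).filter fun g => g.2 ≤ j ∧ j + g.1 ≤ d ∧ g.1 + g.2 < M

/-! ### Numbers -/

/-- The number of conditions of bidegree `g` of a general point on the piece `k`. -/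
def wk {K : ℕ} (a b : ℕ) (k : Fin K → ℕ) (g : ℕ × ℕ) : ℕ :=
  if tk k ≤ g.2 then Nat.multichoose (a - 1) g.1 * Nat.multichoose (b - 1 - K) (g.2 - tk k) else 0

/-- The number of conditions of bidegree `g` of a general point on the pieces of `D`. -/
def WD {K : ℕ} (a b : ℕ) (D : Finset (Fin K → ℕ)) (g : ℕ × ℕ) : ℕ := ∑ k ∈ D, wk a b k g

/-- The number of exponents of the level `j` of the piece `k`. -/
def nk {K : ℕ} (a b d j : ℕ) (k : Fin K → ℕ) : ℕ :=
  if tk k ≤ j then Nat.multichoose a (d - j) * Nat.multichoose (b - K) (j - tk k) else 0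

/-- The number of exponents of the level `j` whose piece belongs to `D`. -/
def ND {K : ℕ} (a b d j : ℕ) (D : Finset (Fin K → ℕ)) : ℕ := ∑ k ∈ D, nk a b d j k

/-- The number of monomials of degree `v - 1` in `r + 1` variables with exponent at most `e s` at the
variable `s` (`s : Fin K`). -/
def cnk (r K : ℕ) (e : Fin K → ℕ) (v : ℕ) : ℕ := ∑ k ∈ Box e, ell (r - K) (v - tk k)

/-- The weights of the problem (for `K + 2 ≤ b`). -/
def WK {K : ℕ} (e : Fin K → ℕ) (a b : ℕ) (g : ℕ × ℕ) : ℕ :=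
  if K + 2 ≤ b then WD a b (Box e) g else Eg a b g

/-- The weights of the piece `0` (for `K + 2 ≤ b`). -/
def W0 (K : ℕ) (a b : ℕ) (g : ℕ × ℕ) : ℕ :=
  if K + 2 ≤ b then wk a b (0 : Fin K → ℕ) g else Eg a b g

/-- The dimensions of the levels (for `K + 2 ≤ b`). -/
def BK {K : ℕ} (e : Fin K → ℕ) (d a b j : ℕ) : ℕ :=
  if K + 2 ≤ b then ND a b d j (Box e) else bet a b d j

end Pool.Agent.LK
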