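import Pool.Agent.LK.Defs
import Pool.Agent.H51.TB.Win

/-!
# LK5: the window lemma with a span hypothesis at the configurations which occur

The lemmas on the swap, on simple points and on the window are those of
`Pool/Agent/H51/TB/{Sw,Gs,Win}.lean`; the span property is used at the configuration itself only.
-/

set_option autoImplicit false

namespace Pool.Agent.LK

open Finset MvPolynomial Pool.Agent.H18.Fat Pool.Agent.H18.Ex Pool.Agent.H21.NX Pool.Agent.H18.Ta
  Pool.Agent.H51.TB Pool.Agent.H21.TC Pool.Agent.V7.ST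

/-- The index of the point used at `a`: `y a` if `a ∈ A`, else `x a`. -/
private def LocX.zt {κ : Type} [DecidableEq κ] (A : Finset κ) (a : κ) : κ ⊕ (κ ⊕ Unit) :=
  if a ∈ A then Sum.inr (Sum.inl a) else Sum.inl a

private theorem LocX.zt_inj {κ : Type} [DecidableEq κ] (A : Finset κ) :
    Function.Injective (LocX.zt A) := by
  intro a b h
  unfold LocX.zt at h
  split_ifs at h with h1 h2 h2
  · exact Sum.inl_injective (Sum.inr_injective h)
  · exact Sum.inl_injective h

private theorem LocX.zt_ne_ell {κ : Type} [DecidableEq κ] (A : Finset κ) (a : κ) :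
    LocX.zt A a ≠ Sum.inr (Sum.inr ()) := by
  unfold LocX.zt
  split_ifs
  · intro h
    cases h
  · intro h
    cases h

private theorem LocX.zt_ne_y {κ : Type} [DecidableEq κ] (A : Finset κ) (a b : κ) (hb : b ∉ A) :
    LocX.zt A a ≠ Sum.inr (Sum.inl b) := by
  unfold LocX.zt
  split_ifs with h1
  · intro h
    have := Sum.inl_injective (Sum.inr_injective h)
    exact hb (this ▸ h1)
  · intro h
    cases h

private theorem LocX.elim_inj {α β : Type} (f : α → β) (b : β) (hf : Function.Injective f)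
    (hb : ∀ a, f a ≠ b) : Function.Injective (Sum.elim f fun _ : Unit => b) := by
  rintro (x | x) (y | y) h
  · exact congrArg Sum.inl (hf h)
  · exact absurd h (hb x)
  · exact absurd h.symm (hb y)
  · rfl

private theorem LocX.comp_elim {α β γ : Type} (p : β → γ) (f : α → β) (b : β) :
    (fun i => p (Sum.elim f (fun _ : Unit => b) i)) =
      Sum.elim (fun i => p (f i)) fun _ : Unit => p b := by
  funext i
  rcases i with i | i <;> rfl

private theorem LocX.dom {E ν T : Type} [Fintype E] (S : Sys E ν T) {b t : T} (h : S.Dom b t)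
    (q : ν → ℂ) (f : E → ℂ)
    (hf : ∀ r : S.R b, ∑ e, eval q (S.co b r e) * f e = 0) (r : S.R t) :
    ∑ e, eval q (S.co t r e) * f e = 0 := by
  have h1 : f ∈ S.V (fun _ : Unit => b) fun _ => q := fun _ r => hf r
  exact h q h1 () r

/-- Pulling back a general statement along points where the other coordinates are fixed. -/
private theorem LocX.gen_fix {ν κ : Type} (G : MvPolynomial ((κ ⊕ (κ ⊕ Unit)) × ν) ℂ)
    (p₀ : κ ⊕ (κ ⊕ Unit) → ν → ℂ) (h0 : eval (fun x => p₀ x.1 x.2) G ≠ 0)
    (P : (κ → ν → ℂ) → Prop)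
    (hP : ∀ y : κ → ν → ℂ,
      eval (fun x : (κ ⊕ (κ ⊕ Unit)) × ν =>
        (Sum.elim (fun a => p₀ (Sum.inl a))
          (Sum.elim y fun _ : Unit => p₀ (Sum.inr (Sum.inr ())))) x.1 x.2) G ≠ 0 → P y) :
    Gn κ ν P := by
  let s : (κ ⊕ (κ ⊕ Unit)) × ν → MvPolynomial (κ × ν) ℂ := fun x =>
    Sum.elim (fun a => C (p₀ (Sum.inl a) x.2))
      (Sum.elim (fun a => X (a, x.2)) fun _ : Unit => C (p₀ (Sum.inr (Sum.inr ())) x.2)) x.1
  have hea : ∀ (y : κ × ν → ℂ) (F : MvPolynomial ((κ ⊕ (κ ⊕ Unit)) × ν) ℂ),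
      eval y (aeval s F) = eval (fun x => eval y (s x)) F := by
    intro y F
    induction F using MvPolynomial.induction_on with
    | C c => simp
    | add p q hp hq => rw [map_add, map_add, map_add, hp, hq]
    | mul_X p i hp => rw [map_mul, map_mul, map_mul, hp, aeval_X, eval_X]
  have hs : ∀ y : κ → ν → ℂ, eval (fun x => y x.1 x.2) (aeval s G) =
      eval (fun x : (κ ⊕ (κ ⊕ Unit)) × ν =>
        (Sum.elim (fun a => p₀ (Sum.inl a))
          (Sum.elim y fun _ : Unit => p₀ (Sum.inr (Sum.inr ())))) x.1 x.2) G := by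
    intro y
    rw [hea]
    refine congrArg (fun f : (κ ⊕ (κ ⊕ Unit)) × ν → ℂ => eval f G) (funext fun x => ?_)
    obtain ⟨x, j⟩ := x
    rcases x with a | a | a <;> simp [s]
  refine ⟨aeval s G, ?_, ?_⟩
  · intro h
    have h1 := hs fun a => p₀ (Sum.inr (Sum.inl a))
    rw [h, map_zero] at h1
    apply h0
    rw [h1]
    refine congrArg (fun f : (κ ⊕ (κ ⊕ Unit)) × ν → ℂ => eval f G) (funext fun x => ?_)
    obtain ⟨x, j⟩ := x
    rcases x with a | a | a <;> rfl
  · intro y hy
    rw [hs] at hy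
    exact hP y hy

/-- An equivalence of index types. -/
private noncomputable def LocX.eqv (κ : Type) (j : ℕ) : (κ ⊕ Fin j) ⊕ Unit ≃ κ ⊕ Fin (j + 1) :=
  (Equiv.sumAssoc κ (Fin j) Unit).trans
    (Equiv.sumCongr (Equiv.refl κ) (Fintype.equivOfCardEq (by simp)))

private theorem LocX.g_succ {E ν T : Type} [Fintype E] (S : Sys E ν T) {κ : Type} (m : κ → T)
    (b : T) (j : ℕ) :
    S.gd (ad (Sum.elim m fun _ : Fin j => b) b) = S.gd (Sum.elim m fun _ : Fin (j + 1) => b) := by
  rw [← gd_comp_equiv S (LocX.eqv κ j)]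
  congr 1
  funext i
  rcases i with (i | i) | i <;> rfl

private theorem LocX.G_succ {E ν T : Type} [Fintype E] (S : Sys E ν T) {κ : Type} (m : κ → T)
    (t b : T) (j : ℕ) :
    S.gd (ad (ad (Sum.elim m fun _ : Fin j => b) b) t) =
      S.gd (ad (Sum.elim m fun _ : Fin (j + 1) => b) t) := by
  rw [← gd_comp_equiv S (Equiv.sumCongr (LocX.eqv κ j) (Equiv.refl Unit))]
  congr 1
  funext i
  rcases i with ((i | i) | i) | i <;> rfl

private theorem LocX.g_zero {E ν T : Type} [Fintype E] (S : Sys E ν T) {κ : Type} (m : κ → T)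
    (b : T) : S.gd (Sum.elim m fun _ : Fin 0 => b) = S.gd m := by
  rw [← gd_comp_equiv S (Equiv.sumEmpty κ (Fin 0))]
  congr 1
  funext i
  rcases i with i | i
  · rfl
  · exact i.elim0

private theorem LocX.G_zero {E ν T : Type} [Fintype E] (S : Sys E ν T) {κ : Type} (m : κ → T)
    (t b : T) : S.gd (ad (Sum.elim m fun _ : Fin 0 => b) t) = S.gd (ad m t) := by
  rw [← gd_comp_equiv S (Equiv.sumCongr (Equiv.sumEmpty κ (Fin 0)) (Equiv.refl Unit))]
  congr 1
  funext i
  rcases i with (i | i) | i
  · rfl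
  · exact i.elim0
  · rfl


section

variable {E ν T : Type} [Fintype E] (S : Sys E ν T) {κ : Type}

private theorem LocX.swap [Fintype κ] [DecidableEq κ] (m : κ → T) (hS : SpanAt S m) (t b : T)
    (hb : ∀ i, S.Dom b (m i))
    (hc : S.gd m + S.gd (ad (ad m b) t) = S.gd (ad m t) + S.gd (ad m b)) :
    S.gd m = 0 ∨ S.gd m = S.gd (ad m t) + S.size t := by
  -- the point `ℓ`
  let ℓ : κ ⊕ (κ ⊕ Unit) := Sum.inr (Sum.inr ())
  let yy : κ → κ ⊕ (κ ⊕ Unit) := fun a => Sum.inr (Sum.inl a)
  -- the general conditions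
  have c1 : ∀ A ∈ (univ : Finset (Finset κ)), Gn (κ ⊕ (κ ⊕ Unit)) ν fun p =>
      Module.finrank ℂ (S.V m (fun a => p (LocX.zt A a))) = S.gd m := fun A _ =>
    Gn.comap (LocX.zt A) (LocX.zt_inj A) (gn_gd S m)
  have c2 : Gn (κ ⊕ (κ ⊕ Unit)) ν fun p =>
      Module.finrank ℂ (S.V (fun _ : Unit => t) (fun _ : Unit => p ℓ)) =
        S.gd fun _ : Unit => t :=
    Gn.comap (fun _ : Unit => ℓ) (fun _ _ _ => rfl) (gn_gd S fun _ : Unit => t)
  have c3 : ∀ A ∈ (univ : Finset (Finset κ)), Gn (κ ⊕ (κ ⊕ Unit)) ν fun p =>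
      Module.finrank ℂ (S.V (Sum.elim m fun _ : Unit => t)
        (Sum.elim (fun a => p (LocX.zt A a)) fun _ : Unit => p ℓ)) = S.gd (ad m t) := by
    intro A _
    have h := Gn.comap (Sum.elim (LocX.zt A) fun _ : Unit => ℓ)
      (LocX.elim_inj _ _ (LocX.zt_inj A) (LocX.zt_ne_ell A)) (gn_gd S (ad m t))
    refine h.mono fun p hp => ?_
    rwa [LocX.comp_elim] at hp
  have c4 : ∀ A ∈ (univ : Finset (Finset κ)), Gn (κ ⊕ (κ ⊕ Unit)) ν fun p =>
      ∀ a ∈ (univ : Finset κ), a ∉ A → Module.finrank ℂ (S.V (Sum.elim m fun _ : Unit => b)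
        (Sum.elim (fun a => p (LocX.zt A a)) fun _ : Unit => p (yy a))) = S.gd (ad m b) := by
    intro A _
    refine Gn.all _ fun a _ => ?_
    by_cases ha : a ∈ A
    · refine (c2).mono fun p _ h => absurd ha h
    · have h := Gn.comap (Sum.elim (LocX.zt A) fun _ : Unit => yy a)
        (LocX.elim_inj _ _ (LocX.zt_inj A) fun b => LocX.zt_ne_y A b a ha)
        (gn_gd S (ad m b))
      refine h.mono fun p hp _ => ?_
      rwa [LocX.comp_elim] at hp
  have c5 : ∀ A ∈ (univ : Finset (Finset κ)), Gn (κ ⊕ (κ ⊕ Unit)) ν fun p =>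
      ∀ a ∈ (univ : Finset κ), a ∉ A → Module.finrank ℂ (S.V
        (Sum.elim (Sum.elim m fun _ : Unit => b) fun _ : Unit => t)
        (Sum.elim (Sum.elim (fun a => p (LocX.zt A a)) fun _ : Unit => p (yy a))
          fun _ : Unit => p ℓ)) = S.gd (ad (ad m b) t) := by
    intro A _
    refine Gn.all _ fun a _ => ?_
    by_cases ha : a ∈ A
    · refine (c2).mono fun p _ h => absurd ha h
    · have h := Gn.comap (Sum.elim (Sum.elim (LocX.zt A) fun _ : Unit => yy a) fun _ : Unit => ℓ)
        (LocX.elim_inj _ _ (LocX.elim_inj _ _ (LocX.zt_inj A) fun b => LocX.zt_ne_y A b a ha) (by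
          rintro (b | b)
          · exact LocX.zt_ne_ell A b
          · intro h
            exact absurd (Sum.inr_injective h) Sum.inl_ne_inr))
        (gn_gd S (ad (ad m b) t))
      refine h.mono fun p hp _ => ?_
      rwa [LocX.comp_elim, LocX.comp_elim] at hp
  have hall := ((Gn.all _ c1).and c2).and (((Gn.all _ c3).and (Gn.all _ c4)).and
    (Gn.all _ c5))
  -- the key inclusion for general points
  have hkey : Gn (κ ⊕ (κ ⊕ Unit)) ν fun p =>
      Module.finrank ℂ (S.V m (fun a => p (Sum.inl a)) ⊔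
        S.V (fun _ : Unit => t) (fun _ : Unit => p ℓ) : Submodule ℂ (E → ℂ)) +
          S.gd (ad m t) = S.gd m + S.gd (fun _ : Unit => t) ∧
      S.V m (fun a => p (yy a)) ≤ S.V m (fun a => p (Sum.inl a)) ⊔
        S.V (fun _ : Unit => t) (fun _ : Unit => p ℓ) := by
    refine hall.mono ?_
    rintro p ⟨⟨h1, h2⟩, ⟨h3, h4⟩, h5⟩
    let XT : Finset κ → Submodule ℂ (E → ℂ) := fun A =>
      S.V m (fun a => p (LocX.zt A a)) ⊔ S.V (fun _ : Unit => t) (fun _ : Unit => p ℓ)
    have hX : ∀ A, Module.finrank ℂ (XT A) + S.gd (ad m t) =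
        S.gd m + S.gd (fun _ : Unit => t) := by
      intro A
      have h := finrank_V_sup S m (fun _ : Unit => t) (fun a => p (LocX.zt A a))
        (fun _ : Unit => p ℓ)
      rw [h1 A (mem_univ _), h2, h3 A (mem_univ _)] at h
      exact h
    have hstep : ∀ (A : Finset κ) (a : κ), a ∉ A → XT A = XT (insert a A) := by
      intro A a ha
      let U : Submodule ℂ (E → ℂ) :=
        S.V (Sum.elim m fun _ : Unit => b)
          (Sum.elim (fun a => p (LocX.zt A a)) fun _ : Unit => p (yy a)) ⊔
          S.V (fun _ : Unit => t) (fun _ : Unit => p ℓ)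
      have hW : Module.finrank ℂ U + S.gd (ad (ad m b) t) =
          S.gd (ad m b) + S.gd (fun _ : Unit => t) := by
        have h := finrank_V_sup S (Sum.elim m fun _ : Unit => b) (fun _ : Unit => t)
          (Sum.elim (fun a => p (LocX.zt A a)) fun _ : Unit => p (yy a)) (fun _ : Unit => p ℓ)
        rw [h4 A (mem_univ _) a (mem_univ _) ha, h2, h5 A (mem_univ _) a (mem_univ _) ha] at h
        exact h
      have hW1 : U ≤ XT A := by
        refine sup_le_sup_right ?_ _
        rw [V_elim]
        exact inf_le_left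
      have hW2 : U ≤ XT (insert a A) := by
        refine sup_le_sup_right ?_ _
        intro w hw
        rw [S.mem_V] at hw ⊢
        intro c
        by_cases hc : c = a
        · subst hc
          have h6 := hw (Sum.inr ())
          have h7 : LocX.zt (insert c A) c = yy c := by
            unfold LocX.zt
            rw [if_pos (mem_insert_self c A)]
          rw [h7]
          exact LocX.dom S (hb c) _ w h6
        · have h6 := hw (Sum.inl c)
          have h7 : LocX.zt (insert a A) c = LocX.zt A c := by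
            unfold LocX.zt
            by_cases hbT : c ∈ A
            · rw [if_pos hbT, if_pos (mem_insert_of_mem hbT)]
            · rw [if_neg hbT, if_neg]
              intro h
              rcases mem_insert.1 h with h | h
              · exact hc h
              · exact hbT h
          rw [h7]
          exact h6
      have e1 : U = XT A := by
        refine Submodule.eq_of_le_of_finrank_eq hW1 ?_
        have := hX A
        omega
      have e2 : U = XT (insert a A) := by
        refine Submodule.eq_of_le_of_finrank_eq hW2 ?_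
        have := hX (insert a A)
        omega
      rw [← e1, e2]
    have hind : ∀ A : Finset κ, XT A = XT ∅ := by
      intro A
      induction A using Finset.induction_on with
      | empty => rfl
      | insert a A ha ih => rw [← hstep A a ha, ih]
    have z0 : (fun a => p (LocX.zt (∅ : Finset κ) a)) = fun a => p (Sum.inl a) := by
      funext a
      unfold LocX.zt
      rw [if_neg (Finset.notMem_empty a)]
    have z1 : (fun a => p (LocX.zt (univ : Finset κ) a)) = fun a => p (yy a) := by
      funext a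
      unfold LocX.zt
      rw [if_pos (mem_univ a)]
    constructor
    · have e : XT ∅ = S.V m (fun a => p (Sum.inl a)) ⊔
          S.V (fun _ : Unit => t) (fun _ : Unit => p ℓ) := by
        simp only [XT]
        rw [z0]
      have h := hX ∅
      rw [e] at h
      exact h
    · have h := hind univ
      simp only [XT] at h
      rw [z0, z1] at h
      rw [← h]
      exact le_sup_left
  obtain ⟨G, hG0, hG⟩ := hkey
  obtain ⟨v, hv⟩ : ∃ a, eval a G ≠ 0 := by
    by_contra hcon
    push Not at hcon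
    exact hG0 (MvPolynomial.funext fun a => by rw [hcon a, map_zero])
  let p₀ : κ ⊕ (κ ⊕ Unit) → ν → ℂ := fun i j => v (i, j)
  have hp₀ : eval (fun x => p₀ x.1 x.2) G ≠ 0 := hv
  let X : Submodule ℂ (E → ℂ) :=
    S.V m (fun a => p₀ (Sum.inl a)) ⊔ S.V (fun _ : Unit => t) (fun _ : Unit => p₀ ℓ)
  by_cases hX : X = ⊤
  · right
    have h1 := (hG p₀ hp₀).1
    change Module.finrank ℂ X + _ = _ at h1
    rw [hX, finrank_top, Module.finrank_fintype_fun_eq_card] at h1
    have h2 := gd_unit S t
    omega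
  · left
    obtain ⟨φ, hφ0, hφ⟩ := Submodule.exists_le_ker_of_lt_top X (lt_top_iff_ne_top.mpr hX)
    refine hS φ hφ0 ?_
    refine LocX.gen_fix G p₀ hp₀ _ fun y hy => ?_
    exact ((hG (Sum.elim (fun a => p₀ (Sum.inl a))
      (Sum.elim y fun _ : Unit => p₀ (Sum.inr (Sum.inr ())))) hy).2).trans hφ

private theorem LocX.simple [Fintype κ] (m : κ → T) (hS : SpanAt S m) (t : T) (ht : 1 ≤ S.size t)
    (h : S.gd (ad m t) = S.gd m) : S.gd m = 0 := by
  have c1 : Gn (Unit ⊕ κ) ν fun p => Module.finrank ℂ (S.V (ad m t)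
      (Sum.elim (fun a => p (Sum.inr a)) fun _ : Unit => p (Sum.inl ()))) = S.gd (ad m t) := by
    have h1 := (gn_gd S (ad m t)).comap
      (Sum.elim (Sum.inr : κ → Unit ⊕ κ) fun _ : Unit => Sum.inl ())
      (LocX.elim_inj _ _ Sum.inr_injective fun a ha => by cases ha)
    refine h1.mono fun p hp => ?_
    rwa [LocX.comp_elim] at hp
  have c2 : Gn (Unit ⊕ κ) ν fun p =>
      Module.finrank ℂ (S.V m (fun a => p (Sum.inr a))) = S.gd m :=
    (gn_gd S m).comap (Sum.inr : κ → Unit ⊕ κ) Sum.inr_injective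
  have c3 : Gn (Unit ⊕ κ) ν fun p =>
      Module.finrank ℂ (S.V (fun _ : Unit => t) (fun u : Unit => p (Sum.inl u))) =
        S.gd fun _ : Unit => t :=
    (gn_gd S fun _ : Unit => t).comap (Sum.inl : Unit → Unit ⊕ κ) Sum.inl_injective
  obtain ⟨p₀, hfix⟩ := ((c1.and c2).and c3).fix
  have hX : S.V (fun _ : Unit => t) p₀ < ⊤ := by
    rw [lt_top_iff_ne_top]
    intro htop
    obtain ⟨y, hy⟩ := hfix.exists
    have h1 := hy.2
    change Module.finrank ℂ (S.V (fun _ : Unit => t) p₀) = _ at h1
    rw [htop, finrank_top, Module.finrank_fintype_fun_eq_card] at h1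
    have h2 := gd_unit S t
    omega
  obtain ⟨φ, hφ0, hφ⟩ := Submodule.exists_le_ker_of_lt_top _ hX
  refine hS φ hφ0 (hfix.mono fun y hy => ?_)
  obtain ⟨⟨h1, h2⟩, -⟩ := hy
  change Module.finrank ℂ (S.V (Sum.elim m fun _ : Unit => t) (Sum.elim y p₀)) = _ at h1
  change Module.finrank ℂ (S.V m y) = _ at h2
  rw [V_elim, h, ← h2] at h1
  exact (inf_eq_left.mp (Submodule.eq_of_le_of_finrank_eq inf_le_left h1)).trans hφ

private theorem LocX.window [Fintype κ] (m : κ → T) (t b : T) (hb : ∀ i, S.Dom b (m i))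
    (hS : ∀ j < S.size t, SpanAt S (Sum.elim m fun _ : Fin j => b))
    (h : (S.size t - 1) * S.size b < S.gd m) : S.gd m = S.gd (ad m t) + S.size t := by
  classical
  set g : ℕ → ℕ := fun j => S.gd (Sum.elim m fun _ : Fin j => b) with hg
  set G : ℕ → ℕ := fun j => S.gd (ad (Sum.elim m fun _ : Fin j => b) t) with hG
  have h1 : ∀ j, G j ≤ g j := fun j => gd_ad_le S _ t
  have h2 : ∀ j, g j ≤ G j + S.size t := fun j => gd_le_ad S (Sum.elim m fun _ : Fin j => b) t
  have h3 : ∀ j, g j ≤ g (j + 1) + S.size b := fun j => by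
    have := gd_le_ad S (Sum.elim m fun _ : Fin j => b) b
    rw [LocX.g_succ] at this
    exact this
  have h4 : ∀ j, G j + g (j + 1) ≤ g j + G (j + 1) := fun j => by
    have := gd_submod S (Sum.elim m fun _ : Fin j => b) b t
    rw [LocX.g_succ, LocX.G_succ] at this
    change g (j + 1) + G j ≤ g j + G (j + 1) at this
    omega
  have h5 : ∀ j < S.size t, g j ≠ 0 → G j + g (j + 1) = g j + G (j + 1) →
      g j = G j + S.size t := by
    intro j hjt hj he
    have hmj : ∀ a, S.Dom b ((Sum.elim m fun _ : Fin j => b) a) := by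
      rintro (a | a)
      · exact hb a
      · exact fun q => le_rfl
    rcases LocX.swap S (Sum.elim m fun _ : Fin j => b) (hS j hjt) t b hmj (by
      rw [LocX.g_succ, LocX.G_succ]
      change g j + G (j + 1) = G j + g (j + 1)
      exact he.symm) with h | h
    · exact absurd h hj
    · exact h
  have hg0 : g 0 = S.gd m := LocX.g_zero S m b
  have hG0 : G 0 = S.gd (ad m t) := LocX.G_zero S m t b
  have hlow : ∀ j, g 0 ≤ g j + j * S.size b := by
    intro j
    induction j with
    | zero => simp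
    | succ j ih =>
      have := h3 j
      have e : (j + 1) * S.size b = j * S.size b + S.size b := by ring
      omega
  have hne : ∀ j, j ≤ S.size t - 1 → g j ≠ 0 := by
    intro j hj h0
    have i1 := hlow j
    have i2 : j * S.size b ≤ (S.size t - 1) * S.size b := Nat.mul_le_mul_right _ hj
    omega
  rw [← hg0, ← hG0]
  by_contra hcon
  have a1 := h1 0
  have a2 := h2 0
  have hpos : 1 ≤ S.size t := by omega
  have key : ∀ j, j ≤ S.size t - 1 → g j - G j + j ≤ S.size t - 1 := by
    intro j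
    induction j with
    | zero => intro _; omega
    | succ j ih =>
      intro hj
      have i1 := ih (by omega)
      have i2 := h4 j
      have i3 := h1 j
      have i4 := h1 (j + 1)
      have i5 : g j ≠ 0 := hne j (by omega)
      have i6 : G j + g (j + 1) ≠ g j + G (j + 1) := fun he => by
        have := h5 j (by omega) i5 he
        omega
      omega
  have k1 := key _ le_rfl
  have k2 := h1 (S.size t - 1)
  have k3 : G (S.size t - 1) = g (S.size t - 1) := by omega
  exact hne _ le_rfl (LocX.simple S _ (hS _ (by omega)) t hpos k3)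

end

theorem gM_window {E ν T : Type} [Fintype E] (S : Sys E ν T) (s : Multiset T) (t b : T)
    (hb : ∀ x ∈ s, S.Dom b x) (hs : ∀ i < S.size t, SpanM S (s + Multiset.replicate i b))
    (h : (S.size t - 1) * S.size b < gM S s) : gM S (t ::ₘ s) + S.size t = gM S s := by
  obtain ⟨m, hm, hg⟩ := exists_conf S s
  have h1 := LocX.window S m t b (fun i => hb _ (by
    rw [← hm]
    exact Multiset.mem_map_of_mem m (mem_univ_val i))) (fun j hj => hs j hj _ _ (by
      rw [map_elim, hm, V7.ST.map_const, Fintype.card_fin])) (by rwa [hg])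
  rw [hg, gd_eq_gM S (ad m t), map_ad, hm] at h1
  exact h1.symm

theorem gM_drop {E ν T : Type} [Fintype E] (S : Sys E ν T) (s : Multiset T) (t : T)
    (ht : ∀ f : E → ℂ, f ≠ 0 → ∃ q : ν → ℂ, f ∉ S.V (fun _ : Unit => t) fun _ => q)
    (h : gM S s ≠ 0) : gM S (t ::ₘ s) + 1 ≤ gM S s := by
  obtain ⟨m, hm, hg⟩ := exists_conf S s
  have h1 := gM_cons_le S s t
  by_contra hcon
  have h2 : S.gd (ad m t) = S.gd m := by
    rw [hg, gd_eq_gM S (ad m t), map_ad, hm]
    omega
  obtain ⟨p₀, hfix⟩ := ((gn_gd S (ad m t)).and ((gn_gd S m).comap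
    (Sum.inl : _ → _ ⊕ Unit) Sum.inl_injective)).fix
  have h3 : Gn Unit ν fun q => S.V m p₀ ≤ S.V (fun _ : Unit => t) q := by
    refine hfix.mono fun q hq => ?_
    obtain ⟨h4, h5⟩ := hq
    change Module.finrank ℂ (S.V (Sum.elim m fun _ : Unit => t) (Sum.elim p₀ q)) = _ at h4
    change Module.finrank ℂ (S.V m p₀) = _ at h5
    rw [V_elim, h2, ← h5] at h4
    exact inf_eq_left.mp (Submodule.eq_of_le_of_finrank_eq inf_le_left h4)
  have h6 : Module.finrank ℂ (S.V m p₀) = S.gd m := by
    obtain ⟨q, -, hq⟩ := hfix.exists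
    exact hq
  have h7 : S.V m p₀ ≠ ⊥ := by
    intro h8
    rw [h8, finrank_bot] at h6
    exact h (by rw [← hg, ← h6])
  obtain ⟨f, hf, hf0⟩ := Submodule.exists_mem_ne_zero_of_ne_bot h7
  obtain ⟨q, hq⟩ := ht f hf0
  apply hq
  rw [Sys.mem_V]
  intro i r
  obtain ⟨G, hG, h8⟩ := h3
  -- the polynomial of the condition `r`
  let F : MvPolynomial (Unit × ν) ℂ :=
    ∑ e, rename (fun v : ν => ((), v)) (S.co t r e) * C (f e)
  have hF : ∀ p : Unit → ν → ℂ, eval (fun x => p x.1 x.2) F =
      ∑ e, eval (p ()) (S.co t r e) * f e := by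
    intro p
    simp only [F]
    rw [map_sum]
    refine sum_congr rfl fun e _ => ?_
    rw [map_mul, eval_C, eval_rename]
    rfl
  have h9 : G * F = 0 := by
    refine MvPolynomial.funext fun x => ?_
    rw [map_mul, map_zero]
    by_cases hx : eval x G = 0
    · rw [hx, zero_mul]
    · have h10 := h8 (fun i v => x (i, v)) hx hf
      rw [Sys.mem_V] at h10
      have h11 := h10 () r
      rw [← hF fun i v => x (i, v)] at h11
      have h12 : eval x F = 0 := h11
      rw [h12, mul_zero]
  have h13 : F = 0 := (mul_eq_zero.1 h9).resolve_left hG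
  have h14 := hF fun _ => q
  rw [h13, map_zero] at h14
  exact h14.symm

/-- The types containing `(0, 0)`. -/
theorem drop_A {a b : ℕ} (A : Finset (Z a b → ℕ)) (Λ : Finset (ℕ × ℕ)) (hΛ : (0, 0) ∈ Λ)
    (f : {α // α ∈ A} → ℂ) (hf : f ≠ 0) :
    ∃ q : Z a b → ℂ, f ∉ (ASys A).V (fun _ : Unit => Λ) fun _ => q := by
  by_contra hcon
  push Not at hcon
  apply hf
  have h0 : (xd (0 : Z a b → ℕ), yd (0 : Z a b → ℕ)) ∈ Λ := by
    have h1 : xd (0 : Z a b → ℕ) = 0 := by simp [xd]
    have h2 : yd (0 : Z a b → ℕ) = 0 := by simp [yd]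
    rw [h1, h2]
    exact hΛ
  -- the form with the coefficients `f`
  let F : MvPolynomial (Z a b) ℂ :=
    ∑ α : {α // α ∈ A}, tcr (fun i => (X i : MvPolynomial (Z a b) ℂ)) α.1 0 * C (f α)
  have hF : F = 0 := by
    refine MvPolynomial.funext fun q => ?_
    rw [map_zero]
    have h1 := hcon q
    rw [Sys.mem_V] at h1
    have h2 := h1 () ⟨0, h0⟩
    simp only [F]
    rw [map_sum]
    refine Eq.trans (sum_congr rfl fun α _ => ?_) h2
    rw [map_mul, eval_C]
    rfl
  have hm : ∀ α : {α // α ∈ A}, tcr (fun i => (X i : MvPolynomial (Z a b) ℂ)) α.1 0 =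
      monomial (Finsupp.equivFunOnFinite.symm α.1) 1 := by
    intro α
    unfold tcr
    rw [MvPolynomial.monomial_eq, C_1, one_mul, Finsupp.prod_fintype _ _ (fun i => pow_zero _)]
    refine prod_congr rfl fun i _ => ?_
    simp
  funext α
  have h3 : MvPolynomial.coeff (Finsupp.equivFunOnFinite.symm α.1) F = f α := by
    simp only [F]
    rw [coeff_sum]
    rw [sum_eq_single α]
    · rw [hm α, mul_comm, coeff_C_mul, coeff_monomial, if_pos rfl, mul_one]
    · intro β _ hβ
      rw [hm β, mul_comm, coeff_C_mul, coeff_monomial, if_neg, mul_zero]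
      intro h
      exact hβ (Subtype.ext (Finsupp.equivFunOnFinite.symm.injective h))
    · intro h
      exact absurd (mem_univ α) h
  rw [hF, coeff_zero] at h3
  exact h3.symm

end Pool.Agent.LK
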