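import Pool.Agent.LK.Defs

/-!
# LK6: the abstract induction of the non-critical half (pure arithmetic)

`PhaseP th s`: for all `q` and `i ≤ (R - rk q) ω`, `g q (s + i b) ≤ max (V q (s + i b)) (th (rk q))`.
-/

set_option autoImplicit false

namespace Pool.Agent.LK

open Multiset

section

variable {Q T : Type}

theorem phase_vir_zero (n : ℕ) (sz : T → ℕ) : vir n sz 0 = n := by
  unfold vir
  simp

theorem phase_vir_cons (n : ℕ) (sz : T → ℕ) (t : T) (s : Multiset T) :
    vir n sz (t ::ₘ s) = vir n sz s - sz t := by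
  unfold vir
  rw [Multiset.map_cons, Multiset.sum_cons]
  push_cast
  ring

/-- The induction hypothesis with the thresholds `th`. -/
def PhaseP (g : Q → Multiset T → ℕ) (N : Q → ℕ) (sz : Q → T → ℕ) (rk : Q → ℕ) (b : T) (R ω : ℕ)
    (th : ℕ → ℤ) (s : Multiset T) : Prop :=
  ∀ q, ∀ i ≤ (R - rk q) * ω, (g q (s + replicate i b) : ℤ) ≤
    max (vir (N q) (sz q) (s + replicate i b)) (th (rk q))

variable {g : Q → Multiset T → ℕ} {N : Q → ℕ} {sz : Q → T → ℕ} {rk : Q → ℕ} {b : T} {R ω : ℕ}

theorem PhaseP.mono (hrk : ∀ q, 1 ≤ rk q ∧ rk q ≤ R) {th th' : ℕ → ℤ} {s : Multiset T}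
    (h : PhaseP g N sz rk b R ω th s) (h' : ∀ k, 1 ≤ k → k ≤ R → th k ≤ th' k) :
    PhaseP g N sz rk b R ω th' s :=
  fun q i hi => (h q i hi).trans (max_le_max le_rfl (h' _ (hrk q).1 (hrk q).2))

theorem phase_vir_le (A0 : ∀ q, g q 0 = N q) (A2 : ∀ q s t, g q s ≤ g q (t ::ₘ s) + sz q t)
    (q : Q) (s : Multiset T) : vir (N q) (sz q) s ≤ g q s := by
  induction s using Multiset.induction_on with
  | empty => rw [phase_vir_zero, A0]
  | cons t s ih =>
    rw [phase_vir_cons]
    have h1 : (g q s : ℤ) ≤ g q (t ::ₘ s) + sz q t := by exact_mod_cast A2 q s t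
    linarith

theorem phase_le_add (A2 : ∀ q s t, g q s ≤ g q (t ::ₘ s) + sz q t) (q : Q) (s : Multiset T)
    (i i' : ℕ) : g q (s + replicate i b) ≤ g q (s + replicate (i + i') b) + i' * sz q b := by
  induction i' with
  | zero => simp
  | succ i' ih =>
    have h1 := A2 q (s + replicate (i + i') b) b
    have h2 : b ::ₘ (s + replicate (i + i') b) = s + replicate (i + (i' + 1)) b := by
      rw [← add_assoc i i' 1, Multiset.replicate_succ, Multiset.add_cons]
    rw [h2] at h1
    have h3 : (i' + 1) * sz q b = i' * sz q b + sz q b := by ring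
    omega

/-- One point, the common part. -/
theorem phase_one (A0 : ∀ q, g q 0 = N q) (A1 : ∀ q s t, g q (t ::ₘ s) ≤ g q s)
    (A2 : ∀ q s t, g q s ≤ g q (t ::ₘ s) + sz q t) (hrk : ∀ q, 1 ≤ rk q ∧ rk q ≤ R)
    (hb : ∀ q, sz q b ≤ ω) (q : Q) (s : Multiset T) (i : ℕ) (hi : i ≤ (R - rk q) * ω) (t : T)
    (σ : ℕ) (hσ : sz q t ≤ σ) (hσω : σ ≤ ω)
    (A3 : (sz q t - 1) * sz q b < g q (s + replicate i b) →
      g q (t ::ₘ (s + replicate i b)) + sz q t = g q (s + replicate i b) ∨
      ∃ i' < sz q t, ∃ q', rk q' < rk q ∧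
        g q (s + replicate (i + i') b) ≤ g q' (s + replicate (i + i') b) ∧
        vir (N q') (sz q') (s + replicate (i + i') b) <
          vir (N q) (sz q) (s + replicate (i + i') b))
    (th : ℕ → ℤ) (th' : ℤ)
    (hP : (g q (s + replicate i b) : ℤ) ≤
      max (vir (N q) (sz q) (s + replicate i b)) (th (rk q)))
    (hP' : ∀ q', rk q' < rk q → ∀ i' ≤ (R - rk q') * ω,
      (g q' (s + replicate i' b) : ℤ) ≤
        max (vir (N q') (sz q') (s + replicate i' b)) (th (rk q')))
    (h1 : th (rk q) - sz q t ≤ th') (h2 : (((σ - 1) * ω : ℕ) : ℤ) ≤ th')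
    (h3 : ∀ k', 1 ≤ k' → k' < rk q → th k' + σ * ω ≤ th') :
    (g q (t ::ₘ (s + replicate i b)) : ℤ) ≤
      max (vir (N q) (sz q) (t ::ₘ (s + replicate i b))) th' := by
  have hle : (g q (t ::ₘ (s + replicate i b)) : ℤ) ≤ g q (s + replicate i b) := by
    exact_mod_cast A1 q _ t
  rcases Nat.lt_or_ge ((sz q t - 1) * sz q b) (g q (s + replicate i b)) with hlt | hge
  · rcases A3 hlt with h | ⟨i', hi', q', hq', h4, h5⟩
    · have h' : (g q (t ::ₘ (s + replicate i b)) : ℤ) + sz q t = g q (s + replicate i b) := by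
        exact_mod_cast h
      rw [phase_vir_cons]
      rcases le_max_iff.1 hP with h6 | h6
      · exact le_max_of_le_left (by linarith)
      · exact le_max_of_le_right (by linarith)
    · have hq := hrk q
      have hiω : i + i' ≤ (R - rk q') * ω := by
        have h6 : (R - rk q + 1) * ω ≤ (R - rk q') * ω := Nat.mul_le_mul_right ω (by omega)
        have h7 : (R - rk q + 1) * ω = (R - rk q) * ω + ω := by ring
        omega
      have h6 := hP' q' hq' (i + i') hiω
      have h7 := phase_vir_le A0 A2 q (s + replicate (i + i') b)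
      have h8 : (g q (s + replicate (i + i') b) : ℤ) ≤ g q' (s + replicate (i + i') b) := by
        exact_mod_cast h4
      have h9 : (g q' (s + replicate (i + i') b) : ℤ) ≤ th (rk q') := by
        rcases le_max_iff.1 h6 with h10 | h10
        · exact absurd (lt_of_le_of_lt h10 h5) (not_lt.2 (h7.trans h8))
        · exact h10
      have h10 : (g q (s + replicate i b) : ℤ) ≤
          g q (s + replicate (i + i') b) + ((i' * sz q b : ℕ) : ℤ) := by
        exact_mod_cast phase_le_add A2 q s i i'
      have h11 : ((i' * sz q b : ℕ) : ℤ) ≤ σ * ω := by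
        exact_mod_cast Nat.mul_le_mul (by omega : i' ≤ σ) (hb q)
      have h12 := h3 (rk q') (hrk q').1 hq'
      exact le_max_of_le_right (by linarith)
  · refine le_max_of_le_right (hle.trans (le_trans ?_ h2))
    exact_mod_cast hge.trans (Nat.mul_le_mul (by omega) (hb q))

/-- The start. -/
theorem phase_start (S : Multiset T) (hω : 1 ≤ ω) (A0 : ∀ q, g q 0 = N q)
    (A1 : ∀ q s t, g q (t ::ₘ s) ≤ g q s)
    (A2 : ∀ q s t, g q s ≤ g q (t ::ₘ s) + sz q t) (hrk : ∀ q, 1 ≤ rk q ∧ rk q ≤ R)
    (hb : ∀ q, sz q b ≤ ω)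
    (A3 : ∀ q, ∀ s ≤ S, ∀ i ≤ (R - rk q) * ω, ∀ t, (t ∈ S ∨ t = b) →
      (sz q t - 1) * sz q b < g q (s + replicate i b) →
      g q (t ::ₘ (s + replicate i b)) + sz q t = g q (s + replicate i b) ∨
      ∃ i' < sz q t, ∃ q', rk q' < rk q ∧
        g q (s + replicate (i + i') b) ≤ g q' (s + replicate (i + i') b) ∧
        vir (N q') (sz q') (s + replicate (i + i') b) <
          vir (N q) (sz q) (s + replicate (i + i') b)) :
    PhaseP g N sz rk b R ω (fun k => (k : ℤ) * (2 * (ω * ω) : ℕ)) 0 := by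
  have key : ∀ r : ℕ, ∀ q, rk q = r → ∀ i ≤ (R - rk q) * ω, (g q (0 + replicate i b) : ℤ) ≤
      max (vir (N q) (sz q) (0 + replicate i b)) ((rk q : ℤ) * (2 * (ω * ω) : ℕ)) := by
    intro r
    induction r using Nat.strong_induction_on with
    | _ r ih =>
      intro q hq i
      have hww : (0 : ℤ) ≤ ((ω * ω : ℕ) : ℤ) := Int.natCast_nonneg _
      have hr1 : (1 : ℤ) ≤ rk q := by exact_mod_cast (hrk q).1
      induction i with
      | zero =>
        intro _
        rw [Multiset.replicate_zero, add_zero, A0, phase_vir_zero]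
        exact le_max_left _ _
      | succ i ihi =>
        intro hi
        have e : 0 + replicate (i + 1) b = b ::ₘ (0 + replicate i b) := by
          rw [Multiset.replicate_succ, Multiset.add_cons]
        rw [e]
        refine phase_one A0 A1 A2 hrk hb q 0 i (by omega) b ω (hb q) le_rfl
          (A3 q 0 (Multiset.zero_le S) i (by omega) b (Or.inr rfl))
          (fun k => (k : ℤ) * (2 * (ω * ω) : ℕ)) _ (ihi (by omega))
          (fun q' hq' i' hi' => ih (rk q') (by omega) q' rfl i' hi') ?_ ?_ ?_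
        · have : (0 : ℤ) ≤ sz q b := Int.natCast_nonneg _
          show (rk q : ℤ) * (2 * (ω * ω) : ℕ) - sz q b ≤ _
          linarith
        · have h1 : (((ω - 1) * ω : ℕ) : ℤ) ≤ ((ω * ω : ℕ) : ℤ) := by
            exact_mod_cast Nat.mul_le_mul_right ω (Nat.sub_le ω 1)
          have h2 : (1 : ℤ) * ((2 * (ω * ω) : ℕ) : ℤ) ≤ (rk q : ℤ) * (2 * (ω * ω) : ℕ) :=
            mul_le_mul_of_nonneg_right hr1 (Int.natCast_nonneg _)
          push_cast at h1 h2 hww ⊢
          linarith
        · intro k' _ hk'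
          have h2 : ((k' : ℤ) + 1) * ((2 * (ω * ω) : ℕ) : ℤ) ≤ (rk q : ℤ) * (2 * (ω * ω) : ℕ) :=
            mul_le_mul_of_nonneg_right (by exact_mod_cast hk') (Int.natCast_nonneg _)
          show (k' : ℤ) * (2 * (ω * ω) : ℕ) + (ω : ℤ) * ω ≤ _
          push_cast at h2 hww ⊢
          linarith
  exact fun q i hi => key (rk q) q rfl i hi

/-- The thresholds. -/
def phase_th (A B x : ℕ) (k : ℕ) : ℤ := max ((k : ℤ) * A - x) ((k : ℤ) * B)

/-- A run through points of sizes at most `σ`. -/
theorem phase_run (S : Multiset T) (A0 : ∀ q, g q 0 = N q)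
    (A1 : ∀ q s t, g q (t ::ₘ s) ≤ g q s)
    (A2 : ∀ q s t, g q s ≤ g q (t ::ₘ s) + sz q t) (hrk : ∀ q, 1 ≤ rk q ∧ rk q ≤ R)
    (hb : ∀ q, sz q b ≤ ω)
    (A3 : ∀ q, ∀ s ≤ S, ∀ i ≤ (R - rk q) * ω, ∀ t, (t ∈ S ∨ t = b) →
      (sz q t - 1) * sz q b < g q (s + replicate i b) →
      g q (t ::ₘ (s + replicate i b)) + sz q t = g q (s + replicate i b) ∨
      ∃ i' < sz q t, ∃ q', rk q' < rk q ∧
        g q (s + replicate (i + i') b) ≤ g q' (s + replicate (i + i') b) ∧
        vir (N q') (sz q') (s + replicate (i + i') b) <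
          vir (N q) (sz q) (s + replicate (i + i') b))
    (lo : T → ℕ) (σ : ℕ) (hσω : σ ≤ ω) (A B : ℕ) (hB : σ * ω ≤ B) (s U : Multiset T)
    (hU : U + s ≤ S) (hlo : ∀ q, ∀ t ∈ U, lo t ≤ sz q t) (hsz : ∀ q, ∀ t ∈ U, sz q t ≤ σ)
    (hA : ∀ t ∈ U, lo t + σ * ω ≤ A) (x : ℕ)
    (hP : PhaseP g N sz rk b R ω (phase_th A B x) s) :
    PhaseP g N sz rk b R ω (phase_th A B (x + (U.map lo).sum)) (U + s) := by
  induction U using Multiset.induction_on with
  | empty => simpa using hP
  | cons t U ih =>
    have hUS : U + s ≤ S := by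
      refine le_trans ?_ hU
      rw [Multiset.cons_add]
      exact Multiset.le_cons_self _ _
    have htS : t ∈ S := Multiset.mem_of_le hU (by rw [Multiset.cons_add]; exact Multiset.mem_cons_self _ _)
    have h := ih hUS (fun q t' ht' => hlo q t' (Multiset.mem_cons_of_mem ht'))
      (fun q t' ht' => hsz q t' (Multiset.mem_cons_of_mem ht'))
      (fun t' ht' => hA t' (Multiset.mem_cons_of_mem ht'))
    intro q i hi
    rw [Multiset.cons_add, Multiset.cons_add, Multiset.map_cons, Multiset.sum_cons]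
    set X := x + (U.map lo).sum with hX
    have hlt := hlo q t (Multiset.mem_cons_self _ _)
    have hAt := hA t (Multiset.mem_cons_self _ _)
    have hq1 : (1 : ℤ) ≤ rk q := by exact_mod_cast (hrk q).1
    have hB0 : (0 : ℤ) ≤ (B : ℤ) := Int.natCast_nonneg _
    have hBz : (σ : ℤ) * ω ≤ B := by exact_mod_cast hB
    have hAz : (lo t : ℤ) + σ * ω ≤ A := by exact_mod_cast hAt
    have hl : (lo t : ℤ) ≤ sz q t := by exact_mod_cast hlt
    have hA0 : (0 : ℤ) ≤ (A : ℤ) := Int.natCast_nonneg _
    have e1 : ((x + (lo t + (U.map lo).sum) : ℕ) : ℤ) = X + lo t := by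
      rw [hX]
      push_cast
      ring
    refine phase_one A0 A1 A2 hrk hb q (U + s) i hi t σ (hsz q t (Multiset.mem_cons_self _ _)) hσω
      (A3 q (U + s) hUS i hi t (Or.inl htS)) (phase_th A B X) _ (h q i hi)
      (fun q' _ i' hi' => h q' i' hi') ?_ ?_ ?_
    · unfold phase_th
      rw [e1, sub_le_iff_le_add]
      refine max_le ?_ ?_
      · have := le_max_left ((rk q : ℤ) * A - (X + lo t)) ((rk q : ℤ) * B)
        linarith
      · have := le_max_right ((rk q : ℤ) * A - (X + lo t)) ((rk q : ℤ) * B)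
        have h0 : (0 : ℤ) ≤ sz q t := Int.natCast_nonneg _
        linarith
    · unfold phase_th
      refine le_max_of_le_right ?_
      have h1 : (((σ - 1) * ω : ℕ) : ℤ) ≤ ((σ * ω : ℕ) : ℤ) := by
        exact_mod_cast Nat.mul_le_mul_right ω (Nat.sub_le σ 1)
      have h2 : (1 : ℤ) * (B : ℤ) ≤ (rk q : ℤ) * B := mul_le_mul_of_nonneg_right hq1 hB0
      push_cast at h1 ⊢
      linarith
    · intro k' _ hk'
      have hk : ((k' : ℤ) + 1) ≤ rk q := by exact_mod_cast hk'
      have h1 : ((k' : ℤ) + 1) * A ≤ (rk q : ℤ) * A := mul_le_mul_of_nonneg_right hk hA0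
      have h2 : ((k' : ℤ) + 1) * B ≤ (rk q : ℤ) * B := mul_le_mul_of_nonneg_right hk hB0
      unfold phase_th
      rw [e1, ← le_sub_iff_add_le]
      refine max_le ?_ ?_
      · have := le_max_left ((rk q : ℤ) * A - (X + lo t)) ((rk q : ℤ) * B)
        linarith
      · have := le_max_right ((rk q : ℤ) * A - (X + lo t)) ((rk q : ℤ) * B)
        linarith

/-- A run through points of class at most `1`. -/
theorem phase_run1 (S : Multiset T) (A1 : ∀ q s t, g q (t ::ₘ s) ≤ g q s) (cls : T → ℕ)
    (A4 : ∀ q s, ∀ t ∈ S, cls t ≤ 1 → g q s ≠ 0 → g q (t ::ₘ s) + sz q t ≤ g q s)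
    (lo : T → ℕ) (A : ℕ) (s U : Multiset T)
    (hU : U + s ≤ S) (hlo : ∀ q, ∀ t ∈ U, lo t ≤ sz q t) (hcls : ∀ t ∈ U, cls t ≤ 1) (x : ℕ)
    (hP : PhaseP g N sz rk b R ω (phase_th A 0 x) s) :
    PhaseP g N sz rk b R ω (phase_th A 0 (x + (U.map lo).sum)) (U + s) := by
  induction U using Multiset.induction_on with
  | empty => simpa using hP
  | cons t U ih =>
    have hUS : U + s ≤ S := by
      refine le_trans ?_ hU
      rw [Multiset.cons_add]
      exact Multiset.le_cons_self _ _
    have htS : t ∈ S := Multiset.mem_of_le hU (by rw [Multiset.cons_add]; exact Multiset.mem_cons_self _ _)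
    have h := ih hUS (fun q t' ht' => hlo q t' (Multiset.mem_cons_of_mem ht'))
      (fun t' ht' => hcls t' (Multiset.mem_cons_of_mem ht'))
    intro q i hi
    rw [Multiset.cons_add, Multiset.cons_add, Multiset.map_cons, Multiset.sum_cons]
    set X := x + (U.map lo).sum with hX
    have hl : (lo t : ℤ) ≤ sz q t := by exact_mod_cast hlo q t (Multiset.mem_cons_self _ _)
    have e1 : ((x + (lo t + (U.map lo).sum) : ℕ) : ℤ) = X + lo t := by
      rw [hX]
      push_cast
      ring
    have hle : g q (t ::ₘ (U + s + replicate i b)) ≤ g q (U + s + replicate i b) := A1 q _ t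
    by_cases h0 : g q (U + s + replicate i b) = 0
    · have h1 : g q (t ::ₘ (U + s + replicate i b)) = 0 := by omega
      rw [h1]
      unfold phase_th
      refine le_max_of_le_right (le_max_of_le_right ?_)
      simp
    · have h1 := A4 q _ t htS (hcls t (Multiset.mem_cons_self _ _)) h0
      have h1' : (g q (t ::ₘ (U + s + replicate i b)) : ℤ) + sz q t ≤
          g q (U + s + replicate i b) := by exact_mod_cast h1
      rw [phase_vir_cons]
      rcases le_max_iff.1 (h q i hi) with h6 | h6
      · exact le_max_of_le_left (by linarith)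
      · refine le_max_of_le_right ?_
        unfold phase_th at h6 ⊢
        rw [e1]
        rcases le_max_iff.1 h6 with h7 | h7
        · exact le_max_of_le_left (by linarith)
        · refine le_max_of_le_right ?_
          have h0 : (0 : ℤ) ≤ sz q t := Int.natCast_nonneg _
          linarith

end

theorem phases {Q T : Type} (g : Q → Multiset T → ℕ) (N : Q → ℕ)
    (sz : Q → T → ℕ) (rk : Q → ℕ) (b : T) (lo : T → ℕ) (cls : T → ℕ) (sg : ℕ → ℕ)
    (S : Multiset T) (R ω μ : ℕ) (hμ : 1 ≤ μ) (hω : 1 ≤ ω)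
    (hrk : ∀ q, 1 ≤ rk q ∧ rk q ≤ R)
    (A0 : ∀ q, g q 0 = N q)
    (A1 : ∀ q s t, g q (t ::ₘ s) ≤ g q s)
    (A2 : ∀ q s t, g q s ≤ g q (t ::ₘ s) + sz q t)
    (A3 : ∀ q, ∀ s ≤ S, ∀ i ≤ (R - rk q) * ω, ∀ t, (t ∈ S ∨ t = b) →
      (sz q t - 1) * sz q b < g q (s + replicate i b) →
      g q (t ::ₘ (s + replicate i b)) + sz q t = g q (s + replicate i b) ∨
      ∃ i' < sz q t, ∃ q', rk q' < rk q ∧
        g q (s + replicate (i + i') b) ≤ g q' (s + replicate (i + i') b) ∧
        vir (N q') (sz q') (s + replicate (i + i') b) <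
          vir (N q) (sz q) (s + replicate (i + i') b))
    (A4 : ∀ q s, ∀ t ∈ S, cls t ≤ 1 → g q s ≠ 0 → g q (t ::ₘ s) + sz q t ≤ g q s)
    (hb : ∀ q, sz q b ≤ ω)
    (hsz : ∀ q, ∀ t ∈ S, sz q t ≤ ω ∧ sz q t ≤ sg (cls t))
    (hlo : ∀ q, ∀ t ∈ S, lo t ≤ sz q t)
    (hsg : ∀ c, 1 ≤ c → c < μ → 2 * sg c ≤ sg (c + 1)) (hsgμ : sg μ ≤ ω)
    (m2 : ∀ t, 1 ≤ t → t < μ →
      R * (sg (t + 1) * ω) ≤ ((S.filter fun x => cls x = t).map lo).sum)
    (m3 : R * (2 * (ω * ω)) ≤ ((S.filter fun x => cls x = μ).map lo).sum) (q : Q) :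
    (g q S : ℤ) ≤ max 0 (vir (N q) (sz q) S) := by
  classical
  set A : ℕ → ℕ := fun c => if c < μ then sg (c + 1) * ω else 2 * (ω * ω) with hA
  have hAμ : A μ = 2 * (ω * ω) := by rw [hA]; simp
  have hAlt : ∀ c, c < μ → A c = sg (c + 1) * ω := fun c hc => by rw [hA]; simp [hc]
  have hmass : ∀ c, 1 ≤ c → c ≤ μ → R * A c ≤ ((S.filter fun x => cls x = c).map lo).sum := by
    intro c h1 h2
    rcases Nat.lt_or_ge c μ with h3 | h3
    · rw [hAlt c h3]
      exact m2 c h1 h3
    · obtain rfl : c = μ := by omega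
      rw [hAμ]
      exact m3
  have hsgω : ∀ i, i < μ → sg (μ - i) ≤ ω := by
    intro i
    induction i with
    | zero => exact fun _ => hsgμ
    | succ i ih =>
      intro hi
      have h1 := hsg (μ - (i + 1)) (by omega) (by omega)
      have h2 := ih (by omega)
      rw [show μ - (i + 1) + 1 = μ - i by omega] at h1
      omega
  have hsgω' : ∀ c, 1 ≤ c → c ≤ μ → sg c ≤ ω := by
    intro c h1 h2
    have := hsgω (μ - c) (by omega)
    rwa [show μ - (μ - c) = c by omega] at this
  -- `lo` plus the window is at most `A c`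
  have hAc : ∀ c, 1 ≤ c → c ≤ μ → ∀ t ∈ S, cls t = c → lo t + sg c * ω ≤ A c := by
    intro c h1 h2 t ht hct
    have h3 := hlo q t ht
    obtain ⟨h4, h5⟩ := hsz q t ht
    rw [hct] at h5
    rcases Nat.lt_or_ge c μ with h6 | h6
    · rw [hAlt c h6]
      have h7 := Nat.mul_le_mul_right ω (hsg c h1 h6)
      have h8 : sg c * 1 ≤ sg c * ω := Nat.mul_le_mul_left _ hω
      have h9 : 2 * sg c * ω = sg c * ω + sg c * ω := by ring
      omega
    · obtain rfl : c = μ := by omega
      rw [hAμ]
      have h7 := Nat.mul_le_mul_right ω hsgμ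
      have h8 : ω * 1 ≤ ω * ω := Nat.mul_le_mul_left _ hω
      omega
  have key : ∀ i, i < μ → PhaseP g N sz rk b R ω (fun k => (k : ℤ) * (A (μ - i) : ℕ))
      (S.filter fun x => μ - i < cls x) := by
    intro i
    induction i with
    | zero =>
      intro _
      rw [Nat.sub_zero, hAμ]
      have h0 := phase_start S hω A0 A1 A2 hrk hb A3
      have h1 : PhaseP g N sz rk b R ω (phase_th (2 * (ω * ω)) (2 * (ω * ω)) 0) 0 :=
        h0.mono hrk fun k _ _ => by
          unfold phase_th
          exact le_max_right _ _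
      have h2 := phase_run S A0 A1 A2 hrk hb A3 lo ω le_rfl (2 * (ω * ω)) (2 * (ω * ω)) (by omega)
        0 (S.filter fun x => μ < cls x) (by rw [add_zero]; exact Multiset.filter_le _ _)
        (fun q t ht => hlo q t (Multiset.mem_of_mem_filter ht))
        (fun q t ht => (hsz q t (Multiset.mem_of_mem_filter ht)).1)
        (fun t ht => by
          have h3 := hlo q t (Multiset.mem_of_mem_filter ht)
          have h4 := (hsz q t (Multiset.mem_of_mem_filter ht)).1
          have h8 : ω * 1 ≤ ω * ω := Nat.mul_le_mul_left _ hω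
          omega) 0 h1
      rw [add_zero] at h2
      refine h2.mono hrk fun k _ _ => ?_
      unfold phase_th
      refine max_le ?_ le_rfl
      have h5 : (0 : ℤ) ≤ ((0 + ((S.filter fun x => μ < cls x).map lo).sum : ℕ) : ℤ) :=
        Int.natCast_nonneg _
      linarith
    | succ i ih =>
      intro hi
      have h0 := ih (by omega)
      obtain ⟨c, hc⟩ : ∃ c, c = μ - i := ⟨_, rfl⟩
      have hc1 : 1 ≤ c := by omega
      have hcμ : c ≤ μ := by omega
      have e : μ - (i + 1) = c - 1 := by omega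
      rw [← hc] at h0
      rw [e]
      have hσ := hsgω' c hc1 hcμ
      have hBA : sg c * ω ≤ A c := by
        rcases Nat.lt_or_ge c μ with h6 | h6
        · rw [hAlt c h6]
          exact Nat.mul_le_mul_right ω (by have := hsg c hc1 h6; omega)
        · obtain rfl : c = μ := by omega
          rw [hAμ]
          have := Nat.mul_le_mul_right ω hsgμ
          omega
      have h1 : PhaseP g N sz rk b R ω (phase_th (A c) (sg c * ω) 0)
          (S.filter fun x => c < cls x) :=
        h0.mono hrk fun k _ _ => by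
          unfold phase_th
          refine le_max_of_le_left ?_
          push_cast
          linarith
      have hsplit : (S.filter fun x => cls x = c) + (S.filter fun x => c < cls x) =
          S.filter fun x => c - 1 < cls x := by
        have h3 := Multiset.filter_add_not (fun x => cls x = c) (S.filter fun x => c - 1 < cls x)
        rw [Multiset.filter_filter, Multiset.filter_filter] at h3
        rw [← h3]
        congr 1
        · refine Multiset.filter_congr fun x _ => ?_
          constructor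
          · exact fun h => ⟨h, by omega⟩
          · exact fun h => h.1
        · refine Multiset.filter_congr fun x _ => ?_
          constructor
          · exact fun h => ⟨by omega, by omega⟩
          · rintro ⟨h4, h5⟩
            omega
      have h2 := phase_run S A0 A1 A2 hrk hb A3 lo (sg c) hσ (A c) (sg c * ω) le_rfl
        (S.filter fun x => c < cls x) (S.filter fun x => cls x = c)
        (by rw [hsplit]; exact Multiset.filter_le _ _)
        (fun q t ht => hlo q t (Multiset.mem_of_mem_filter ht))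
        (fun q t ht => by
          have h3 := (hsz q t (Multiset.mem_of_mem_filter ht)).2
          have h4 : cls t = c := Multiset.of_mem_filter (p := fun x => cls x = c) ht
          rwa [h4] at h3)
        (fun t ht => hAc c hc1 hcμ t (Multiset.mem_of_mem_filter ht)
          (Multiset.of_mem_filter (p := fun x => cls x = c) ht))
        0 h1
      rw [hsplit] at h2
      refine h2.mono hrk fun k _ hk => ?_
      unfold phase_th
      have hm := hmass c hc1 hcμ
      have hAc1 : A (c - 1) = sg c * ω := by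
        rw [hAlt (c - 1) (by omega), show c - 1 + 1 = c by omega]
      refine max_le ?_ ?_
      · have h3 : (k : ℤ) * A c ≤ ((R * A c : ℕ) : ℤ) := by
          exact_mod_cast Nat.mul_le_mul_right (A c) hk
        have h4 : ((R * A c : ℕ) : ℤ) ≤
            ((0 + ((S.filter fun x => cls x = c).map lo).sum : ℕ) : ℤ) := by
          rw [zero_add]
          exact_mod_cast hm
        have h5 : (0 : ℤ) ≤ (k : ℤ) * (A (c - 1) : ℕ) :=
          mul_nonneg (Int.natCast_nonneg _) (Int.natCast_nonneg _)
        linarith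
      · rw [hAc1]
  -- the last run
  have h0 := key (μ - 1) (by omega)
  rw [show μ - (μ - 1) = 1 by omega] at h0
  have h1 : PhaseP g N sz rk b R ω (phase_th (A 1) 0 0) (S.filter fun x => 1 < cls x) :=
    h0.mono hrk fun k _ _ => by
      unfold phase_th
      refine le_max_of_le_left ?_
      push_cast
      linarith
  have hsplit : (S.filter fun x => ¬ 1 < cls x) + (S.filter fun x => 1 < cls x) = S := by
    rw [add_comm]
    exact Multiset.filter_add_not _ _
  have h2 := phase_run1 S A1 cls A4 lo (A 1) (S.filter fun x => 1 < cls x)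
    (S.filter fun x => ¬ 1 < cls x) (by rw [hsplit])
    (fun q t ht => hlo q t (Multiset.mem_of_mem_filter ht))
    (fun t ht => not_lt.1 (Multiset.of_mem_filter (p := fun x => ¬ 1 < cls x) ht)) 0 h1
  rw [hsplit] at h2
  have h3 := h2 q 0 (Nat.zero_le _)
  rw [Multiset.replicate_zero, add_zero] at h3
  have hm := hmass 1 le_rfl hμ
  have h4 : ((S.filter fun x => cls x = 1).map lo).sum ≤
      ((S.filter fun x => ¬ 1 < cls x).map lo).sum := by
    have h5 : (S.filter fun x => cls x = 1) ≤ S.filter fun x => ¬ 1 < cls x :=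
      Multiset.monotone_filter_right S fun x hx => by
        have : cls x = 1 := hx
        omega
    obtain ⟨u, hu⟩ := Multiset.le_iff_exists_add.1 h5
    rw [hu, Multiset.map_add, Multiset.sum_add]
    exact Nat.le_add_right _ _
  have h5 : phase_th (A 1) 0 (0 + ((S.filter fun x => ¬ 1 < cls x).map lo).sum) (rk q) ≤ 0 := by
    unfold phase_th
    refine max_le ?_ ?_
    · have h6 : (rk q : ℤ) * A 1 ≤ ((R * A 1 : ℕ) : ℤ) := by
        exact_mod_cast Nat.mul_le_mul_right (A 1) (hrk q).2
      have h7 : ((R * A 1 : ℕ) : ℤ) ≤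
          ((0 + ((S.filter fun x => ¬ 1 < cls x).map lo).sum : ℕ) : ℤ) := by
        rw [zero_add]
        exact_mod_cast hm.trans h4
      linarith
    · simp
  rw [max_comm]
  exact h3.trans (max_le_max le_rfl h5)

end Pool.Agent.LK
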