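import Pool.Agent.LK.Defs
import Pool.Agent.H51.TB.URank

/-!
# LK2: the number of independent conditions of a type

As `Pool/Agent/H21/TC/RankW.lean`: the position `q` is `1` at the first `X`-variable `c` and at a
`Y`-variable `c'` which is not a `J`-variable, `0` at the other variables.  The solutions of a type `Λ` at
`q` vanish at all exponents `α` for which the exponent obtained by putting `0` at `c` and `c'` has
bidegree in `Λ`.  They are counted by their piece.
-/

set_option autoImplicit false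

namespace Pool.Agent.LK

open Finset MvPolynomial Pool.Agent.H18.Ex Pool.Agent.H21.NX Pool.Agent.H18.Ta Pool.Agent.H51.TB

private theorem RankL_card_Sx {ι : Type} [Fintype ι] [DecidableEq ι] (n : ℕ) :
    (Sx ι n).card = Nat.multichoose (Fintype.card ι) n := by
  rw [← card_univ, ← card_finsuppAntidiag_nat_eq_multichoose]
  symm
  apply card_bij (fun (α : ι →₀ ℕ) _ => (⇑α : ι → ℕ))
  · intro α hα
    rw [mem_finsuppAntidiag] at hα
    exact mem_Sx.2 hα.1
  · intro α _ β _ h
    exact DFunLike.coe_injective h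
  · intro f hf
    refine ⟨Finsupp.equivFunOnFinite.symm f, ?_, rfl⟩
    rw [mem_finsuppAntidiag]
    exact ⟨mem_Sx.1 hf, subset_univ _⟩

/-- the special variables -/
private def RankL_sp {a b : ℕ} (c : Fin a) (c' : Fin b) : Z a b → Prop
  | Sum.inl i => i = c
  | Sum.inr i => i = c'

private instance {a b : ℕ} (c : Fin a) (c' : Fin b) : DecidablePred (RankL_sp c c') := fun z => by
  rcases z with i | i <;> unfold RankL_sp <;> infer_instance

/-- the special position -/
private noncomputable def RankL_q {a b : ℕ} (c : Fin a) (c' : Fin b) (z : Z a b) : ℂ :=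
  if RankL_sp c c' z then 1 else 0

/-- `α` with the special coordinates removed -/
private def RankL_red {a b : ℕ} (c : Fin a) (c' : Fin b) (α : Z a b → ℕ) (z : Z a b) : ℕ :=
  if RankL_sp c c' z then 0 else α z

private theorem RankL_sp_inl {a b : ℕ} (c : Fin a) (c' : Fin b) : RankL_sp c c' (Sum.inl c) := rfl

private theorem RankL_sp_inr {a b : ℕ} (c : Fin a) (c' : Fin b) : RankL_sp c c' (Sum.inr c') := rfl

private theorem RankL_nsp_inl {a b : ℕ} (c : Fin a) (c' : Fin b) {i : Fin a} (h : i ≠ c) :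
    ¬ RankL_sp c c' (Sum.inl i) := h

private theorem RankL_nsp_inr {a b : ℕ} (c : Fin a) (c' : Fin b) {i : Fin b} (h : i ≠ c') :
    ¬ RankL_sp c c' (Sum.inr i) := h

private theorem RankL_xd' {a b : ℕ} (c : Fin a) (α : Z a b → ℕ) :
    xd α = α (Sum.inl c) + ∑ i : {i // i ≠ c}, α (Sum.inl i.1) := by
  unfold xd
  exact Fintype.sum_eq_add_sum_subtype_ne (fun i => α (Sum.inl i)) c

private theorem RankL_yd' {a b : ℕ} (c' : Fin b) (α : Z a b → ℕ) :
    yd α = α (Sum.inr c') + ∑ i : {i // i ≠ c'}, α (Sum.inr i.1) := by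
  unfold yd
  exact Fintype.sum_eq_add_sum_subtype_ne (fun i => α (Sum.inr i)) c'

private theorem RankL_xd_red {a b : ℕ} (c : Fin a) (c' : Fin b) (α : Z a b → ℕ) :
    xd (RankL_red c c' α) = ∑ i : {i // i ≠ c}, α (Sum.inl i.1) := by
  rw [RankL_xd' c]
  have h0 : RankL_red c c' α (Sum.inl c) = 0 := by
    unfold RankL_red
    rw [if_pos (RankL_sp_inl c c')]
  rw [h0, Nat.zero_add]
  refine sum_congr rfl fun i _ => ?_
  unfold RankL_red
  rw [if_neg (RankL_nsp_inl c c' i.2)]

private theorem RankL_yd_red {a b : ℕ} (c : Fin a) (c' : Fin b) (α : Z a b → ℕ) :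
    yd (RankL_red c c' α) = ∑ i : {i // i ≠ c'}, α (Sum.inr i.1) := by
  rw [RankL_yd' c']
  have h0 : RankL_red c c' α (Sum.inr c') = 0 := by
    unfold RankL_red
    rw [if_pos (RankL_sp_inr c c')]
  rw [h0, Nat.zero_add]
  refine sum_congr rfl fun i _ => ?_
  unfold RankL_red
  rw [if_neg (RankL_nsp_inr c c' i.2)]

private theorem RankL_xd {a b : ℕ} (c : Fin a) (c' : Fin b) (α : Z a b → ℕ) :
    xd α = α (Sum.inl c) + xd (RankL_red c c' α) := by
  rw [RankL_xd_red, RankL_xd' c]

private theorem RankL_yd {a b : ℕ} (c : Fin a) (c' : Fin b) (α : Z a b → ℕ) :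
    yd α = α (Sum.inr c') + yd (RankL_red c c' α) := by
  rw [RankL_yd_red, RankL_yd' c']

private theorem RankL_eq {a b d j : ℕ} (c : Fin a) (c' : Fin b) {α α' : Z a b → ℕ}
    (h : α ∈ Bx a b d j) (h' : α' ∈ Bx a b d j) (hr : RankL_red c c' α = RankL_red c c' α') :
    α = α' := by
  rw [mem_Bx] at h h'
  have hx := RankL_xd c c' α
  have hx' := RankL_xd c c' α'
  have hy := RankL_yd c c' α
  have hy' := RankL_yd c c' α'
  rw [hr] at hx hy
  funext z
  by_cases hz : RankL_sp c c' z
  · rcases z with i | i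
    · have : i = c := hz
      subst this
      omega
    · have : i = c' := hz
      subst this
      omega
  · have := congrFun hr z
    unfold RankL_red at this
    rwa [if_neg hz, if_neg hz] at this

private theorem RankL_tcr {a b : ℕ} (c : Fin a) (c' : Fin b) (α β : Z a b → ℕ) :
    tcr (RankL_q c c') α (RankL_red c c' β) =
      if RankL_red c c' α = RankL_red c c' β then 1 else 0 := by
  unfold tcr
  split_ifs with h
  · apply prod_eq_one
    intro z _
    have h1 := congrFun h z
    unfold RankL_q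
    by_cases hz : RankL_sp c c' z
    · have h2 : RankL_red c c' β z = 0 := by
        unfold RankL_red
        rw [if_pos hz]
      rw [if_pos hz, h2]
      simp
    · have h2 : RankL_red c c' α z = α z := by
        unfold RankL_red
        rw [if_neg hz]
      rw [if_neg hz, ← h1, h2]
      simp
  · have h1 : ∃ z, RankL_red c c' α z ≠ RankL_red c c' β z := by
      by_contra hc
      push Not at hc
      exact h (funext hc)
    obtain ⟨z, hz⟩ := h1
    apply prod_eq_zero (mem_univ z)
    have hsp : ¬ RankL_sp c c' z := by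
      intro hs
      apply hz
      unfold RankL_red
      rw [if_pos hs, if_pos hs]
    have h2 : RankL_red c c' α z = α z := by
      unfold RankL_red
      rw [if_neg hsp]
    rw [h2] at hz
    unfold RankL_q
    rw [if_neg hsp]
    rcases Nat.lt_or_gt_of_ne hz with h3 | h3
    · rw [Nat.choose_eq_zero_of_lt h3]
      simp
    · rw [zero_pow (by omega), mul_zero]

/-- the exponents whose coefficients vanish -/
private def RankL_T {K a b : ℕ} (d j : ℕ) (o : Fin K → Fin b) (D : Finset (Fin K → ℕ)) (c : Fin a)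
    (c' : Fin b) (Λ : Finset (ℕ × ℕ)) : Finset (Z a b → ℕ) :=
  (Bd a b d j o D).filter fun α => (xd (RankL_red c c' α), yd (RankL_red c c' α)) ∈ Λ

/-- the exponent with given coordinates off the special variables -/
private noncomputable def RankL_ext {K a b : ℕ} (c : Fin a) (c' : Fin b) (o : Fin K → Fin b)
    (k : Fin K → ℕ) (s s' : ℕ)
    (w : ({i : Fin a // i ≠ c} → ℕ) × ({i : Fin b // i ≠ c' ∧ ∀ t, i ≠ o t} → ℕ)) : Z a b → ℕ
  | Sum.inl i => if h : i = c then s else w.1 ⟨i, h⟩
  | Sum.inr i => if h : i = c' then s' else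
      open Classical in if h2 : ∃ t, i = o t then k (Classical.choose h2) else
        w.2 ⟨i, h, fun t ht => h2 ⟨t, ht⟩⟩

private theorem RankL_ext_inl {K a b : ℕ} (c : Fin a) (c' : Fin b) (o : Fin K → Fin b)
    (k : Fin K → ℕ) (s s' : ℕ)
    (w : ({i : Fin a // i ≠ c} → ℕ) × ({i : Fin b // i ≠ c' ∧ ∀ t, i ≠ o t} → ℕ))
    (i : {i : Fin a // i ≠ c}) : RankL_ext c c' o k s s' w (Sum.inl i.1) = w.1 i := by
  unfold RankL_ext
  simp only
  rw [dif_neg i.2]

private theorem RankL_ext_inr {K a b : ℕ} (c : Fin a) (c' : Fin b) (o : Fin K → Fin b)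
    (k : Fin K → ℕ) (s s' : ℕ)
    (w : ({i : Fin a // i ≠ c} → ℕ) × ({i : Fin b // i ≠ c' ∧ ∀ t, i ≠ o t} → ℕ))
    (i : {i : Fin b // i ≠ c' ∧ ∀ t, i ≠ o t}) :
    RankL_ext c c' o k s s' w (Sum.inr i.1) = w.2 i := by
  unfold RankL_ext
  simp only
  rw [dif_neg i.2.1, dif_neg (by
    rintro ⟨t, ht⟩
    exact i.2.2 t ht)]

private theorem RankL_ext_o {K a b : ℕ} (c : Fin a) (c' : Fin b) (o : Fin K → Fin b)
    (ho : Function.Injective o) (hc' : ∀ t, o t ≠ c') (k : Fin K → ℕ) (s s' : ℕ)
    (w : ({i : Fin a // i ≠ c} → ℕ) × ({i : Fin b // i ≠ c' ∧ ∀ t, i ≠ o t} → ℕ)) (t : Fin K) :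
    RankL_ext c c' o k s s' w (Sum.inr (o t)) = k t := by
  unfold RankL_ext
  simp only
  have h2 : ∃ t', o t = o t' := ⟨t, rfl⟩
  rw [dif_neg (hc' t), dif_pos h2]
  congr 1
  exact (ho (Classical.choose_spec h2)).symm

/-- the sum over the variables off `c'` -/
private theorem RankL_sum {K b : ℕ} (c' : Fin b) (o : Fin K → Fin b)
    (ho : Function.Injective o) (hc' : ∀ t, o t ≠ c') (f : Fin b → ℕ) :
    ∑ i : {i // i ≠ c'}, f i.1 =
      ∑ t, f (o t) + ∑ i : {i : Fin b // i ≠ c' ∧ ∀ t, i ≠ o t}, f i.1 := by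
  classical
  have h1 : ∑ i ∈ univ.filter (fun i : Fin b => i ≠ c'), f i = ∑ i : {i // i ≠ c'}, f i.1 :=
    Finset.sum_subtype _ (fun x => by simp) f
  have h2 : ∑ i ∈ univ.filter (fun i : Fin b => i ≠ c' ∧ ∀ t, i ≠ o t), f i =
      ∑ i : {i : Fin b // i ≠ c' ∧ ∀ t, i ≠ o t}, f i.1 :=
    Finset.sum_subtype _ (fun x => by simp) f
  rw [← h1, ← h2, ← Finset.sum_image (f := f) (s := univ) (g := o) (fun x _ y _ h => ho h)]
  rw [← Finset.sum_union]
  · apply Finset.sum_congr _ fun _ _ => rfl
    ext i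
    simp only [mem_filter, mem_univ, true_and, mem_union, mem_image]
    constructor
    · intro hi
      by_cases h : ∃ t, o t = i
      · exact Or.inl h
      · exact Or.inr ⟨hi, fun t ht => h ⟨t, ht.symm⟩⟩
    · rintro (⟨t, rfl⟩ | h)
      · exact hc' t
      · exact h.1
  · rw [Finset.disjoint_left]
    intro i hi hi'
    rw [mem_image] at hi
    obtain ⟨t, _, rfl⟩ := hi
    exact (mem_filter.1 hi').2.2 t rfl

private theorem RankL_cardY {K b : ℕ} (c' : Fin b) (o : Fin K → Fin b)
    (ho : Function.Injective o) (hc' : ∀ t, o t ≠ c') :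
    Fintype.card {i : Fin b // i ≠ c' ∧ ∀ t, i ≠ o t} = b - 1 - K := by
  have h1 := RankL_sum c' o ho hc' fun _ => 1
  simp only [Finset.sum_const, Finset.card_univ, smul_eq_mul, mul_one, Fintype.card_fin] at h1
  have h4 : Fintype.card {i : Fin b // i ≠ c'} = b - 1 := by
    rw [Fintype.card_subtype_compl, Fintype.card_fin, Fintype.card_unique]
  omega

private theorem RankL_card_k {K a b d j : ℕ} (hj : j ≤ d) (o : Fin K → Fin b)
    (ho : Function.Injective o) (D : Finset (Fin K → ℕ)) (c : Fin a)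
    (c' : Fin b) (hc' : ∀ t, o t ≠ c') (g : ℕ × ℕ) (hg : g.2 ≤ j ∧ j + g.1 ≤ d)
    (k : Fin K → ℕ) (hk : k ∈ D) :
    wk a b k g ≤ (((Bd a b d j o D).filter fun α =>
      (xd (RankL_red c c' α), yd (RankL_red c c' α)) = g).filter fun α => jp o α = k).card := by
  unfold wk
  split_ifs with hkg
  swap
  · exact Nat.zero_le _
  have h1 := RankL_card_Sx (ι := {i : Fin a // i ≠ c}) g.1
  have h2 := RankL_card_Sx (ι := {i : Fin b // i ≠ c' ∧ ∀ t, i ≠ o t}) (g.2 - tk k)
  have h3 : Fintype.card {i : Fin a // i ≠ c} = a - 1 := by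
    rw [Fintype.card_subtype_compl, Fintype.card_fin, Fintype.card_unique]
  rw [h3] at h1
  rw [RankL_cardY c' o ho hc'] at h2
  rw [← h1, ← h2, ← card_product]
  apply card_le_card_of_injOn (RankL_ext c c' o k (d - j - g.1) (j - g.2))
  · intro w hw
    rw [Finset.mem_coe, mem_product, mem_Sx, mem_Sx] at hw
    rw [Finset.mem_coe, mem_filter, mem_filter]
    have e0 : jp o (RankL_ext c c' o k (d - j - g.1) (j - g.2) w) = k := by
      funext t
      exact RankL_ext_o c c' o ho hc' k _ _ w t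
    have e1 : xd (RankL_red c c' (RankL_ext c c' o k (d - j - g.1) (j - g.2) w)) = g.1 := by
      rw [RankL_xd_red, ← hw.1]
      exact sum_congr rfl fun i _ => RankL_ext_inl c c' o k _ _ w i
    have e2 : yd (RankL_red c c' (RankL_ext c c' o k (d - j - g.1) (j - g.2) w)) = g.2 := by
      rw [RankL_yd_red, RankL_sum c' o ho hc' fun i =>
        RankL_ext c c' o k (d - j - g.1) (j - g.2) w (Sum.inr i)]
      rw [sum_congr rfl fun t _ => RankL_ext_o c c' o ho hc' k _ _ w t,
        sum_congr rfl fun i _ => RankL_ext_inr c c' o k _ _ w i, hw.2]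
      have hk0 : univ.sum k = tk k := rfl
      rw [hk0]
      omega
    have e3 : RankL_ext c c' o k (d - j - g.1) (j - g.2) w (Sum.inl c) = d - j - g.1 := by
      unfold RankL_ext
      simp
    have e4 : RankL_ext c c' o k (d - j - g.1) (j - g.2) w (Sum.inr c') = j - g.2 := by
      unfold RankL_ext
      simp
    have hx := RankL_xd c c' (RankL_ext c c' o k (d - j - g.1) (j - g.2) w)
    have hy := RankL_yd c c' (RankL_ext c c' o k (d - j - g.1) (j - g.2) w)
    rw [e1, e3] at hx
    rw [e2, e4] at hy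
    refine ⟨⟨?_, by rw [e1, e2]⟩, e0⟩
    rw [mem_Bd, e0, mem_Bx]
    exact ⟨⟨by omega, by omega⟩, hk⟩
  · intro w _ w' _ h
    ext i
    · have := congrFun h (Sum.inl i.1)
      rwa [RankL_ext_inl, RankL_ext_inl] at this
    · have := congrFun h (Sum.inr i.1)
      rwa [RankL_ext_inr, RankL_ext_inr] at this

private theorem RankL_card_fib {K a b d j : ℕ} (hj : j ≤ d) (o : Fin K → Fin b)
    (ho : Function.Injective o) (D : Finset (Fin K → ℕ)) (c : Fin a)
    (c' : Fin b) (hc' : ∀ t, o t ≠ c') (g : ℕ × ℕ) (hg : g.2 ≤ j ∧ j + g.1 ≤ d) :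
    WD a b D g ≤ ((Bd a b d j o D).filter fun α =>
      (xd (RankL_red c c' α), yd (RankL_red c c' α)) = g).card := by
  have h1 : ((Bd a b d j o D).filter fun α =>
      (xd (RankL_red c c' α), yd (RankL_red c c' α)) = g).card = ∑ k ∈ D,
      (((Bd a b d j o D).filter fun α =>
        (xd (RankL_red c c' α), yd (RankL_red c c' α)) = g).filter fun α => jp o α = k).card := by
    apply card_eq_sum_card_fiberwise
    intro α hα
    rw [Finset.mem_coe, mem_filter, mem_Bd] at hα
    exact hα.1.2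
  rw [h1]
  unfold WD
  exact sum_le_sum fun k hk => RankL_card_k hj o ho D c c' hc' g hg k hk

private theorem RankL_card_T {K a b d j : ℕ} (hj : j ≤ d) (o : Fin K → Fin b)
    (ho : Function.Injective o) (D : Finset (Fin K → ℕ)) (c : Fin a)
    (c' : Fin b) (hc' : ∀ t, o t ≠ c') (Λ : Finset (ℕ × ℕ)) (hΛ : Wi d j Λ) :
    ∑ g ∈ Λ, WD a b D g ≤ (RankL_T d j o D c c' Λ).card := by
  have h1 : (RankL_T d j o D c c' Λ).card =
      ∑ g ∈ Λ, ((RankL_T d j o D c c' Λ).filter fun α =>
        (xd (RankL_red c c' α), yd (RankL_red c c' α)) = g).card := by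
    apply card_eq_sum_card_fiberwise
    intro α hα
    unfold RankL_T at hα
    rw [Finset.mem_coe, mem_filter] at hα
    exact hα.2
  rw [h1]
  refine sum_le_sum fun g hg => ?_
  refine (RankL_card_fib hj o ho D c c' hc' g (hΛ g hg)).trans (card_le_card ?_)
  intro α hα
  rw [mem_filter] at hα
  unfold RankL_T
  rw [mem_filter, mem_filter]
  exact ⟨⟨hα.1, by rw [hα.2]; exact hg⟩, hα.2⟩

theorem le_size_D {K a b d j : ℕ} (ha : 1 ≤ a) (hb : K + 1 ≤ b) {o : Fin K → Fin b}
    (ho : Function.Injective o) (hj : j ≤ d) (D : Finset (Fin K → ℕ)) (Λ : Finset (ℕ × ℕ))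
    (hΛ : Wi d j Λ) : ∑ g ∈ Λ, WD a b D g ≤ (ASys (Bd a b d j o D)).size Λ := by
  classical
  obtain ⟨c', hc'⟩ : ∃ c' : Fin b, ∀ t, o t ≠ c' := by
    by_contra h
    push Not at h
    have h1 := Fintype.card_le_of_surjective o h
    rw [Fintype.card_fin, Fintype.card_fin] at h1
    omega
  let c : Fin a := ⟨0, by omega⟩
  refine (RankL_card_T hj o ho D c c' hc' Λ hΛ).trans ?_
  let T : Finset {α // α ∈ Bd a b d j o D} := univ.filter fun α => α.1 ∈ RankL_T d j o D c c' Λ
  have hT : T.card = (RankL_T d j o D c c' Λ).card := by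
    apply card_bij (fun (α : {α // α ∈ Bd a b d j o D}) _ => α.1)
    · intro α hα
      exact (mem_filter.1 hα).2
    · intro α _ β _ h
      exact Subtype.ext h
    · intro α hα
      have h1 : α ∈ Bd a b d j o D := by
        unfold RankL_T at hα
        exact (mem_filter.1 hα).1
      exact ⟨⟨α, h1⟩, mem_filter.2 ⟨mem_univ _, hα⟩, rfl⟩
  have hBx : ∀ α : {α // α ∈ Bd a b d j o D}, α.1 ∈ Bx a b d j := by
    intro α
    exact (mem_Bd.1 α.2).1
  -- the solutions vanish on `T`
  have hvan : ∀ f ∈ (ASys (Bd a b d j o D)).V (fun _ : Unit => Λ) (fun _ => RankL_q c c'),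
      ∀ α ∈ T, f α = 0 := by
    intro f hf α hα
    rw [mem_AV] at hf
    have hα' : (xd (RankL_red c c' α.1), yd (RankL_red c c' α.1)) ∈ Λ := by
      have := (mem_filter.1 hα).2
      unfold RankL_T at this
      exact (mem_filter.1 this).2
    have h1 := hf () (RankL_red c c' α.1) hα'
    rw [sum_eq_single α] at h1
    · rw [RankL_tcr, if_pos rfl, one_mul] at h1
      exact h1
    · intro β _ hβ
      rw [RankL_tcr, if_neg, zero_mul]
      intro h
      exact hβ (Subtype.ext (RankL_eq c c' (hBx β) (hBx α) h))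
    · intro h
      exact absurd (mem_univ α) h
  have hfin : Module.finrank ℂ ((ASys (Bd a b d j o D)).V (fun _ : Unit => Λ)
      (fun _ => RankL_q c c')) ≤ Fintype.card {α // α ∈ Bd a b d j o D} - T.card := by
    let φ : (ASys (Bd a b d j o D)).V (fun _ : Unit => Λ) (fun _ => RankL_q c c') →ₗ[ℂ]
        ({α // α ∉ T} → ℂ) :=
      (LinearMap.funLeft ℂ ℂ (fun α : {α // α ∉ T} => α.1)).comp (Submodule.subtype _)
    have hφ : Function.Injective φ := by
      rw [← LinearMap.ker_eq_bot, LinearMap.ker_eq_bot']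
      intro f hf
      apply Subtype.ext
      funext α
      by_cases hα : α ∈ T
      · exact hvan f.1 f.2 α hα
      · exact congrFun hf ⟨α, hα⟩
    have h1 := LinearMap.finrank_le_finrank_of_injective hφ
    rw [Module.finrank_fintype_fun_eq_card] at h1
    have h2 : Fintype.card {α // α ∉ T} = Fintype.card {α // α ∈ Bd a b d j o D} - T.card := by
      rw [Fintype.card_subtype_compl, Fintype.card_coe, Fintype.card_coe]
    rw [h2] at h1
    exact h1
  have hgd := gd_le (ASys (Bd a b d j o D)) (fun _ : Unit => Λ) (fun _ => RankL_q c c')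
  have hc : T.card ≤ Fintype.card {α // α ∈ Bd a b d j o D} := card_le_univ T
  unfold Sys.size
  omega

end Pool.Agent.LK
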