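import Pool.Agent.LK.Defs
import Pool.Agent.H51.TB.URank

/-!
# LK3: the number of conditions of a point is at most the weight (Euler reduction)

Let `c` be an `X`-variable and `c'` a `Y`-variable which is not one of the variables `o s`.  At a position
`q` with `q c ≠ 0`, `q c' ≠ 0` the conditions `β` of a type closed downwards follow from those with
`β c = 0`, `β c' = 0` and with piece in `D`.
-/

set_option autoImplicit false
set_option linter.unusedSectionVars false

namespace Pool.Agent.LK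

open Finset MvPolynomial Pool.Agent.H18.Ex Pool.Agent.H21.NX Pool.Agent.H18.Ta
  Pool.Agent.H51.TB Pool.Agent.H21.TC Pool.Agent.V7.ST

/-! ### Euler relations -/

private theorem RankU_num {R : Type*} [CommRing R] (A B : ℕ) (x : R) :
    ((B + 1 : ℕ) : R) * x * (((A.choose (B + 1) : ℕ) : R) * x ^ (A - (B + 1))) =
      ((A : R) - (B : R)) * (((A.choose B : ℕ) : R) * x ^ (A - B)) := by
  rcases lt_trichotomy B A with h | h | h
  · have h1 : A - B = (A - (B + 1)) + 1 := by omega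
    have h2 := Nat.choose_succ_right_eq A B
    have h3 : ((A.choose (B + 1) : ℕ) : R) * ((B + 1 : ℕ) : R) = ((A.choose B : ℕ) : R) * ((A : R) - (B : R)) := by
      rw [← Nat.cast_sub h.le, ← Nat.cast_mul, ← Nat.cast_mul, h2]
    rw [h1, pow_succ]
    calc ((B + 1 : ℕ) : R) * x * (((A.choose (B + 1) : ℕ) : R) * x ^ (A - (B + 1))) =
        (((A.choose (B + 1) : ℕ) : R) * ((B + 1 : ℕ) : R)) * (x ^ (A - (B + 1)) * x) := by ring
      _ = _ := by
        rw [h3]
        ring
  · subst h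
    rw [Nat.choose_succ_self, Nat.cast_zero, zero_mul, mul_zero, sub_self, zero_mul]
  · rw [Nat.choose_eq_zero_of_lt h, Nat.choose_eq_zero_of_lt (h.trans (Nat.lt_succ_self B)), Nat.cast_zero]
    ring

private theorem RankU_one {ι : Type} [Fintype ι] [DecidableEq ι] {R : Type*} [CommRing R] (q : ι → R)
    (α β : ι → ℕ) (l : ι) :
    ((β l + 1 : ℕ) : R) * q l * tcr q α (β + Pi.single l 1) = ((α l : R) - (β l : R)) * tcr q α β := by
  rw [tcr_eq q α (β + Pi.single l 1) l, tcr_eq q α β l]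
  have h1 : (β + Pi.single l 1 : ι → ℕ) l = β l + 1 := by simp
  have h2 : ∏ i ∈ univ.erase l, (((α i).choose ((β + Pi.single l 1 : ι → ℕ) i) : ℕ) : R) *
      q i ^ (α i - (β + Pi.single l 1 : ι → ℕ) i) =
      ∏ i ∈ univ.erase l, (((α i).choose (β i) : ℕ) : R) * q i ^ (α i - β i) := by
    refine rest_congr (fun _ _ => rfl) (fun _ _ => rfl) (fun i hi => ?_)
    rw [Pi.add_apply, Pi.single_eq_of_ne hi, Nat.add_zero]
  rw [h2, h1]
  have h3 := RankU_num (α l) (β l) (q l)
  linear_combination (∏ i ∈ univ.erase l, (((α i).choose (β i) : ℕ) : R) * q i ^ (α i - β i)) * h3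

/-- The Euler relation for a set of variables. -/
private theorem RankU_sum {ι : Type} [Fintype ι] [DecidableEq ι] (q : ι → ℂ) (A : Finset (ι → ℕ))
    (S : Finset ι) (N : ℕ) (hA : ∀ α ∈ A, ∑ i ∈ S, α i = N) (f : {α // α ∈ A} → ℂ) (β : ι → ℕ) :
    ∑ i ∈ S, (((β i + 1 : ℕ) : ℂ) * q i) *
      ∑ α : {α // α ∈ A}, tcr q α.1 (β + Pi.single i 1) * f α =
      ((N : ℂ) - ∑ i ∈ S, (β i : ℂ)) * ∑ α : {α // α ∈ A}, tcr q α.1 β * f α := by
  simp only [mul_sum]
  rw [sum_comm]
  refine sum_congr rfl fun α _ => ?_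
  have h1 : ∀ i ∈ S, ((β i + 1 : ℕ) : ℂ) * q i * (tcr q α.1 (β + Pi.single i 1) * f α) =
      ((α.1 i : ℂ) - (β i : ℂ)) * (tcr q α.1 β * f α) := by
    intro i _
    have h2 := RankU_one q α.1 β i
    linear_combination (f α) * h2
  rw [sum_congr rfl h1, ← sum_mul, sum_sub_distrib, ← hA α.1 α.2]
  push_cast
  rfl

/-- Reduction of the conditions by the Euler relation. -/
private theorem RankU_red {ι : Type} [Fintype ι] [DecidableEq ι] (q : ι → ℂ) (S : Finset ι) (v : ι)
    (hv : v ∈ S) (hq : q v ≠ 0) (T : (ι → ℕ) → ℂ) (κ : (ι → ℕ) → ℂ) (P : (ι → ℕ) → Prop)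
    (hE : ∀ β, ∑ i ∈ S, (((β i + 1 : ℕ) : ℂ) * q i) * T (β + Pi.single i 1) = κ β * T β)
    (h1 : ∀ β : ι → ℕ, P (β + Pi.single v 1) → P β)
    (h2 : ∀ β : ι → ℕ, ∀ i ∈ S, P (β + Pi.single v 1) → P (β + Pi.single i 1))
    (h0 : ∀ β, P β → β v = 0 → T β = 0) : ∀ β, P β → T β = 0 := by
  have key : ∀ n : ℕ, ∀ β, β v = n → P β → T β = 0 := by
    intro n
    induction n with
    | zero => exact fun β hβ hP => h0 β hP hβ
    | succ n ih =>
      intro β hβ hP
      have hβ' : β - Pi.single v 1 + Pi.single v 1 = β := by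
        funext s
        rw [Pi.add_apply, Pi.sub_apply]
        by_cases hs : s = v
        · subst hs
          rw [Pi.single_eq_same]
          omega
        · rw [Pi.single_eq_of_ne hs]
          omega
      rw [← hβ'] at hP ⊢
      have h3 : (β - Pi.single v 1 : ι → ℕ) v = n := by
        rw [Pi.sub_apply, Pi.single_eq_same, hβ]
        omega
      generalize (β - Pi.single v 1 : ι → ℕ) = β' at hP h3 ⊢
      have h4 := hE β'
      rw [ih β' h3 (h1 β' hP), mul_zero, ← add_sum_erase S _ hv] at h4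
      have h5 : ∑ i ∈ S.erase v, (((β' i + 1 : ℕ) : ℂ) * q i) * T (β' + Pi.single i 1) = 0 := by
        refine sum_eq_zero fun i hi => ?_
        have hi' := mem_erase.1 hi
        rw [ih (β' + Pi.single i 1) (by
          rw [Pi.add_apply, Pi.single_eq_of_ne (Ne.symm hi'.1), h3, Nat.add_zero])
          (h2 β' i hi'.2 hP), mul_zero]
      rw [h5, add_zero] at h4
      have h6 : (((β' v + 1 : ℕ) : ℂ) * q v) ≠ 0 := mul_ne_zero (Nat.cast_ne_zero.2 (by omega)) hq
      exact (mul_eq_zero.1 h4).resolve_left h6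
  exact fun β hP => key _ β rfl hP

/-! ### Degrees -/

private theorem RankU_xd_inl {a b : ℕ} (β : Z a b → ℕ) (i : Fin a) :
    xd (β + Pi.single (Sum.inl i) 1) = xd β + 1 := by
  unfold xd
  have h : ∀ k : Fin a, (β + Pi.single (Sum.inl i) 1 : Z a b → ℕ) (Sum.inl k) =
      β (Sum.inl k) + if k = i then 1 else 0 := by
    intro k
    rw [Pi.add_apply]
    congr 1
    by_cases hk : k = i
    · subst hk
      rw [if_pos rfl, Pi.single_eq_same]
    · rw [if_neg hk, Pi.single_eq_of_ne (fun h1 => hk (Sum.inl_injective h1))]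
  rw [sum_congr rfl fun k _ => h k, sum_add_distrib, sum_ite_eq' univ i fun _ => 1,
    if_pos (mem_univ i)]

private theorem RankU_xd_inr {a b : ℕ} (β : Z a b → ℕ) (i : Fin b) :
    xd (β + Pi.single (Sum.inr i) 1) = xd β := by
  unfold xd
  refine sum_congr rfl fun k _ => ?_
  rw [Pi.add_apply, Pi.single_eq_of_ne (by simp), Nat.add_zero]

private theorem RankU_yd_inr {a b : ℕ} (β : Z a b → ℕ) (i : Fin b) :
    yd (β + Pi.single (Sum.inr i) 1) = yd β + 1 := by
  unfold yd
  have h : ∀ k : Fin b, (β + Pi.single (Sum.inr i) 1 : Z a b → ℕ) (Sum.inr k) =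
      β (Sum.inr k) + if k = i then 1 else 0 := by
    intro k
    rw [Pi.add_apply]
    congr 1
    by_cases hk : k = i
    · subst hk
      rw [if_pos rfl, Pi.single_eq_same]
    · rw [if_neg hk, Pi.single_eq_of_ne (fun h1 => hk (Sum.inr_injective h1))]
  rw [sum_congr rfl fun k _ => h k, sum_add_distrib, sum_ite_eq' univ i fun _ => 1,
    if_pos (mem_univ i)]

private theorem RankU_yd_inl {a b : ℕ} (β : Z a b → ℕ) (i : Fin a) :
    yd (β + Pi.single (Sum.inl i) 1) = yd β := by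
  unfold yd
  refine sum_congr rfl fun k _ => ?_
  rw [Pi.add_apply, Pi.single_eq_of_ne (by simp), Nat.add_zero]

private theorem RankU_tcr_lt {ι : Type} [Fintype ι] (q : ι → ℂ) {α β : ι → ℕ} {l : ι}
    (h : α l < β l) : tcr q α β = 0 := by
  unfold tcr
  refine prod_eq_zero (mem_univ l) ?_
  rw [Nat.choose_eq_zero_of_lt h, Nat.cast_zero, zero_mul]

private theorem RankU_card_Sx {ι : Type} [Fintype ι] [DecidableEq ι] (n : ℕ) :
    (Sx ι n).card = Nat.multichoose (Fintype.card ι) n := by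
  rw [← card_univ, ← card_finsuppAntidiag_nat_eq_multichoose]
  symm
  apply card_bij (fun (α : ι →₀ ℕ) _ => (⇑α : ι → ℕ))
  · intro α hα
    rw [mem_finsuppAntidiag] at hα
    exact mem_Sx.2 hα.1
  · intro α _ β _ h
    exact DFunLike.coe_injective h
  · intro f hf
    refine ⟨Finsupp.equivFunOnFinite.symm f, ?_, rfl⟩
    rw [mem_finsuppAntidiag]
    exact ⟨mem_Sx.1 hf, subset_univ _⟩

/-! ### The number of reduced conditions -/

/-- The reduced conditions. -/
private def RankU_R {K : ℕ} (a b : ℕ) (o : Fin K → Fin b) (D : Finset (Fin K → ℕ))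
    (Λ : Finset (ℕ × ℕ)) (c : Fin a) (c' : Fin b) (β : Z a b → ℕ) : Prop :=
  (xd β, yd β) ∈ Λ ∧ β (Sum.inl c) = 0 ∧ β (Sum.inr c') = 0 ∧ jp o β ∈ D

private theorem RankU_split {K b : ℕ} {o : Fin K → Fin b} (ho : Function.Injective o) (c' : Fin b)
    (y : Fin b → ℕ) (hy : y c' = 0) :
    ∑ i, y i = ∑ s, y (o s) + ∑ i : {i : Fin b // i ≠ c' ∧ ∀ s, o s ≠ i}, y i.1 := by
  classical
  have h1 : ∑ i : {i : Fin b // i ≠ c' ∧ ∀ s, o s ≠ i}, y i.1 =
      ∑ i ∈ univ.filter (fun i : Fin b => i ≠ c' ∧ ∀ s, o s ≠ i), y i :=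
    (sum_subtype (univ.filter fun i : Fin b => i ≠ c' ∧ ∀ s, o s ≠ i)
      (fun x => by rw [mem_filter]; exact and_iff_right (mem_univ x)) y).symm
  have h2 : ∑ s, y (o s) = ∑ i ∈ univ.image o, y i := (sum_image fun x _ y _ h => ho h).symm
  rw [h1, h2, ← sum_filter_add_sum_filter_not univ (fun i : Fin b => i ≠ c' ∧ ∀ s, o s ≠ i) y,
    add_comm]
  congr 1
  refine (sum_subset ?_ ?_).symm
  · intro i hi
    obtain ⟨s, -, rfl⟩ := mem_image.1 hi
    rw [mem_filter]
    exact ⟨mem_univ _, fun h => h.2 s rfl⟩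
  · intro i hi hi'
    have h3 := (mem_filter.1 hi).2
    by_cases h4 : i = c'
    · rw [h4]
      exact hy
    · exfalso
      refine h3 ⟨h4, fun s hs => hi' (mem_image.2 ⟨s, mem_univ s, hs⟩)⟩

private theorem RankU_count {K a b : ℕ} {o : Fin K → Fin b} (ho : Function.Injective o)
    (D : Finset (Fin K → ℕ)) (Λ : Finset (ℕ × ℕ)) (c : Fin a) (c' : Fin b) (hc' : ∀ s, o s ≠ c')
    [Fintype {β : Z a b → ℕ // RankU_R a b o D Λ c c' β}] :
    Fintype.card {β : Z a b → ℕ // RankU_R a b o D Λ c c' β} ≤ ∑ g ∈ Λ, WD a b D g := by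
  classical
  let Tg : Finset (Σ _ : ℕ × ℕ, Σ _ : Fin K → ℕ,
      ({i : Fin a // i ≠ c} → ℕ) × ({i : Fin b // i ≠ c' ∧ ∀ s, o s ≠ i} → ℕ)) :=
    Λ.sigma fun g => (D.filter fun k => tk k ≤ g.2).sigma fun k =>
      Sx {i : Fin a // i ≠ c} g.1 ×ˢ Sx {i : Fin b // i ≠ c' ∧ ∀ s, o s ≠ i} (g.2 - tk k)
  have hT : Tg.card = ∑ g ∈ Λ, WD a b D g := by
    have e1 : Fintype.card {i : Fin a // i ≠ c} = a - 1 := by
      rw [Fintype.card_subtype_compl, Fintype.card_fin, Fintype.card_unique]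
    have e2 : Fintype.card {i : Fin b // i ≠ c' ∧ ∀ s, o s ≠ i} = b - 1 - K := by
      have h3 : (univ.filter fun i : Fin b => i ≠ c' ∧ ∀ s, o s ≠ i) =
          univ \ insert c' (univ.image o) := by
        ext i
        simp only [mem_filter, mem_univ, true_and, mem_sdiff, mem_insert, mem_image, not_or,
          not_exists, ne_eq]
      rw [Fintype.card_subtype, h3, card_sdiff_of_subset (subset_univ _), card_univ, Fintype.card_fin,
        card_insert_of_notMem (by
          intro h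
          obtain ⟨s, -, hs⟩ := mem_image.1 h
          exact hc' s hs), card_image_of_injective _ ho, card_univ, Fintype.card_fin]
      omega
    show (Λ.sigma _).card = _
    rw [card_sigma]
    refine sum_congr rfl fun g _ => ?_
    rw [card_sigma]
    unfold WD wk
    rw [← sum_filter]
    refine sum_congr rfl fun k _ => ?_
    rw [card_product, RankU_card_Sx, RankU_card_Sx, e1, e2]
  rw [← hT, ← card_univ]
  refine card_le_card_of_injOn (fun β => ⟨(xd β.1, yd β.1), jp o β.1,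
    (fun i => β.1 (Sum.inl i.1), fun i => β.1 (Sum.inr i.1))⟩) ?_ ?_
  · intro β _
    obtain ⟨h1, h2, h3, h4⟩ := β.2
    have h5 : yd β.1 = tk (jp o β.1) +
        ∑ i : {i : Fin b // i ≠ c' ∧ ∀ s, o s ≠ i}, β.1 (Sum.inr i.1) :=
      RankU_split ho c' (fun i => β.1 (Sum.inr i)) h3
    rw [mem_coe]
    show _ ∈ Λ.sigma _
    rw [mem_sigma]
    refine ⟨h1, ?_⟩
    rw [mem_sigma]
    refine ⟨mem_filter.2 ⟨h4, ?_⟩, ?_⟩
    · show tk (jp o β.1) ≤ yd β.1
      omega
    · rw [mem_product]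
      refine ⟨mem_Sx.2 ?_, mem_Sx.2 ?_⟩
      · show ∑ i : {i : Fin a // i ≠ c}, β.1 (Sum.inl i.1) = xd β.1
        have h6 := Fintype.sum_eq_add_sum_subtype_ne (fun i : Fin a => β.1 (Sum.inl i)) c
        unfold xd
        rw [h6, h2, Nat.zero_add]
      · show ∑ i : {i : Fin b // i ≠ c' ∧ ∀ s, o s ≠ i}, β.1 (Sum.inr i.1) =
          yd β.1 - tk (jp o β.1)
        omega
  · intro β _ β' _ h
    simp only [Sigma.mk.injEq, heq_eq_eq, Prod.mk.injEq] at h
    obtain ⟨-, h2, h3, h4⟩ := h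
    apply Subtype.ext
    funext v
    rcases v with i | i
    · by_cases hi : i = c
      · rw [hi, β.2.2.1, β'.2.2.1]
      · exact congrFun h3 ⟨i, hi⟩
    · by_cases hi : i = c'
      · rw [hi, β.2.2.2.1, β'.2.2.2.1]
      · by_cases hs : ∃ s, o s = i
        · obtain ⟨s, rfl⟩ := hs
          exact congrFun h2 s
        · push Not at hs
          exact congrFun h4 ⟨i, hi, hs⟩

/-! ### The size -/

theorem size_le_D {K a b d j : ℕ} (ha : 1 ≤ a) (hb : K + 1 ≤ b) {o : Fin K → Fin b}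
    (ho : Function.Injective o) (D : Finset (Fin K → ℕ)) (hD : Lo D) (Λ : Finset (ℕ × ℕ))
    (hΛ : Dn Λ) : (ASys (Bd a b d j o D)).size Λ ≤ ∑ g ∈ Λ, WD a b D g := by
  classical
  let c : Fin a := ⟨0, by omega⟩
  obtain ⟨c', hc'⟩ : ∃ c' : Fin b, ∀ s, o s ≠ c' := by
    by_contra hcon
    push Not at hcon
    have h1 : Function.Surjective o := hcon
    have h2 := Fintype.card_le_of_surjective o h1
    rw [Fintype.card_fin, Fintype.card_fin] at h2
    omega
  obtain ⟨p, ⟨hpc, hpc'⟩, hp⟩ : ∃ p : Unit → Z a b → ℂ,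
      (p () (Sum.inl c) ≠ 0 ∧ p () (Sum.inr c') ≠ 0) ∧
      Module.finrank ℂ ((ASys (Bd a b d j o D)).V (fun _ : Unit => Λ) p) =
        (ASys (Bd a b d j o D)).gd fun _ : Unit => Λ := by
    have h1 : Gn Unit (Z a b) fun q => q () (Sum.inl c) ≠ 0 :=
      ⟨X ((), Sum.inl c), X_ne_zero _, fun p hp => by rwa [eval_X] at hp⟩
    have h2 : Gn Unit (Z a b) fun q => q () (Sum.inr c') ≠ 0 :=
      ⟨X ((), Sum.inr c'), X_ne_zero _, fun p hp => by rwa [eval_X] at hp⟩
    exact ((h1.and h2).and (gn_gd (ASys (Bd a b d j o D)) fun _ : Unit => Λ)).exists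
  have : Finite {β : Z a b → ℕ // RankU_R a b o D Λ c c' β} := by
    have := finite_idx a b Λ
    exact Finite.of_injective (fun β : {β : Z a b → ℕ // RankU_R a b o D Λ c c' β} =>
      (⟨β.1, β.2.1⟩ : {β : Z a b → ℕ // (xd β, yd β) ∈ Λ}))
      (fun x y h => Subtype.ext (congrArg
        (fun z : {β : Z a b → ℕ // (xd β, yd β) ∈ Λ} => z.1) h))
  let _ : Fintype {β : Z a b → ℕ // RankU_R a b o D Λ c c' β} := Fintype.ofFinite _
  refine le_trans ?_ (RankU_count ho D Λ c c' hc')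
  let L : ({α // α ∈ Bd a b d j o D} → ℂ) →ₗ[ℂ]
      ({β : Z a b → ℕ // RankU_R a b o D Λ c c' β} → ℂ) :=
    { toFun := fun f β => ∑ α : {α // α ∈ Bd a b d j o D}, tcr (p ()) α.1 β.1 * f α
      map_add' := by
        intro f g
        funext β
        simp only [Pi.add_apply, mul_add, sum_add_distrib]
      map_smul' := by
        intro c f
        funext β
        simp only [Pi.smul_apply, smul_eq_mul, RingHom.id_apply, mul_sum]
        exact sum_congr rfl fun α _ => by ring }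
  have hker : LinearMap.ker L ≤ (ASys (Bd a b d j o D)).V (fun _ : Unit => Λ) p := by
    intro f hf
    rw [LinearMap.mem_ker] at hf
    rw [mem_AV]
    intro _
    have hR : ∀ β, RankU_R a b o D Λ c c' β →
        ∑ α : {α // α ∈ Bd a b d j o D}, tcr (p ()) α.1 β * f α = 0 := fun β hβ =>
      congrFun hf ⟨β, hβ⟩
    -- the second reduction: the variables `Y`
    have hY : ∀ β : Z a b → ℕ, (xd β, yd β) ∈ Λ ∧ β (Sum.inl c) = 0 →
        ∑ α : {α // α ∈ Bd a b d j o D}, tcr (p ()) α.1 β * f α = 0 := by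
      refine RankU_red (p ()) (univ.image Sum.inr) (Sum.inr c')
        (mem_image.2 ⟨c', mem_univ _, rfl⟩) hpc'
        (fun β => ∑ α : {α // α ∈ Bd a b d j o D}, tcr (p ()) α.1 β * f α) _
        (fun β => (xd β, yd β) ∈ Λ ∧ β (Sum.inl c) = 0)
        (fun β => RankU_sum (p ()) (Bd a b d j o D) (univ.image Sum.inr) j (fun α hα => ?_) f β)
        (fun β hβ => ?_) (fun β i hi hβ => ?_) fun β hβ hβ' => ?_
      · rw [sum_image fun x _ y _ h => Sum.inr_injective h]
        exact (mem_Bx.1 (mem_Bd.1 hα).1).2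
      · rw [RankU_xd_inr, RankU_yd_inr, Pi.add_apply, Pi.single_eq_of_ne (by simp),
          Nat.add_zero] at hβ
        exact ⟨hΛ _ hβ.1 _ le_rfl (Nat.le_succ _), hβ.2⟩
      · obtain ⟨t, -, rfl⟩ := mem_image.1 hi
        rw [RankU_xd_inr, RankU_yd_inr, Pi.add_apply, Pi.single_eq_of_ne (by simp),
          Nat.add_zero] at hβ ⊢
        exact hβ
      · by_cases h1 : jp o β ∈ D
        · exact hR β ⟨hβ.1, hβ.2, hβ', h1⟩
        · refine sum_eq_zero fun α _ => ?_
          have h2 : ∃ s, jp o α.1 s < jp o β s := by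
            by_contra hcon
            push Not at hcon
            exact h1 (hD _ (mem_Bd.1 α.2).2 _ hcon)
          obtain ⟨s, hs⟩ := h2
          rw [RankU_tcr_lt (p ()) (l := Sum.inr (o s)) hs, zero_mul]
    -- the first reduction: the variables `X`
    refine RankU_red (p ()) (univ.image Sum.inl) (Sum.inl c)
      (mem_image.2 ⟨c, mem_univ _, rfl⟩) hpc
      (fun β => ∑ α : {α // α ∈ Bd a b d j o D}, tcr (p ()) α.1 β * f α) _
      (fun β => (xd β, yd β) ∈ Λ)
      (fun β => RankU_sum (p ()) (Bd a b d j o D) (univ.image Sum.inl) (d - j) (fun α hα => ?_) f β)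
      (fun β hβ => ?_) (fun β i hi hβ => ?_) fun β hβ hβ' => hY β ⟨hβ, hβ'⟩
    · rw [sum_image fun x _ y _ h => Sum.inl_injective h]
      have h1 := mem_Bx.1 (mem_Bd.1 hα).1
      show xd α = d - j
      omega
    · rw [RankU_xd_inl, RankU_yd_inl] at hβ
      exact hΛ _ hβ _ (Nat.le_succ _) le_rfl
    · obtain ⟨t, -, rfl⟩ := mem_image.1 hi
      rw [RankU_xd_inl, RankU_yd_inl] at hβ ⊢
      exact hβ
  have hrn := LinearMap.finrank_range_add_finrank_ker L
  rw [Module.finrank_fintype_fun_eq_card] at hrn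
  have hk := Submodule.finrank_mono hker
  rw [hp] at hk
  have hr : Module.finrank ℂ (LinearMap.range L) ≤
      Fintype.card {β : Z a b → ℕ // RankU_R a b o D Λ c c' β} := by
    have := Submodule.finrank_le (LinearMap.range L)
    rwa [Module.finrank_fintype_fun_eq_card] at this
  unfold Sys.size
  omega

end Pool.Agent.LK
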