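import Pool.Agent.LK.Defs
import Pool.Agent.H51.TB.URank

/-!
# LK4: the span property or a smaller set of pieces

Let `φ ≠ 0` vanish on all solutions at the positions `p` with `G(p) ≠ 0`.  The torus gives
`f_β = 0` for these solutions if `φ_β ≠ 0` (`Vis_torus`); the elementary substitutions
`X_v → X_v + t X_w` give `f_α = 0` for `α = β + e_v - e_w` (`Vis_move`), hence for all `α` with
`jp β ≤ jp α` (`Vis_path`).  So the solutions at general positions vanish on a piece which is
maximal in `D`.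
-/

set_option autoImplicit false

namespace Pool.Agent.LK

open Finset MvPolynomial Pool.Agent.H18.Ex Pool.Agent.H21.NX Pool.Agent.H18.Ta Pool.Agent.H51.TB
  Pool.Agent.H21.TC Pool.Agent.V7.ST

/-- The weights of the variables. -/
private def Vis_w (a b : ℕ) : Z a b → ℕ × ℕ := Sum.elim (fun _ => (1, 0)) fun _ => (0, 1)

private lemma Vis_weight {a b : ℕ} (α : Z a b →₀ ℕ) :
    Finsupp.weight (Vis_w a b) α = (xd α, yd α) := by
  rw [Finsupp.weight_apply, Finsupp.sum_fintype _ _ (by intro i; simp),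
    Fintype.sum_sum_type]
  unfold xd yd Vis_w
  ext <;> simp [Prod.fst_sum, Prod.snd_sum]

/-- The finitely supported function of a function. -/
private noncomputable def Vis_sf {a b : ℕ} (α : Z a b → ℕ) : Z a b →₀ ℕ :=
  Finsupp.equivFunOnFinite.symm α

private lemma Vis_sf_coe {a b : ℕ} (α : Z a b → ℕ) : ⇑(Vis_sf α) = α := rfl

private lemma Vis_sf_eta {a b : ℕ} (α : Z a b →₀ ℕ) : Vis_sf ⇑α = α := by
  ext i
  rfl

private lemma Vis_sf_inj {a b : ℕ} {α β : Z a b → ℕ} : Vis_sf α = Vis_sf β ↔ α = β :=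
  Finsupp.equivFunOnFinite.symm.injective.eq_iff

/-- The Taylor coefficients of a monomial. -/
private lemma Vis_shift_monomial {a b : ℕ} (q : Z a b → ℂ) (α β : Z a b → ℕ) (c : ℂ) :
    coeff (Vis_sf β) (aeval (fun i => X i + C (q i)) (monomial (Vis_sf α) c) :
      MvPolynomial (Z a b) ℂ) = c * tcr q α β := by
  classical
  rw [aeval_monomial, algebraMap_eq, coeff_C_mul, Finsupp.prod_fintype _ _ (by intro i; simp)]
  congr 1
  have h1 : ∀ j : Z a b, (X j + C (q j) : MvPolynomial (Z a b) ℂ) ^ (Vis_sf α j) =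
      ∑ b ∈ range (α j + 1), monomial (Finsupp.single j b)
        (((α j).choose b : ℂ) * q j ^ (α j - b)) := by
    intro j
    rw [Vis_sf_coe, add_pow]
    refine sum_congr rfl fun b _ => ?_
    rw [X_pow_eq_monomial, ← C_pow, mul_assoc, mul_comm (C (q j ^ (α j - b)))]
    rw [← C_eq_coe_nat, ← C_mul, mul_comm, C_mul_monomial, mul_one]
  simp_rw [h1]
  rw [prod_univ_sum, coeff_sum]
  have h2 : ∀ x ∈ Fintype.piFinset fun j => range (α j + 1),
      coeff (Vis_sf β) (∏ j, monomial (Finsupp.single j (x j))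
        (((α j).choose (x j) : ℂ) * q j ^ (α j - x j)) : MvPolynomial (Z a b) ℂ) =
      if x = β then tcr q α β else 0 := by
    intro x _
    rw [← monomial_sum_prod, coeff_monomial]
    have h4 : (∑ j, Finsupp.single j (x j)) = Vis_sf x := by
      unfold Vis_sf
      rw [Finsupp.equivFunOnFinite_symm_eq_sum]
    rw [h4]
    by_cases hx : x = β
    · subst hx
      simp [tcr]
    · rw [if_neg, if_neg hx]
      intro h5
      exact hx (Vis_sf_inj.1 h5)
  rw [sum_congr rfl h2, sum_ite_eq']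
  split_ifs with h
  · rfl
  · rw [Fintype.mem_piFinset] at h
    push Not at h
    obtain ⟨j, hj⟩ := h
    rw [mem_range] at hj
    symm
    unfold tcr
    apply prod_eq_zero (mem_univ j)
    rw [Nat.choose_eq_zero_of_lt (by omega)]
    simp

/-- The polynomial of a coefficient vector. -/
private noncomputable def Vis_P {a b : ℕ} {A : Finset (Z a b → ℕ)} (f : {α // α ∈ A} → ℂ) :
    MvPolynomial (Z a b) ℂ := ∑ α : {α // α ∈ A}, monomial (Vis_sf α.1) (f α)

private lemma Vis_coeff_P {a b : ℕ} {A : Finset (Z a b → ℕ)} (f : {α // α ∈ A} → ℂ)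
    (α : {α // α ∈ A}) : coeff (Vis_sf α.1) (Vis_P f) = f α := by
  classical
  unfold Vis_P
  rw [coeff_sum]
  simp only [coeff_monomial, Vis_sf_inj, Subtype.coe_inj]
  simp

private lemma Vis_coeff_P_zero {a b : ℕ} {A : Finset (Z a b → ℕ)} (f : {α // α ∈ A} → ℂ)
    (α : Z a b → ℕ) (hα : α ∉ A) : coeff (Vis_sf α) (Vis_P f) = 0 := by
  classical
  unfold Vis_P
  rw [coeff_sum]
  refine sum_eq_zero fun β _ => ?_
  rw [coeff_monomial, if_neg]
  intro h
  rw [Vis_sf_inj] at h
  exact hα (h ▸ β.2)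

private lemma Vis_shift_P {a b : ℕ} {A : Finset (Z a b → ℕ)} (q : Z a b → ℂ)
    (f : {α // α ∈ A} → ℂ) (β : Z a b → ℕ) :
    coeff (Vis_sf β) (aeval (fun i => X i + C (q i)) (Vis_P f) : MvPolynomial (Z a b) ℂ) =
      ∑ α : {α // α ∈ A}, tcr q α.1 β * f α := by
  unfold Vis_P
  rw [map_sum, coeff_sum]
  refine sum_congr rfl fun α _ => ?_
  rw [Vis_shift_monomial, mul_comm]

/-- Substitutions respecting the weights. -/
private lemma Vis_mono_hom {a b : ℕ} {g : Z a b → MvPolynomial (Z a b) ℂ}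
    (hg : ∀ i, IsWeightedHomogeneous (Vis_w a b) (g i) (Vis_w a b i)) (α : Z a b →₀ ℕ)
    (c : ℂ) : IsWeightedHomogeneous (Vis_w a b) (aeval g (monomial α c)) (xd α, yd α) := by
  rw [aeval_monomial, algebraMap_eq, Finsupp.prod_fintype _ _ (by intro i; simp)]
  have h1 : IsWeightedHomogeneous (Vis_w a b) (∏ i, g i ^ α i) (xd α, yd α) := by
    rw [← Vis_weight, Finsupp.weight_apply, Finsupp.sum_fintype _ _ (by intro i; simp)]
    exact IsWeightedHomogeneous.prod _ _ _ fun i _ => (hg i).pow (α i)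
  exact h1.C_mul c

private lemma Vis_pres {a b : ℕ} {g : Z a b → MvPolynomial (Z a b) ℂ}
    (hg : ∀ i, IsWeightedHomogeneous (Vis_w a b) (g i) (Vis_w a b i)) (n : ℕ × ℕ)
    {H : MvPolynomial (Z a b) ℂ} (hH : ∀ β : Z a b →₀ ℕ, (xd β, yd β) = n → coeff β H = 0)
    (β : Z a b →₀ ℕ) (hβ : (xd β, yd β) = n) : coeff β (aeval g H) = 0 := by
  classical
  rw [H.as_sum, map_sum, coeff_sum]
  refine sum_eq_zero fun α hα => ?_
  by_cases h : (xd α, yd α) = n
  · exact absurd (hH α h) (mem_support_iff.1 hα)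
  · refine (Vis_mono_hom hg α _).coeff_eq_zero β ?_
    rw [Vis_weight, hβ]
    exact Ne.symm h

/-- The elementary substitution. -/
private noncomputable def Vis_g {a b : ℕ} (v w : Z a b) (t : ℂ) :
    Z a b → MvPolynomial (Z a b) ℂ := fun x => (if x = v then C t * X w else 0) + X x

private lemma Vis_g_hom {a b : ℕ} {v w : Z a b} (h : Vis_w a b v = Vis_w a b w) (t : ℂ)
    (x : Z a b) : IsWeightedHomogeneous (Vis_w a b) (Vis_g v w t x) (Vis_w a b x) := by
  unfold Vis_g
  refine IsWeightedHomogeneous.add ?_ (isWeightedHomogeneous_X ℂ (Vis_w a b) x)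
  split_ifs with hx
  · rw [hx, h]
    exact (isWeightedHomogeneous_X ℂ (Vis_w a b) w).C_mul _
  · exact isWeightedHomogeneous_zero ℂ (Vis_w a b) _

/-- Moving `i` units from `v` to `w`. -/
private def Vis_mv {a b : ℕ} (v w : Z a b) (i : ℕ) (α : Z a b → ℕ) : Z a b → ℕ :=
  fun x => if x = v then α v - i else if x = w then α w + i else α x

private lemma Vis_aeval_monomial {a b : ℕ} {v w : Z a b} (hvw : w ≠ v) (t : ℂ) (α : Z a b → ℕ)
    (c : ℂ) : aeval (Vis_g v w t) (monomial (Vis_sf α) c) =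
      ∑ i ∈ range (α v + 1), monomial (Vis_sf (Vis_mv v w i α))
        (c * ((α v).choose i : ℂ) * t ^ i) := by
  classical
  rw [aeval_monomial, algebraMap_eq, Finsupp.prod_fintype _ _ (by intro i; simp), Vis_sf_coe,
    ← mul_prod_erase univ _ (mem_univ v)]
  have h1 : Vis_g v w t v = C t * X w + X v := by
    unfold Vis_g
    rw [if_pos rfl]
  have h2 : ∏ x ∈ univ.erase v, Vis_g v w t x ^ α x =
      ∏ x ∈ univ.erase v, (X x : MvPolynomial (Z a b) ℂ) ^ α x := by
    refine prod_congr rfl fun x hx => ?_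
    unfold Vis_g
    rw [if_neg (ne_of_mem_erase hx), zero_add]
  rw [h1, h2, add_pow, sum_mul, mul_sum]
  refine sum_congr rfl fun i _ => ?_
  rw [monomial_eq, Finsupp.prod_fintype _ _ (by intro i; simp), Vis_sf_coe,
    ← mul_prod_erase univ _ (mem_univ v)]
  have h3 : ∏ x ∈ univ.erase v, (X x : MvPolynomial (Z a b) ℂ) ^ Vis_mv v w i α x =
      (∏ x ∈ univ.erase v, (X x : MvPolynomial (Z a b) ℂ) ^ α x) * X w ^ i := by
    have h4 : ∀ x ∈ univ.erase v, (X x : MvPolynomial (Z a b) ℂ) ^ Vis_mv v w i α x =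
        (X x : MvPolynomial (Z a b) ℂ) ^ α x * if x = w then X w ^ i else 1 := by
      intro x hx
      unfold Vis_mv
      rw [if_neg (ne_of_mem_erase hx)]
      by_cases hw : x = w
      · rw [if_pos hw, if_pos hw, pow_add, hw]
      · rw [if_neg hw, if_neg hw, mul_one]
    rw [prod_congr rfl h4, prod_mul_distrib, prod_ite_eq' , if_pos (mem_erase.2 ⟨hvw, mem_univ _⟩)]
  have h5 : Vis_mv v w i α v = α v - i := by
    unfold Vis_mv
    rw [if_pos rfl]
  rw [h3, h5, mul_pow, C_mul, C_mul, C_pow, ← C_eq_coe_nat]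
  simp only [map_natCast]
  ring

/-- The coefficients of the transformed polynomial. -/
private noncomputable def Vis_T {a b : ℕ} {A : Finset (Z a b → ℕ)} (v w : Z a b) (t : ℂ)
    (f : {α // α ∈ A} → ℂ) : {α // α ∈ A} → ℂ :=
  fun γ => coeff (Vis_sf γ.1) (aeval (Vis_g v w t) (Vis_P f))

private lemma Vis_coeff_T {a b : ℕ} {A : Finset (Z a b → ℕ)} {v w : Z a b} (hvw : w ≠ v) (t : ℂ)
    (f : {α // α ∈ A} → ℂ) (γ : Z a b → ℕ) :
    coeff (Vis_sf γ) (aeval (Vis_g v w t) (Vis_P f)) =
      ∑ α : {α // α ∈ A}, ∑ i ∈ range (α.1 v + 1),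
        if Vis_mv v w i α.1 = γ then f α * ((α.1 v).choose i : ℂ) * t ^ i else 0 := by
  classical
  unfold Vis_P
  rw [map_sum, coeff_sum]
  refine sum_congr rfl fun α _ => ?_
  rw [Vis_aeval_monomial hvw, coeff_sum]
  refine sum_congr rfl fun i _ => ?_
  rw [coeff_monomial]
  simp only [Vis_sf_inj]

private lemma Vis_P_T {a b : ℕ} {A : Finset (Z a b → ℕ)} {v w : Z a b} (hvw : w ≠ v)
    (hA : ∀ α ∈ A, ∀ i ≤ α v, Vis_mv v w i α ∈ A) (t : ℂ) (f : {α // α ∈ A} → ℂ) :
    Vis_P (Vis_T v w t f) = aeval (Vis_g v w t) (Vis_P f) := by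
  classical
  ext γ
  rw [← Vis_sf_eta γ]
  by_cases hγ : ⇑γ ∈ A
  · exact Vis_coeff_P (Vis_T v w t f) ⟨⇑γ, hγ⟩
  · rw [Vis_coeff_P_zero _ _ hγ, Vis_coeff_T hvw]
    symm
    refine sum_eq_zero fun α _ => sum_eq_zero fun i hi => ?_
    rw [if_neg]
    intro h
    rw [mem_range] at hi
    exact hγ (h ▸ hA α.1 α.2 i (by omega))

/-- The moved position. -/
private noncomputable def Vis_q {a b : ℕ} (v w : Z a b) (t : ℂ) (q : Z a b → ℂ) : Z a b → ℂ :=
  fun x => q x - if x = v then t * q w else 0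

private lemma Vis_shift_comm {a b : ℕ} {v w : Z a b} (hvw : w ≠ v) (t : ℂ) (q : Z a b → ℂ)
    (F : MvPolynomial (Z a b) ℂ) :
    aeval (fun i => X i + C (Vis_q v w t q i)) (aeval (Vis_g v w t) F) =
      aeval (Vis_g v w t) (aeval (fun i => X i + C (q i)) F) := by
  have h : (aeval (fun j => X j + C (Vis_q v w t q j)) :
      MvPolynomial (Z a b) ℂ →ₐ[ℂ] MvPolynomial (Z a b) ℂ).comp (aeval (Vis_g v w t)) =
      (aeval (Vis_g v w t)).comp (aeval (fun j => X j + C (q j))) := by
    apply algHom_ext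
    intro x
    rw [AlgHom.comp_apply, AlgHom.comp_apply, aeval_X, aeval_X, map_add, aeval_X, aeval_C,
      algebraMap_eq]
    unfold Vis_g
    by_cases hx : x = v
    · subst hx
      rw [if_pos rfl, map_add, map_mul, aeval_C, algebraMap_eq, aeval_X, aeval_X]
      unfold Vis_q
      rw [if_pos rfl, if_neg hvw, sub_zero, C_sub, C_mul]
      ring
    · rw [if_neg hx, map_add, map_zero, aeval_X]
      unfold Vis_q
      rw [if_neg hx, sub_zero]
      ring
  exact DFunLike.congr_fun h F

private lemma Vis_mem {a b : ℕ} {A : Finset (Z a b → ℕ)} {v w : Z a b} (hvw : w ≠ v)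
    (hw : Vis_w a b v = Vis_w a b w) (hA : ∀ α ∈ A, ∀ i ≤ α v, Vis_mv v w i α ∈ A) {κ : Type}
    (m : κ → Finset (ℕ × ℕ)) (p : κ → Z a b → ℂ) (f : {α // α ∈ A} → ℂ)
    (hf : f ∈ (ASys A).V m p) (t : ℂ) :
    Vis_T v w t f ∈ (ASys A).V m fun i => Vis_q v w t (p i) := by
  rw [mem_AV] at hf ⊢
  intro i β hβ
  rw [← Vis_shift_P, Vis_P_T hvw hA, Vis_shift_comm hvw]
  refine Vis_pres (Vis_g_hom hw t) (xd β, yd β) ?_ _ rfl
  intro γ hγ
  rw [← Vis_sf_eta γ, Vis_shift_P]
  exact hf i ⇑γ (by rw [hγ]; exact hβ)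

private lemma Vis_eval_aeval {σ : Type*} (t : ℂ) (g : σ → Polynomial ℂ) (G : MvPolynomial σ ℂ) :
    Polynomial.eval t (aeval g G) = eval (fun x => Polynomial.eval t (g x)) G := by
  induction G using MvPolynomial.induction_on with
  | C c => simp
  | add p q hp hq => rw [map_add, map_add, Polynomial.eval_add, hp, hq]
  | mul_X p i hp => rw [map_mul, map_mul, Polynomial.eval_mul, hp, aeval_X, eval_X]

/-- All solutions at the positions with `G ≠ 0` vanish at `α`. -/
private def Vis_V {a b : ℕ} (A : Finset (Z a b → ℕ)) {κ : Type} (m : κ → Finset (ℕ × ℕ))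
    (G : MvPolynomial (κ × Z a b) ℂ) (α : Z a b → ℕ) : Prop :=
  ∀ p : κ → Z a b → ℂ, eval (fun x => p x.1 x.2) G ≠ 0 → ∀ f ∈ (ASys A).V m p,
    ∀ h : α ∈ A, f ⟨α, h⟩ = 0

/-- The elementary move. -/
private lemma Vis_move {a b : ℕ} {A : Finset (Z a b → ℕ)} {v w : Z a b} (hvw : w ≠ v)
    (hw : Vis_w a b v = Vis_w a b w) (hA : ∀ α ∈ A, ∀ i ≤ α v, Vis_mv v w i α ∈ A) {κ : Type}
    (m : κ → Finset (ℕ × ℕ)) (G : MvPolynomial (κ × Z a b) ℂ) (α : Z a b → ℕ) (hα : 1 ≤ α v)
    (h : Vis_V A m G (Vis_mv v w 1 α)) : Vis_V A m G α := by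
  classical
  intro p hp f hf hαA
  have hβA : Vis_mv v w 1 α ∈ A := hA α hαA 1 hα
  set β := Vis_mv v w 1 α with hβ
  let Q : Polynomial ℂ := ∑ γ : {γ // γ ∈ A}, ∑ i ∈ range (γ.1 v + 1),
    if Vis_mv v w i γ.1 = β then
      Polynomial.monomial i (f γ * ((γ.1 v).choose i : ℂ)) else 0
  have hQ : ∀ t, Polynomial.eval t Q = Vis_T v w t f ⟨β, hβA⟩ := by
    intro t
    show Polynomial.eval t Q = coeff (Vis_sf β) (aeval (Vis_g v w t) (Vis_P f))
    rw [Vis_coeff_T hvw]
    simp only [Q, Polynomial.eval_finset_sum]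
    refine sum_congr rfl fun γ _ => sum_congr rfl fun i _ => ?_
    split_ifs
    · rw [Polynomial.eval_monomial]
    · rw [Polynomial.eval_zero]
  let D : Polynomial ℂ := aeval (fun x : κ × Z a b =>
    (Polynomial.C (p x.1 x.2) - if x.2 = v then Polynomial.X * Polynomial.C (p x.1 w) else 0 :
      Polynomial ℂ)) G
  have hD : ∀ t, Polynomial.eval t D = eval (fun x : κ × Z a b => Vis_q v w t (p x.1) x.2) G := by
    intro t
    simp only [D]
    rw [Vis_eval_aeval]
    congr 1
    congr 1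
    funext x
    unfold Vis_q
    split_ifs
    · simp
      ring
    · simp
  have hD0 : D ≠ 0 := by
    intro h0
    have h1 := hD 0
    rw [h0, Polynomial.eval_zero] at h1
    apply hp
    rw [h1]
    congr 1
    congr 1
    funext x
    unfold Vis_q
    simp
  have hQD : Q * D = 0 := by
    apply Polynomial.funext
    intro t
    rw [Polynomial.eval_mul, Polynomial.eval_zero, hQ, hD]
    by_cases hG : eval (fun x : κ × Z a b => Vis_q v w t (p x.1) x.2) G = 0
    · rw [hG, mul_zero]
    · rw [h (fun i => Vis_q v w t (p i)) hG _ (Vis_mem hvw hw hA m p f hf t) hβA, zero_mul]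
  have hQ0 : Q = 0 := (mul_eq_zero.1 hQD).resolve_right hD0
  have h1 : Q.coeff 1 = f ⟨α, hαA⟩ * (α v : ℂ) := by
    simp only [Q, Polynomial.finsetSum_coeff]
    rw [sum_eq_single ⟨α, hαA⟩]
    · rw [sum_eq_single 1]
      · rw [if_pos rfl, Polynomial.coeff_monomial, if_pos rfl, Nat.choose_one_right]
      · intro i _ hi
        split_ifs
        · rw [Polynomial.coeff_monomial, if_neg hi]
        · rw [Polynomial.coeff_zero]
      · intro hi
        rw [mem_range] at hi
        simp only at hi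
        omega
    · intro γ _ hγ
      refine sum_eq_zero fun i hi => ?_
      by_cases hi1 : i = 1
      · subst hi1
        rw [if_neg]
        · rw [Polynomial.coeff_zero]
        · intro h2
          apply hγ
          apply Subtype.ext
          rw [hβ] at h2
          rw [mem_range] at hi
          funext x
          have h3 := congrFun h2 x
          have h4 := congrFun h2 v
          have h5 := congrFun h2 w
          unfold Vis_mv at h3 h4 h5
          rw [if_pos rfl, if_pos rfl] at h4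
          rw [if_neg hvw, if_pos rfl, if_neg hvw, if_pos rfl] at h5
          show γ.1 x = α x
          by_cases hx : x = v
          · rw [hx]
            omega
          · rw [if_neg hx, if_neg hx] at h3
            by_cases hx' : x = w
            · rw [hx']
              omega
            · rw [if_neg hx', if_neg hx'] at h3
              exact h3
      · split_ifs
        · rw [Polynomial.coeff_monomial, if_neg hi1]
        · rw [Polynomial.coeff_zero]
    · intro h2
      exact absurd (mem_univ _) h2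
  rw [hQ0, Polynomial.coeff_zero] at h1
  have h2 : (α v : ℂ) ≠ 0 := by
    rw [Nat.cast_ne_zero]
    omega
  exact (mul_eq_zero.1 h1.symm).resolve_right h2

/-- The torus. -/
private lemma Vis_torus {a b : ℕ} {A : Finset (Z a b → ℕ)} (N : ℕ)
    (hN : ∀ α ∈ A, ∀ x, α x ≤ N) {κ : Type} (m : κ → Finset (ℕ × ℕ))
    (G : MvPolynomial (κ × Z a b) ℂ) (φ : ({α // α ∈ A} → ℂ) →ₗ[ℂ] ℂ)
    (hφ : ∀ p : κ → Z a b → ℂ, eval (fun x => p x.1 x.2) G ≠ 0 →
      (ASys A).V m p ≤ LinearMap.ker φ) (β : {α // α ∈ A}) (hβ : φ (Pi.single β 1) ≠ 0) :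
    Vis_V A m G β.1 := by
  classical
  intro p hp f hf hβA
  have hmem : ∀ s : Z a b → ℂ, (fun α : {α // α ∈ A} => (∏ x, s x ^ (N - α.1 x)) * f α) ∈
      (ASys A).V m fun i x => s x * p i x := by
    intro s
    rw [mem_AV] at hf ⊢
    intro i γ hγ
    have h1 : ∀ α : {α // α ∈ A}, tcr (fun x => s x * p i x) α.1 γ *
        ((∏ x, s x ^ (N - α.1 x)) * f α) =
        (∏ x, s x ^ (N - γ x)) * (tcr (p i) α.1 γ * f α) := by
      intro α
      by_cases hle : ∀ x, γ x ≤ α.1 x
      · have h2 : tcr (fun x => s x * p i x) α.1 γ * (∏ x, s x ^ (N - α.1 x)) =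
            (∏ x, s x ^ (N - γ x)) * tcr (p i) α.1 γ := by
          unfold tcr
          rw [← prod_mul_distrib, ← prod_mul_distrib]
          refine prod_congr rfl fun x _ => ?_
          have h3 := hN α.1 α.2 x
          have h4 := hle x
          have h5 : N - γ x = (α.1 x - γ x) + (N - α.1 x) := by omega
          rw [h5, pow_add, mul_pow]
          ring
        rw [← mul_assoc, h2, mul_assoc]
      · push Not at hle
        obtain ⟨x, hx⟩ := hle
        have h0 : ∀ q : Z a b → ℂ, tcr q α.1 γ = 0 := by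
          intro q
          unfold tcr
          apply prod_eq_zero (mem_univ x)
          rw [Nat.choose_eq_zero_of_lt hx]
          simp
        rw [h0, h0, zero_mul, zero_mul, mul_zero]
    rw [sum_congr rfl fun α _ => h1 α, ← mul_sum, hf i γ hγ, mul_zero]
  let c : {α // α ∈ A} → ℂ := fun α => φ (Pi.single α 1)
  have hc : ∀ g : {α // α ∈ A} → ℂ, φ g = ∑ α, c α * g α := by
    intro g
    rw [LinearMap.pi_apply_eq_sum_univ φ g]
    refine sum_congr rfl fun α _ => ?_
    rw [smul_eq_mul, mul_comm]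
    congr 2
    funext γ
    by_cases h : α = γ
    · subst h; simp
    · rw [if_neg h, Pi.single_eq_of_ne (Ne.symm h)]
  let Q : MvPolynomial (Z a b) ℂ :=
    ∑ α : {α // α ∈ A}, monomial (Vis_sf fun x => N - α.1 x) (c α * f α)
  have hQ : ∀ s : Z a b → ℂ, eval s Q =
      φ (fun α : {α // α ∈ A} => (∏ x, s x ^ (N - α.1 x)) * f α) := by
    intro s
    rw [hc]
    simp only [Q]
    rw [map_sum]
    refine sum_congr rfl fun α _ => ?_
    rw [eval_monomial, Finsupp.prod_fintype _ _ (by intro i; simp), Vis_sf_coe]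
    ring
  let D : MvPolynomial (Z a b) ℂ := aeval (fun x : κ × Z a b =>
    (X x.2 * C (p x.1 x.2) : MvPolynomial (Z a b) ℂ)) G
  have hD : ∀ s : Z a b → ℂ, eval s D = eval (fun x : κ × Z a b => s x.2 * p x.1 x.2) G := by
    intro s
    simp only [D]
    have h1 : ∀ H : MvPolynomial (κ × Z a b) ℂ, eval s (aeval (fun x : κ × Z a b =>
        (X x.2 * C (p x.1 x.2) : MvPolynomial (Z a b) ℂ)) H) =
        eval (fun x : κ × Z a b => s x.2 * p x.1 x.2) H := by
      intro H
      induction H using MvPolynomial.induction_on with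
      | C c => simp
      | add p q hp hq => rw [map_add, map_add, map_add, hp, hq]
      | mul_X q i hq => rw [map_mul, map_mul, map_mul, hq, aeval_X, eval_X, map_mul, eval_X, eval_C]
    exact h1 G
  have hD0 : D ≠ 0 := by
    intro h0
    have h1 := hD fun _ => 1
    rw [h0, map_zero] at h1
    apply hp
    rw [h1]
    congr 1
    congr 1
    funext x
    rw [one_mul]
  have hQD : Q * D = 0 := by
    apply MvPolynomial.funext
    intro s
    rw [map_mul, map_zero, hQ, hD]
    by_cases hG : eval (fun x : κ × Z a b => s x.2 * p x.1 x.2) G = 0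
    · rw [hG, mul_zero]
    · have h1 := hφ (fun i x => s x * p i x) hG (hmem s)
      rw [LinearMap.mem_ker] at h1
      rw [h1, zero_mul]
  have hQ0 : Q = 0 := (mul_eq_zero.1 hQD).resolve_right hD0
  have h1 : coeff (Vis_sf fun x => N - β.1 x) Q = c β * f β := by
    simp only [Q]
    rw [coeff_sum, sum_eq_single β]
    · rw [coeff_monomial, if_pos rfl]
    · intro α _ hα
      rw [coeff_monomial, if_neg]
      intro h2
      apply hα
      apply Subtype.ext
      rw [Vis_sf_inj] at h2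
      funext x
      have h3 : N - α.1 x = N - β.1 x := congrFun h2 x
      have h4 := hN α.1 α.2 x
      have h5 := hN β.1 β.2 x
      omega
    · intro h2
      exact absurd (mem_univ _) h2
  rw [hQ0, coeff_zero] at h1
  exact (mul_eq_zero.1 h1.symm).resolve_left hβ

/-- The degrees after a move. -/
private lemma Vis_mv_eq {a b : ℕ} {v w : Z a b} (hvw : w ≠ v) (i : ℕ) (α : Z a b → ℕ)
    (hi : i ≤ α v) (x : Z a b) : Vis_mv v w i α x + (if x = v then i else 0) =
      α x + if x = w then i else 0 := by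
  unfold Vis_mv
  by_cases hx : x = v
  · have hx' : x ≠ w := fun h => hvw (h ▸ hx)
    rw [if_pos hx, if_pos hx, if_neg hx', hx]
    omega
  · by_cases hx' : x = w
    · rw [if_neg hx, if_pos hx', if_neg hx, if_pos hx', hx']
      omega
    · rw [if_neg hx, if_neg hx', if_neg hx, if_neg hx']

private lemma Vis_mv_xd {a b : ℕ} {v w : Z a b} (hvw : w ≠ v)
    (hw : Vis_w a b v = Vis_w a b w) (i : ℕ) (α : Z a b → ℕ) (hi : i ≤ α v) :
    xd (Vis_mv v w i α) = xd α ∧ yd (Vis_mv v w i α) = yd α := by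
  have h1 : (∑ x : Fin a, Vis_mv v w i α (Sum.inl x)) +
      (∑ x : Fin a, if (Sum.inl x : Z a b) = v then i else 0) =
      (∑ x : Fin a, α (Sum.inl x)) + ∑ x : Fin a, if (Sum.inl x : Z a b) = w then i else 0 := by
    rw [← sum_add_distrib, ← sum_add_distrib]
    exact sum_congr rfl fun x _ => Vis_mv_eq hvw i α hi (Sum.inl x)
  have h2 : (∑ x : Fin b, Vis_mv v w i α (Sum.inr x)) +
      (∑ x : Fin b, if (Sum.inr x : Z a b) = v then i else 0) =
      (∑ x : Fin b, α (Sum.inr x)) + ∑ x : Fin b, if (Sum.inr x : Z a b) = w then i else 0 := by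
    rw [← sum_add_distrib, ← sum_add_distrib]
    exact sum_congr rfl fun x _ => Vis_mv_eq hvw i α hi (Sum.inr x)
  unfold xd yd
  rcases v with v | v
  · rcases w with w | w
    · simp at h1 h2
      exact ⟨h1, h2⟩
    · simp [Vis_w] at hw
  · rcases w with w | w
    · simp [Vis_w] at hw
    · simp at h1 h2
      exact ⟨h1, h2⟩

/-- The elementary move for the sets `Bd`. -/
private lemma Vis_closed {K a b d j : ℕ} {o : Fin K → Fin b} {D : Finset (Fin K → ℕ)}
    (hD : Lo D) {v w : Z a b} (hvw : w ≠ v) (hw : Vis_w a b v = Vis_w a b w)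
    (hJ : ∀ s, w ≠ Sum.inr (o s)) : ∀ α ∈ Bd a b d j o D, ∀ i ≤ α v,
      Vis_mv v w i α ∈ Bd a b d j o D := by
  intro α hα i hi
  rw [mem_Bd, mem_Bx] at hα ⊢
  obtain ⟨h1, h2⟩ := Vis_mv_xd hvw hw i α hi
  rw [h1, h2]
  refine ⟨hα.1, hD _ hα.2 _ fun s => ?_⟩
  show Vis_mv v w i α (Sum.inr (o s)) ≤ α (Sum.inr (o s))
  have h3 := Vis_mv_eq hvw i α hi (Sum.inr (o s))
  have hJs : ¬ (Sum.inr (o s) : Z a b) = w := fun h => hJ s h.symm
  rw [if_neg hJs] at h3
  omega

/-- The path. -/
private lemma Vis_path {K a b d j : ℕ} {o : Fin K → Fin b} {D : Finset (Fin K → ℕ)}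
    (hD : Lo D) {κ : Type} (m : κ → Finset (ℕ × ℕ)) (G : MvPolynomial (κ × Z a b) ℂ)
    (α : Z a b → ℕ) (hα : α ∈ Bd a b d j o D) : ∀ (n : ℕ) (β : Z a b → ℕ),
    β ∈ Bd a b d j o D → (∀ s, jp o β s ≤ jp o α s) → ∑ x, (α x - β x) ≤ n →
    Vis_V (Bd a b d j o D) m G β → Vis_V (Bd a b d j o D) m G α := by
  classical
  intro n
  induction n with
  | zero =>
    intro β hβ hj hs hV
    have h0 : ∀ x, α x ≤ β x := by
      intro x
      have h1 : α x - β x ≤ ∑ x, (α x - β x) :=
        single_le_sum (f := fun x => α x - β x) (fun _ _ => Nat.zero_le _) (mem_univ x)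
      omega
    have h2 : α = β := by
      rw [mem_Bd, mem_Bx] at hα hβ
      have h3 : ∑ x, α x = ∑ x, β x := by
        rw [Fintype.sum_sum_type, Fintype.sum_sum_type]
        have h4 := hα.1.1
        have h5 := hβ.1.1
        unfold xd yd at h4 h5
        omega
      funext x
      have h6 := (sum_eq_sum_iff_of_le fun x _ => h0 x).1 h3
      exact h6 x (mem_univ x)
    rw [h2]
    exact hV
  | succ n ih =>
    intro β hβ hj hs hV
    by_cases hαβ : ∀ x, α x ≤ β x
    · refine ih β hβ hj ?_ hV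
      have h1 : ∑ x, (α x - β x) = 0 := sum_eq_zero fun x _ => by
        have := hαβ x
        omega
      omega
    · push Not at hαβ
      obtain ⟨v, hv⟩ := hαβ
      -- a variable of the same block with smaller exponent
      obtain ⟨w, hw, hwv⟩ : ∃ w, Vis_w a b v = Vis_w a b w ∧ α w < β w := by
        by_contra hcon
        push Not at hcon
        rw [mem_Bd, mem_Bx] at hα hβ
        rcases v with v | v
        · have h1 : xd β < xd α := by
            unfold xd
            refine sum_lt_sum (fun x _ => ?_) ⟨v, mem_univ v, hv⟩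
            exact hcon (Sum.inl x) rfl
          omega
        · have h1 : yd β < yd α := by
            unfold yd
            refine sum_lt_sum (fun x _ => ?_) ⟨v, mem_univ v, hv⟩
            exact hcon (Sum.inr x) rfl
          omega
      have hne : w ≠ v := by
        rintro rfl
        omega
      have hJ : ∀ s, w ≠ Sum.inr (o s) := by
        rintro s rfl
        have := hj s
        unfold jp at this
        omega
      -- the next exponent
      have hβ' : Vis_mv w v 1 β ∈ Bd a b d j o D := by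
        rw [mem_Bd, mem_Bx] at hα hβ ⊢
        obtain ⟨h1, h2⟩ := Vis_mv_xd hne.symm hw.symm 1 β (by omega)
        rw [h1, h2]
        refine ⟨hβ.1, hD _ hα.2 _ fun s => ?_⟩
        show Vis_mv w v 1 β (Sum.inr (o s)) ≤ α (Sum.inr (o s))
        have h3 := Vis_mv_eq hne.symm 1 β (by omega) (Sum.inr (o s))
        have h4 := hj s
        unfold jp at h4
        have hJs : ¬ (Sum.inr (o s) : Z a b) = w := fun h => hJ s h.symm
        rw [if_neg hJs] at h3
        by_cases hx : (Sum.inr (o s) : Z a b) = v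
        · rw [if_pos hx] at h3
          rw [hx] at h3 h4 ⊢
          omega
        · rw [if_neg hx] at h3
          omega
      have hback : Vis_mv v w 1 (Vis_mv w v 1 β) = β := by
        funext x
        have e1 := Vis_mv_eq hne.symm 1 β (by omega) v
        rw [if_neg hne.symm, if_pos rfl] at e1
        have h1 := Vis_mv_eq hne 1 (Vis_mv w v 1 β) (by omega) x
        have h2 := Vis_mv_eq hne.symm 1 β (by omega) x
        omega
      have hV' : Vis_V (Bd a b d j o D) m G (Vis_mv w v 1 β) := by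
        have e1 := Vis_mv_eq hne.symm 1 β (by omega) v
        rw [if_neg hne.symm, if_pos rfl] at e1
        refine Vis_move hne hw (Vis_closed hD hne hw hJ) m G _ (by omega) ?_
        rw [hback]
        exact hV
      refine ih _ hβ' (fun s => ?_) ?_ hV'
      · show Vis_mv w v 1 β (Sum.inr (o s)) ≤ α (Sum.inr (o s))
        have h3 := Vis_mv_eq hne.symm 1 β (by omega) (Sum.inr (o s))
        have h4 := hj s
        unfold jp at h4
        have hJs : ¬ (Sum.inr (o s) : Z a b) = w := fun h => hJ s h.symm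
        rw [if_neg hJs] at h3
        by_cases hx : (Sum.inr (o s) : Z a b) = v
        · rw [if_pos hx] at h3
          rw [hx] at h3 h4 ⊢
          omega
        · rw [if_neg hx] at h3
          omega
      · have h5 : ∑ x, (α x - Vis_mv w v 1 β x) < ∑ x, (α x - β x) := by
          refine sum_lt_sum (fun x _ => ?_) ⟨v, mem_univ v, ?_⟩
          · have h3 := Vis_mv_eq hne.symm 1 β (by omega) x
            by_cases hx : x = w
            · rw [hx, if_pos rfl, if_neg hne] at h3
              rw [hx]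
              omega
            · rw [if_neg hx] at h3
              omega
          · have h3 := Vis_mv_eq hne.symm 1 β (by omega) v
            rw [if_neg hne.symm, if_pos rfl] at h3
            omega
        omega

theorem span_or {K a b d j : ℕ} (ha : 1 ≤ a) (hb : K + 1 ≤ b) {o : Fin K → Fin b}
    (ho : Function.Injective o) (hj : j ≤ d) (D : Finset (Fin K → ℕ)) (hD : Lo D)
    (h0 : (0 : Fin K → ℕ) ∈ D) (hDj : ∀ k ∈ D, tk k ≤ j) {κ : Type} [Fintype κ]
    (m : κ → Finset (ℕ × ℕ)) :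
    SpanAt (ASys (Bd a b d j o D)) m ∨ ∃ k ∈ D, k ≠ 0 ∧ Lo (D.erase k) ∧
      (ASys (Bd a b d j o D)).gd m ≤ (ASys (Bd a b d j o (D.erase k))).gd m := by
  classical
  by_cases hS : SpanAt (ASys (Bd a b d j o D)) m
  · exact Or.inl hS
  right
  unfold SpanAt at hS
  push Not at hS
  obtain ⟨φ, hφ, ⟨G, hG0, hG⟩, hgd⟩ := hS
  -- a coefficient of `φ`
  obtain ⟨β, hβ⟩ : ∃ β : {α // α ∈ Bd a b d j o D}, φ (Pi.single β 1) ≠ 0 := by
    by_contra hcon
    push Not at hcon
    apply hφ
    ext β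
    simpa using hcon β
  have hN : ∀ α ∈ Bd a b d j o D, ∀ x, α x ≤ d := by
    intro α hα x
    rw [mem_Bd, mem_Bx] at hα
    have h1 : ∑ x, α x = d := by
      rw [Fintype.sum_sum_type]
      exact hα.1.1
    have h2 : α x ≤ ∑ x, α x := single_le_sum (fun _ _ => Nat.zero_le _) (mem_univ x)
    omega
  have hV := Vis_torus d hN m G φ hG β hβ
  have hβD : jp o β.1 ∈ D := (mem_Bd.1 β.2).2
  -- a maximal piece
  obtain ⟨k, hk, hmax⟩ := exists_max_image (D.filter fun k => ∀ s, jp o β.1 s ≤ k s) tk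
    ⟨jp o β.1, mem_filter.2 ⟨hβD, fun s => le_rfl⟩⟩
  rw [mem_filter] at hk
  have hlo : Lo (D.erase k) := by
    intro k' hk' l hl
    rw [mem_erase] at hk' ⊢
    refine ⟨?_, hD k' hk'.2 l hl⟩
    rintro rfl
    apply hk'.1
    have h1 : tk k' ≤ tk l := hmax k' (mem_filter.2 ⟨hk'.2, fun s => (hk.2 s).trans (hl s)⟩)
    have h2 : ∑ s, l s = ∑ s, k' s := le_antisymm (sum_le_sum fun s _ => hl s) h1
    funext s
    exact ((sum_eq_sum_iff_of_le fun s _ => hl s).1 h2 s (mem_univ s)).symm
  -- the solutions at general positions vanish on the piece `k`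
  have hvan : ∀ p : κ → Z a b → ℂ, eval (fun x => p x.1 x.2) G ≠ 0 →
      ∀ f ∈ (ASys (Bd a b d j o D)).V m p, ∀ α : {α // α ∈ Bd a b d j o D}, jp o α.1 = k →
      f α = 0 := by
    intro p hp f hf α hα
    refine Vis_path hD m G α.1 α.2 _ β.1 β.2 (fun s => ?_) le_rfl hV p hp f hf α.2
    rw [hα]
    exact hk.2 s
  have hle : (ASys (Bd a b d j o D)).gd m ≤ (ASys (Bd a b d j o (D.erase k))).gd m := by
    have hgn : Gn κ (Z a b) fun p => (∀ f ∈ (ASys (Bd a b d j o D)).V m p,
        ∀ α : {α // α ∈ Bd a b d j o D}, jp o α.1 = k → f α = 0) ∧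
        Module.finrank ℂ ((ASys (Bd a b d j o (D.erase k))).V m p) =
          (ASys (Bd a b d j o (D.erase k))).gd m :=
      Gn.and ⟨G, hG0, hvan⟩ (gn_gd _ m)
    obtain ⟨p, hp1, hp2⟩ := hgn.exists
    rw [← hp2]
    refine (gd_le _ m p).trans ?_
    have hsub : ∀ α, α ∈ Bd a b d j o (D.erase k) → α ∈ Bd a b d j o D := by
      intro α hα
      rw [mem_Bd] at hα ⊢
      exact ⟨hα.1, mem_of_mem_erase hα.2⟩
    -- the restriction
    let R : ({α // α ∈ Bd a b d j o D} → ℂ) →ₗ[ℂ] ({α // α ∈ Bd a b d j o (D.erase k)} → ℂ) :=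
      { toFun := fun f α => f ⟨α.1, hsub α.1 α.2⟩
        map_add' := fun f g => rfl
        map_smul' := fun c f => rfl }
    have hR : ∀ f : {α // α ∈ Bd a b d j o D} → ℂ,
        (∀ α : {α // α ∈ Bd a b d j o D}, jp o α.1 = k → f α = 0) → ∀ c : (Z a b → ℕ) → ℂ,
        ∑ α : {α // α ∈ Bd a b d j o D}, c α.1 * f α =
          ∑ α : {α // α ∈ Bd a b d j o (D.erase k)}, c α.1 * R f α := by
      intro f hf c
      symm
      refine sum_of_injOn (fun α => ⟨α.1, hsub α.1 α.2⟩) ?_ ?_ ?_ ?_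
      · intro α _ α' _ h
        exact Subtype.ext (congrArg (fun z : {α // α ∈ Bd a b d j o D} => z.1) h)
      · intro α _
        exact mem_coe.2 (mem_univ _)
      · intro α _ hα
        rw [hf α, mul_zero]
        by_contra hne
        apply hα
        have h1 := mem_Bd.1 α.2
        exact ⟨⟨α.1, mem_Bd.2 ⟨h1.1, mem_erase.2 ⟨hne, h1.2⟩⟩⟩, mem_coe.2 (mem_univ _), rfl⟩
      · intro α _
        rfl
    have hmap : ∀ f ∈ (ASys (Bd a b d j o D)).V m p,
        R f ∈ (ASys (Bd a b d j o (D.erase k))).V m p := by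
      intro f hf
      have h1 := hp1 f hf
      rw [mem_AV] at hf ⊢
      intro i γ hγ
      rw [← hR f h1 fun α => tcr (p i) α γ]
      exact hf i γ hγ
    refine LinearMap.finrank_le_finrank_of_injective (f := R.restrict hmap) ?_
    rw [← LinearMap.ker_eq_bot, LinearMap.ker_eq_bot']
    intro f hf
    apply Subtype.ext
    funext α
    have h1 := congrArg Subtype.val hf
    by_cases hα : jp o α.1 = k
    · exact hp1 f.1 f.2 α hα
    · have h2 := mem_Bd.1 α.2
      exact congrFun h1 ⟨α.1, mem_Bd.2 ⟨h2.1, mem_erase.2 ⟨hα, h2.2⟩⟩⟩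
  refine ⟨k, hk.1, ?_, hlo, hle⟩
  rintro rfl
  -- then `D = {0}`
  have hD0 : D.erase (0 : Fin K → ℕ) = ∅ := by
    rw [eq_empty_iff_forall_notMem]
    intro k' hk'
    rw [mem_erase] at hk'
    apply hk'.1
    have h1 : tk k' ≤ tk (0 : Fin K → ℕ) :=
      hmax k' (mem_filter.2 ⟨hk'.2, fun s => (hk.2 s).trans (Nat.zero_le _)⟩)
    rw [tk_zero] at h1
    funext s
    have h2 : k' s ≤ tk k' := single_le_sum (f := k') (fun _ _ => Nat.zero_le _) (mem_univ s)
    show k' s = 0
    omega
  rw [hD0] at hle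
  have h1 := gd_le_card (ASys (Bd a b d j o (∅ : Finset (Fin K → ℕ)))) m
  have h2 : Fintype.card {α // α ∈ Bd a b d j o (∅ : Finset (Fin K → ℕ))} = 0 := by
    rw [Fintype.card_eq_zero_iff]
    exact ⟨fun α => absurd (mem_Bd.1 α.2).2 (notMem_empty _)⟩
  rw [h2] at h1
  omega

end Pool.Agent.LK
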