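import Pool.Agent.H21.TC.Start
import Pool.Agent.H21.TC.Adj
import Pool.Agent.H21.TC.Bnd
import Pool.Agent.H51.TB.LBas
import Pool.Agent.H51.TB.Nt

/-!
# LK9: the numerical theorem

As `Pool/Agent/H21/TC/Num.lean` with `m₀ = 0`; the upper bounds for the sums of the levels and the bound
of the masses of the cells are kept.
-/

set_option autoImplicit false

namespace Pool.Agent.LK

open Finset Pool.Agent.H18.Ex Pool.Agent.H21.NX Pool.Agent.H18.Ta Pool.Agent.H51.TB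
  Pool.Agent.H21.TC

/-- Prefix sums determine the terms, and the last one is bounded. -/
private theorem Num_prefix {d L : ℕ} {f g : ℕ → ℕ}
    (h : ∀ j < d, ∑ i ∈ range (j + 1), f i = ∑ i ∈ range (j + 1), g i)
    (h' : ∑ i ∈ range (d + 1), g i ≤ ∑ i ∈ range (d + 1), f i)
    (h'' : ∑ i ∈ range (d + 1), f i ≤ ∑ i ∈ range (d + 1), g i + L) :
    ∀ j ≤ d, g j ≤ f j ∧ f j ≤ g j + L := by
  intro j hj
  have h1 : ∑ i ∈ range j, f i = ∑ i ∈ range j, g i := by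
    rcases Nat.eq_zero_or_pos j with h0 | h0
    · rw [h0, range_zero, sum_empty, sum_empty]
    · obtain ⟨k, rfl⟩ : ∃ k, j = k + 1 := ⟨j - 1, by omega⟩
      exact h k (by omega)
  have h2 : ∑ i ∈ range (j + 1), g i ≤ ∑ i ∈ range (j + 1), f i ∧
      ∑ i ∈ range (j + 1), f i ≤ ∑ i ∈ range (j + 1), g i + L := by
    rcases Nat.lt_or_ge j d with h0 | h0
    · have := h j h0
      omega
    · have h3 : j = d := by omega
      rw [h3]
      exact ⟨h', h''⟩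
  rw [sum_range_succ, sum_range_succ, h1] at h2
  omega

/-- The prefix sums of the masses. -/
private theorem Num_Pre {d : ℕ} (w : ℕ × ℕ → ℕ) (c : ℕ → ℕ × ℕ → ℕ) (j : ℕ) :
    ∑ i ∈ range (j + 1), (∑ m ∈ range (d + 1), ∑ x ∈ KK d, c m x * wtw d m w x i) =
    ∑ m ∈ range (d + 1), ∑ x ∈ KK d, c m x * Prw d m w x j := by
  rw [sum_comm]
  unfold Prw
  refine sum_congr rfl fun m _ => ?_
  rw [sum_comm]
  refine sum_congr rfl fun x _ => ?_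
  rw [mul_sum]

/-- The total mass. -/
private theorem Num_total {d : ℕ} (w : ℕ × ℕ → ℕ)
    (c : ℕ → ℕ × ℕ → ℕ) (A : ℕ → ℕ) (hA : ∀ m ∈ range (d + 1), ∑ x ∈ KK d, c m x = A m) :
    ∑ i ∈ range (d + 1), (∑ m ∈ range (d + 1), ∑ x ∈ KK d, c m x * wtw d m w x i) =
    ∑ m ∈ range (d + 1), A m * lamw m w := by
  rw [Num_Pre]
  unfold Prw
  refine sum_congr rfl fun m hm => ?_
  rw [← hA m hm, sum_mul]
  refine sum_congr rfl fun x hx => ?_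
  rw [sum_wtw (by rw [mem_range] at hm; omega) (mem_KK.1 hx)]

private theorem Num_lamw_zero (w : ℕ × ℕ → ℕ) : lamw 0 w = 0 := by
  unfold lamw
  simp

private theorem Num_Prw_zero (d : ℕ) (w : ℕ × ℕ → ℕ) (x : ℕ × ℕ) (j : ℕ) :
    Prw d 0 w x j = 0 := by
  unfold Prw wtw
  refine sum_eq_zero fun i _ => sum_eq_zero fun g hg => ?_
  exfalso
  unfold Lam at hg
  simp at hg

theorem numC (d : ℕ) (η : ℝ) (hη : 0 < η) (W : ℕ → ℕ → ℕ × ℕ → ℕ)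
    (hwt : ∀ a b, 2 ≤ a → 2 ≤ b → IsWt a b (W a b)) (hW : AsyW W)
    (B : ℕ → ℕ → ℕ → ℕ) (hB : AsyB d B) : ∃ κ : ℝ, 0 < κ ∧ ∀ ε₀ : ℝ, 0 < ε₀ →
    ∃ n₀ : ℕ, ∀ n : ℕ, n₀ ≤ n →
    ∃ a b : ℕ, 2 ≤ a ∧ 2 ≤ b ∧ a + b = n ∧ |(a : ℝ) - b| ≤ ε₀ * (a + b : ℕ) ∧
    ∀ (M μ : ℕ) (A : ℕ → ℕ), 1 ≤ μ → μ ≤ M → μ + M ≤ d →
    (∀ m, A m ≠ 0 → 1 ≤ m ∧ m ≤ M ∧ m + M ≤ d + 1) →
    ∑ i ∈ range (d + 1), B a b i ≤ ∑ m ∈ range (d + 1), A m * lamw m (W a b) →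
    ∑ m ∈ range (d + 1), A m * lamw m (W a b) ≤
      ∑ i ∈ range (d + 1), B a b i + ell (a + b - 1) d →
    η * (ell (a + b - 1) (d + 1) : ℝ) ≤ ((A μ * ell (a + b - 1) μ : ℕ) : ℝ) →
    ∃ c : ℕ → ℕ × ℕ → ℕ, (∀ m ∈ range (d + 1), ∑ x ∈ KK d, c m x = A m) ∧
      (∀ j ≤ d, B a b j ≤
        ∑ m ∈ range (d + 1), ∑ x ∈ KK d, c m x * wtw d m (W a b) x j) ∧
      (∀ j ≤ d, ∑ m ∈ range (d + 1), ∑ x ∈ KK d, c m x * wtw d m (W a b) x j ≤
        B a b j + ell (a + b - 1) d) ∧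
      (∀ x ∈ KK d, x.2 ≤ μ →
        κ * (ell (a + b - 1) (d + 1) : ℝ) ≤ (c μ x : ℝ) * (ell (a + b - 1) μ : ℝ)) := by
  obtain ⟨e, he, hstart⟩ := startw d W (fun a b ha hb => (hwt a b ha hb).le) hW B hB
  obtain ⟨κ₀, hκ₀, ε₁, hε₁, n₁, hEg⟩ := W_ge d W hW
  -- the constants of `adjustw`
  have hadj : ∀ μ : ℕ, ∃ K : ℕ, 1 ≤ K ∧ (1 ≤ μ → 2 * μ ≤ d → ∀ a b : ℕ, 2 ≤ a → 2 ≤ b →
      ∀ w : ℕ × ℕ → ℕ, IsWt a b w → (∀ g : ℕ × ℕ, g.1 + g.2 + 1 = μ → 1 ≤ w g) →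
      (∀ t, 1 ≤ t → t < μ → Nat.Coprime (Nat.multichoose (a - 1) t) (a + b - 2)) →
      ∀ (c₀ : ℕ × ℕ → ℕ) (E : ℕ) (P : ℕ → ℤ), (∀ x ∈ KK d, x.2 ≤ μ → E ≤ c₀ x) →
      K * ((a + b) * ell (a + b) μ) ≤ E →
      (∀ s < d, (K : ℤ) * |P s| ≤ (E : ℤ) * (Mvw d μ w s 0 : ℤ)) →
      ∃ c₁ : ℕ × ℕ → ℕ, ∑ x ∈ KK d, c₁ x = ∑ x ∈ KK d, c₀ x ∧
        (∀ x ∈ KK d, x.2 ≤ μ → E ≤ 2 * c₁ x) ∧
        ∀ j < d, ∑ x ∈ KK d, (c₁ x : ℤ) * (Prw d μ w x j : ℤ) =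
          ∑ x ∈ KK d, (c₀ x : ℤ) * (Prw d μ w x j : ℤ) - P j) := by
    intro μ
    by_cases h : 1 ≤ μ ∧ 2 * μ ≤ d
    · obtain ⟨K, hK1, hK2⟩ := adjustw d μ h.1 h.2
      exact ⟨K, hK1, fun _ _ => hK2⟩
    · exact ⟨1, le_rfl, fun h1 h2 => absurd ⟨h1, h2⟩ h⟩
  choose Kf hKf1 hKf2 using hadj
  set K : ℕ := 1 + ∑ μ ∈ range (d + 1), Kf μ with hK
  have hKf3 : ∀ μ ≤ d, Kf μ ≤ K := by
    intro μ hμ
    have : Kf μ ≤ ∑ μ ∈ range (d + 1), Kf μ :=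
      single_le_sum (fun _ _ => Nat.zero_le _) (mem_range.2 (by omega))
    omega
  have hK0 : (0 : ℝ) < K := by
    have : 0 < K := by omega
    exact_mod_cast this
  have heη : 0 < e * η := by positivity
  set δ : ℝ := e * η * κ₀ / (2 * K) with hδ
  have hδ0 : 0 < δ := by positivity
  obtain ⟨ε₂, hε₂, n₂, hst⟩ := hstart δ hδ0
  refine ⟨e * η / 4, by positivity, fun ε₃ hε₃ => ?_⟩
  obtain ⟨n₄, hcop⟩ := exists_coprime d (min ε₁ (min ε₂ ε₃)) (lt_min hε₁ (lt_min hε₂ hε₃))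
  obtain ⟨n₅, hsq⟩ := grow_sq d (2 * K / (e * η))
  obtain ⟨n₆, hone⟩ := grow_one d (2 / (e * η))
  refine ⟨max (max (max n₁ n₂) (max 0 n₄)) (max (max n₅ n₆) 2), fun n hn => ?_⟩
  have hn1 : n₁ ≤ n := le_trans ((le_max_left _ _).trans ((le_max_left _ _).trans (le_max_left _ _))) hn
  have hn2 : n₂ ≤ n := le_trans ((le_max_right _ _).trans ((le_max_left _ _).trans (le_max_left _ _))) hn
  have hn4 : n₄ ≤ n := le_trans ((le_max_right _ _).trans ((le_max_right _ _).trans (le_max_left _ _))) hn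
  have hn5 : n₅ ≤ n := le_trans ((le_max_left _ _).trans ((le_max_left _ _).trans (le_max_right _ _))) hn
  have hn6 : n₆ ≤ n := le_trans ((le_max_right _ _).trans ((le_max_left _ _).trans (le_max_right _ _))) hn
  obtain ⟨a, ha2, hab, habs, hco⟩ := hcop n hn4
  obtain ⟨b, rfl⟩ : ∃ b, n = a + b := ⟨n - a, by omega⟩
  have hb2 : 2 ≤ b := by omega
  have habs' : ∀ ε : ℝ, min ε₁ (min ε₂ ε₃) ≤ ε → |(a : ℝ) - b| ≤ ε * ((a + b : ℕ) : ℝ) := by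
    intro ε hε
    have h1 : (a : ℝ) - b = 2 * (a : ℝ) - ((a + b : ℕ) : ℝ) := by
      push_cast
      ring
    rw [h1]
    exact habs.trans (mul_le_mul_of_nonneg_right hε (Nat.cast_nonneg _))
  have hab1 := habs' ε₁ (min_le_left _ _)
  have hab2 := habs' ε₂ ((min_le_right _ _).trans (min_le_left _ _))
  have hab3 := habs' ε₃ ((min_le_right _ _).trans (min_le_right _ _))
  refine ⟨a, b, ha2, hb2, rfl, hab3, ?_⟩
  intro M μ A hμ hμM hμd hA hL1 hL2 hη'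
  have hμd' : 2 * μ ≤ d := by omega
  have hμle : μ ≤ d := by omega
  set N : ℝ := (ell (a + b - 1) (d + 1) : ℝ) with hN
  set l : ℝ := (ell (a + b - 1) μ : ℝ) with hl
  have hl0 : 0 < l := by
    have := ell_pos (a + b - 1) hμ
    rw [hl]
    exact_mod_cast this
  have hN0 : 0 ≤ N := Nat.cast_nonneg _
  set E : ℕ := ⌊e * A μ⌋₊ with hE
  have hE1 : (E : ℝ) ≤ e * A μ := Nat.floor_le (by positivity)
  have hE2 : e * A μ < E + 1 := Nat.lt_floor_add_one _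
  have hAμ : η * N ≤ A μ * l := by
    have := hη'
    push_cast at this
    exact this
  -- `E l ≥ (e η / 2) N`
  have hlN : l ≤ e * η / 2 * N := by
    have h1 := hone (a + b) hn6 μ hμle
    have h2 : l ≤ (ell (a + b) μ : ℝ) := by
      have h3 : ell (a + b - 1) μ ≤ ell (a + b) μ := by
        obtain ⟨k, hk⟩ : ∃ k, a + b = k + 1 := ⟨a + b - 1, by omega⟩
        obtain ⟨c', hc'⟩ : ∃ c', μ = c' + 1 := ⟨μ - 1, by omega⟩
        rw [hk, Nat.add_sub_cancel, hc', ell_succ]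
        omega
      show ((ell (a + b - 1) μ : ℕ) : ℝ) ≤ _
      exact Nat.cast_le.2 h3
    have h4 : 2 / (e * η) * l ≤ N := (mul_le_mul_of_nonneg_left h2 (by positivity)).trans h1
    have h5 : l = e * η / 2 * (2 / (e * η) * l) := by
      field_simp
    rw [h5]
    exact mul_le_mul_of_nonneg_left h4 (by positivity)
  have hEl : e * η / 2 * N ≤ E * l := by
    have h1 : (e * A μ) * l ≤ (E + 1) * l := mul_le_mul_of_nonneg_right hE2.le hl0.le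
    have h2 : e * (η * N) ≤ e * (A μ * l) := mul_le_mul_of_nonneg_left hAμ he.le
    nlinarith
  -- the initial distribution
  obtain ⟨c₀, hc₀1, hc₀2, hc₀3⟩ := hst a b ha2 hb2 hn2 hab2 M μ 0 A hμ hμM hμd (Nat.zero_le d) hA
    (by rw [Num_lamw_zero, zero_add]; exact hL1) (by rw [Num_lamw_zero, zero_add]; exact hL2) E hE1
  simp only [Num_Prw_zero, zero_add] at hc₀3
  set P : ℕ → ℤ := fun j => ((∑ m ∈ range (d + 1), ∑ x ∈ KK d, c₀ m x * Prw d m (W a b) x j :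
      ℕ) : ℤ) - ((∑ i ∈ range (j + 1), B a b i : ℕ) : ℤ) with hP
  have hPabs : ∀ j ≤ d, ((|P j| : ℤ) : ℝ) ≤ δ * N := by
    intro j hj
    have h1 := hc₀3 j hj
    rw [Int.cast_abs]
    have h2 : ((P j : ℤ) : ℝ) = ((∑ m ∈ range (d + 1), ∑ x ∈ KK d, c₀ m x *
        Prw d m (W a b) x j : ℕ) : ℝ) - ((∑ i ∈ range (j + 1), B a b i : ℕ) : ℝ) := by
      rw [hP]
      simp only [Int.cast_sub, Int.cast_natCast]
    rw [h2]
    exact h1
  -- the adjustment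
  have hKμ : ((Kf μ : ℕ) : ℝ) ≤ K := by exact_mod_cast hKf3 μ hμle
  have hbig : Kf μ * ((a + b) * ell (a + b) μ) ≤ E := by
    have h1 := hsq (a + b) hn5 μ hμ hμd'
    have h2 : (K : ℝ) * (((a + b : ℕ) : ℝ) * ell (a + b) μ) * l ≤ E * l := by
      have h3 : (K : ℝ) * (((a + b : ℕ) : ℝ) * ell (a + b) μ) * l =
          e * η / 2 * (2 * K / (e * η) * (((a + b : ℕ) : ℝ) * ell (a + b) μ * ell (a + b - 1) μ)) := by
        rw [hl]
        field_simp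
      rw [h3]
      exact (mul_le_mul_of_nonneg_left h1 (by positivity)).trans hEl
    have h4 : (K : ℝ) * (((a + b : ℕ) : ℝ) * ell (a + b) μ) ≤ E := le_of_mul_le_mul_right h2 hl0
    have h5 : ((Kf μ * ((a + b) * ell (a + b) μ) : ℕ) : ℝ) ≤ E := by
      push_cast
      push_cast at h4
      exact (mul_le_mul_of_nonneg_right hKμ (by positivity)).trans h4
    exact_mod_cast h5
  have hPM : ∀ s < d, (Kf μ : ℤ) * |P s| ≤ (E : ℤ) * (Mvw d μ (W a b) s 0 : ℤ) := by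
    intro s hs
    obtain ⟨g, hg1, hg2⟩ := Mvw_ge (W a b) hμ hμle hs
    have h1 := hEg a b ha2 hb2 hn1 hab1 g (by omega)
    rw [hg1] at h1
    have h2 : κ₀ * l ≤ (Mvw d μ (W a b) s 0 : ℝ) := by
      have : (W a b g : ℝ) ≤ (Mvw d μ (W a b) s 0 : ℝ) := by exact_mod_cast hg2
      linarith
    have h3 : (Kf μ : ℝ) * ((|P s| : ℤ) : ℝ) ≤ K * (δ * N) := by
      have h31 := hPabs s hs.le
      have h32 : (0 : ℝ) ≤ ((|P s| : ℤ) : ℝ) := by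
        exact_mod_cast abs_nonneg (P s)
      exact mul_le_mul hKμ h31 h32 hK0.le
    have h4 : (K : ℝ) * (δ * N) = κ₀ * (e * η / 2 * N) := by
      rw [hδ]
      field_simp
    have h5 : κ₀ * (e * η / 2 * N) ≤ κ₀ * (E * l) := mul_le_mul_of_nonneg_left hEl hκ₀.le
    have h6 : κ₀ * (E * l) ≤ E * (Mvw d μ (W a b) s 0 : ℝ) := by
      have : κ₀ * (E * l) = E * (κ₀ * l) := by ring
      rw [this]
      exact mul_le_mul_of_nonneg_left h2 (Nat.cast_nonneg _)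
    have h7 : (Kf μ : ℝ) * ((|P s| : ℤ) : ℝ) ≤ E * (Mvw d μ (W a b) s 0 : ℝ) := by linarith
    exact_mod_cast h7
  have hpos : ∀ g : ℕ × ℕ, g.1 + g.2 + 1 = μ → 1 ≤ W a b g := by
    intro g hg
    have h1 := hEg a b ha2 hb2 hn1 hab1 g (by omega)
    rw [hg] at h1
    have h2 : (0 : ℝ) < (W a b g : ℝ) := lt_of_lt_of_le (mul_pos hκ₀ hl0) h1
    exact_mod_cast h2
  obtain ⟨c₁, hc₁1, hc₁2, hc₁3⟩ := hKf2 μ hμ hμd' a b ha2 hb2 (W a b) (hwt a b ha2 hb2) hpos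
    (fun t ht1 ht2 => hco t ht1 (by omega)) (c₀ μ) E P hc₀2 hbig hPM
  have hμr : μ ∈ range (d + 1) := mem_range.2 (by omega)
  set c : ℕ → ℕ × ℕ → ℕ := Function.update c₀ μ c₁ with hc
  have hcμ : c μ = c₁ := Function.update_self _ _ _
  have hcm : ∀ m, m ≠ μ → c m = c₀ m := fun m hm => Function.update_of_ne hm _ _
  have hcA : ∀ m ∈ range (d + 1), ∑ x ∈ KK d, c m x = A m := by
    intro m hm
    by_cases h : m = μ
    · rw [h, hcμ, hc₁1]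
      exact hc₀1 μ hμr
    · rw [hcm m h]
      exact hc₀1 m hm
  have hlev : ∀ j ≤ d, B a b j ≤
      (∑ m ∈ range (d + 1), ∑ x ∈ KK d, c m x * wtw d m (W a b) x j) ∧
      (∑ m ∈ range (d + 1), ∑ x ∈ KK d, c m x * wtw d m (W a b) x j) ≤
        B a b j + ell (a + b - 1) d := by
    refine Num_prefix (fun j hj => ?_) ?_ ?_
    · rw [Num_Pre]
      have h1 := hc₁3 j hj
      have h2 : ((∑ m ∈ range (d + 1), ∑ x ∈ KK d, c m x * Prw d m (W a b) x j : ℕ) : ℤ) =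
          ((∑ m ∈ range (d + 1), ∑ x ∈ KK d, c₀ m x * Prw d m (W a b) x j : ℕ) : ℤ) - P j := by
        rw [← add_sum_erase _ _ hμr, ← add_sum_erase (range (d + 1))
          (fun m => ∑ x ∈ KK d, c₀ m x * Prw d m (W a b) x j) hμr]
        have h3 : ∑ m ∈ (range (d + 1)).erase μ, ∑ x ∈ KK d, c m x * Prw d m (W a b) x j =
            ∑ m ∈ (range (d + 1)).erase μ, ∑ x ∈ KK d, c₀ m x * Prw d m (W a b) x j := by
          refine sum_congr rfl fun m hm => ?_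
          rw [hcm m (ne_of_mem_erase hm)]
        rw [h3, hcμ]
        push_cast
        rw [h1]
        ring
      have h4 : P j = ((∑ m ∈ range (d + 1), ∑ x ∈ KK d, c₀ m x * Prw d m (W a b) x j :
        ℕ) : ℤ) - ((∑ i ∈ range (j + 1), B a b i : ℕ) : ℤ) := rfl
      rw [h4] at h2
      have h5 : ((∑ m ∈ range (d + 1), ∑ x ∈ KK d, c m x * Prw d m (W a b) x j : ℕ) : ℤ) =
          ((∑ i ∈ range (j + 1), B a b i : ℕ) : ℤ) := by
        rw [h2]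
        ring
      exact_mod_cast h5
    · rw [Num_total (W a b) c A hcA]
      exact hL1
    · rw [Num_total (W a b) c A hcA]
      exact hL2
  refine ⟨c, hcA, fun j hj => (hlev j hj).1, fun j hj => (hlev j hj).2, fun x hx hx2 => ?_⟩
  rw [hcμ]
  have h1 := hc₁2 x hx hx2
  have h2 : (E : ℝ) ≤ 2 * c₁ x := by exact_mod_cast h1
  have h3 : (E : ℝ) * l ≤ 2 * c₁ x * l := mul_le_mul_of_nonneg_right h2 hl0.le
  show e * η / 4 * N ≤ (c₁ x : ℝ) * l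
  linarith

end Pool.Agent.LK
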